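import Pool.Agent.W957.Final

set_option autoImplicit false

namespace Pool.Agent.W957

open Finset

open Classical in
theorem ratio_bound : ∃ C : ℝ, ∃ q0 : ℕ, 0 < q0 ∧ ∀ n q : ℕ, q0 ≤ q → q ^ 10 ≤ n →
    n < (q + 1) ^ 10 →
    ((univ.filter (fun E : Fin n → Fin n → Bool => OTree E ∧ HasSig E)).card : ℝ) * q ≤
      C * ((univ.filter (fun E : Fin n → Fin n → Bool => OTree E)).card : ℝ) := by
  obtain ⟨K, hK, hNN⟩ := NN_bound hardLimb.S 30
  refine ⟨2 * (8 + K * 2 ^ 30), 4 + 4 * hardLimb.S.m + 31 * (hardLimb.S.m + 1), by omega, ?_⟩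
  intro n q hq hqn hnq
  have hq1 : 1 ≤ q := by omega
  have hqn' : q ≤ n := le_trans (Nat.le_self_pow (by norm_num) q) hqn
  have hn0 : 0 < n := by omega
  have h4q : 4 * q ≤ n := by
    calc 4 * q ≤ q * q := Nat.mul_le_mul_right _ (by omega)
      _ = q ^ 2 := by ring
      _ ≤ q ^ 10 := Nat.pow_le_pow_right hq1 (by norm_num)
      _ ≤ n := hqn
  set r0 : Fin n := ⟨0, hn0⟩ with hr0
  set T : ℝ := ((FF ({r0} : Finset (Fin n))).card : ℝ) with hT
  have hnT : (n : ℝ) * T = (n : ℝ) ^ (n - 1) := by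
    have h := card_FF ({r0} : Finset (Fin n))
    rw [Fintype.card_fin, Finset.card_singleton, one_mul] at h
    rw [hT]; exact_mod_cast h
  have hnR : (0 : ℝ) < n := by exact_mod_cast hn0
  have hqR : (0 : ℝ) < q := by exact_mod_cast hq1
  have hTpos : 0 < T := by
    have : 0 < (n : ℝ) * T := by rw [hnT]; positivity
    exact (mul_pos_iff_of_pos_left hnR).1 this
  have hqnR : (q : ℝ) ^ 10 ≤ n := by exact_mod_cast hqn
  have hnqR : (n : ℝ) ≤ (2 * q) ^ 10 := by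
    have h1 : n ≤ (2 * q) ^ 10 := hnq.le.trans (Nat.pow_le_pow_left (by omega) 10)
    exact_mod_cast h1
  set W : ℝ := T * 2 ^ n with hW
  have hWpos : 0 < W := by positivity
  -- lower bound on the number of trees
  have htree : W ≤ 2 * ((univ.filter (fun E : Fin n → Fin n → Bool => OTree E)).card : ℝ) := by
    have h := trees_lower r0
    rw [Fintype.card_fin] at h
    rw [hW, hT]
    have h2 : (((FF ({r0} : Finset (Fin n))).card * 2 ^ n : ℕ) : ℝ) ≤
        ((2 * (univ.filter (fun E : Fin n → Fin n → Bool => OTree E)).card : ℕ) : ℝ) := by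
      exact_mod_cast h
    push_cast at h2
    exact h2
  -- Bad1
  have hbad1 : ((Bad1 r0 q (2 * q ^ 4)).card : ℝ) * q ≤ 8 * W := by
    have h1 := card_Bad1 r0 q (q ^ 4)
    have h2 := card_shallow r0 (2 * q ^ 4)
    rw [Fintype.card_fin] at h1 h2
    set Sh := (univ.filter (fun q_1 : Fin n × (Fin n → Fin n) => IsF {r0} q_1.2 ∧
        ∃ i < 2 * q ^ 4, q_1.2^[i] q_1.1 = r0)).card with hSh
    have h1R : ((n : ℝ) * ((Bad1 r0 q (2 * q ^ 4)).card : ℝ)) * 4 ^ (q ^ 4) ≤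
        (Sh : ℝ) * 2 ^ n * 4 ^ (q ^ 4) + n * T * ((4 * q) * (Nat.centralBinom (q ^ 4) : ℝ) * 2 ^ n) := by
      rw [hT]; exact_mod_cast h1
    have h2R : (n : ℝ) * (Sh : ℝ) ≤ (2 * (q : ℝ) ^ 4) ^ 2 * (n : ℝ) ^ (n - 1) := by
      exact_mod_cast h2
    rw [← hnT] at h2R
    have h3 : (Sh : ℝ) ≤ 4 * (q : ℝ) ^ 8 * T := by
      have : (n : ℝ) * Sh ≤ n * (4 * (q : ℝ) ^ 8 * T) := by
        calc (n : ℝ) * Sh ≤ _ := h2R
          _ = _ := by ring
      exact le_of_mul_le_mul_left this hnR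
    -- central binomial coefficient
    have h4 : (Nat.centralBinom (q ^ 4) : ℝ) * (q : ℝ) ^ 2 ≤ 4 ^ (q ^ 4) := by
      have h5 := central_bound (q ^ 4)
      have h6 : (Nat.centralBinom (q ^ 4) * q ^ 2) ^ 2 ≤ (4 ^ (q ^ 4)) ^ 2 := by
        calc (Nat.centralBinom (q ^ 4) * q ^ 2) ^ 2
            = Nat.centralBinom (q ^ 4) ^ 2 * q ^ 4 := by ring
          _ ≤ Nat.centralBinom (q ^ 4) ^ 2 * (2 * q ^ 4 + 1) :=
              Nat.mul_le_mul_left _ (by omega)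
          _ ≤ 16 ^ (q ^ 4) := h5
          _ = (4 ^ (q ^ 4)) ^ 2 := by rw [← pow_mul, mul_comm, pow_mul]; norm_num
      have h7 := (Nat.pow_le_pow_iff_left (by norm_num)).1 h6
      exact_mod_cast h7
    set P : ℝ := (4 : ℝ) ^ (q ^ 4) with hP
    have hPpos : 0 < P := by positivity
    -- conclude
    have h8 : (n : ℝ) * P * (((Bad1 r0 q (2 * q ^ 4)).card : ℝ) * q) ≤ n * P * (8 * W) := by
      have h9 : (Sh : ℝ) * 2 ^ n * P * q ≤ 4 * W * (n * P) := by
        have h10 : (q : ℝ) ^ 9 ≤ n := by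
          refine le_trans ?_ hqnR
          exact pow_le_pow_right₀ (by exact_mod_cast hq1) (by norm_num)
        calc (Sh : ℝ) * 2 ^ n * P * q ≤ (4 * (q : ℝ) ^ 8 * T) * 2 ^ n * P * q := by gcongr
          _ = 4 * W * P * (q : ℝ) ^ 9 := by rw [hW]; ring
          _ ≤ 4 * W * P * n := by gcongr
          _ = _ := by ring
      have h11 : (n : ℝ) * T * ((4 * q) * (Nat.centralBinom (q ^ 4) : ℝ) * 2 ^ n) * q ≤
          4 * W * (n * P) := by
        calc (n : ℝ) * T * ((4 * q) * (Nat.centralBinom (q ^ 4) : ℝ) * 2 ^ n) * q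
            = 4 * W * n * ((Nat.centralBinom (q ^ 4) : ℝ) * (q : ℝ) ^ 2) := by rw [hW]; ring
          _ ≤ 4 * W * n * P := by gcongr
          _ = _ := by ring
      calc (n : ℝ) * P * (((Bad1 r0 q (2 * q ^ 4)).card : ℝ) * q)
          = ((n : ℝ) * ((Bad1 r0 q (2 * q ^ 4)).card : ℝ)) * P * q := by ring
        _ ≤ ((Sh : ℝ) * 2 ^ n * P +
            n * T * ((4 * q) * (Nat.centralBinom (q ^ 4) : ℝ) * 2 ^ n)) * q := by gcongr
        _ = (Sh : ℝ) * 2 ^ n * P * q +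
            n * T * ((4 * q) * (Nat.centralBinom (q ^ 4) : ℝ) * 2 ^ n) * q := by ring
        _ ≤ 4 * W * (n * P) + 4 * W * (n * P) := add_le_add h9 h11
        _ = _ := by ring
    exact le_of_mul_le_mul_left h8 (by positivity)
  -- Bad2
  have hbad2 : ((Bad2 (Fin n) q).card : ℝ) * q ≤ K * 2 ^ 30 * W := by
    set R : ℝ := K * ((n : ℝ) ^ (n - 2 * q) * (2 ^ (n - 2 * q) * 4 ^ q)) / (q : ℝ) ^ 31 with hR
    have hRpos : 0 ≤ R := by positivity
    have hB : ∀ (v : ℕ → Fin n) [Fintype (FreeV v q)],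
        (∀ i < 2 * q, ∀ k < 2 * q, v i = v k → i = k) →
        NN hardLimb.S (FreeV v q) (Fin q) (Fin q) 0 ≤ ⌊R⌋₊ := by
      intro v _ hv
      apply Nat.le_floor
      have hc := card_FreeV hv
      rw [Fintype.card_fin] at hc
      have h1 := hNN (FreeV v q) (Fin q) (Fin q) n
        (by rw [Fintype.card_fin]; omega) (by omega) (by omega) (by omega) hn0
        (by rw [Fintype.card_fin]; omega)
      rw [Fintype.card_fin] at h1
      have hu : Fintype.card (FreeV v q) = n - 2 * q := by omega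
      rw [hu] at h1
      rw [hR, le_div_iff₀ (by positivity)]
      exact h1
    have h1 := card_Bad2 hardLimb.S (V := Fin n) hB
    rw [Fintype.card_fin] at h1
    have h2 : ((Bad2 (Fin n) q).card : ℝ) ≤ (n : ℝ) ^ (2 * q + 1) * R := by
      have h3 : ((Bad2 (Fin n) q).card : ℝ) ≤ (n : ℝ) ^ (2 * q + 1) * (⌊R⌋₊ : ℝ) := by
        have h4 : (Bad2 (Fin n) q).card ≤ n ^ (2 * q + 1) * ⌊R⌋₊ := by
          refine le_trans (le_of_eq ?_) h1
          unfold Bad2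
          congr!
        exact_mod_cast h4
      refine h3.trans ?_
      gcongr
      exact Nat.floor_le hRpos
    have hu2 : (n : ℝ) ^ (2 * q + 1) * (n : ℝ) ^ (n - 2 * q) = (n : ℝ) ^ 2 * (n : ℝ) ^ (n - 1) := by
      rw [← pow_add, ← pow_add]
      congr 1
      omega
    have hu3 : (2 : ℝ) ^ (n - 2 * q) * 4 ^ q = 2 ^ n := by
      have : (4 : ℝ) ^ q = 2 ^ (2 * q) := by rw [pow_mul]; norm_num
      rw [this, ← pow_add]
      congr 1
      omega
    have h5 : (n : ℝ) ^ (2 * q + 1) * R = K * (n : ℝ) ^ 3 * W / (q : ℝ) ^ 31 := by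
      rw [hR, hu3, hW]
      calc (n : ℝ) ^ (2 * q + 1) * (K * ((n : ℝ) ^ (n - 2 * q) * 2 ^ n) / (q : ℝ) ^ 31)
          = K * ((n : ℝ) ^ (2 * q + 1) * (n : ℝ) ^ (n - 2 * q)) * 2 ^ n / (q : ℝ) ^ 31 := by ring
        _ = K * ((n : ℝ) ^ 2 * (n * T)) * 2 ^ n / (q : ℝ) ^ 31 := by rw [hu2, hnT]
        _ = _ := by ring
    have h6 : (n : ℝ) ^ 3 ≤ 2 ^ 30 * (q : ℝ) ^ 30 := by
      calc (n : ℝ) ^ 3 ≤ ((2 * (q : ℝ)) ^ 10) ^ 3 := by gcongr
        _ = _ := by ring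
    calc ((Bad2 (Fin n) q).card : ℝ) * q ≤ (K * (n : ℝ) ^ 3 * W / (q : ℝ) ^ 31) * q := by
          rw [← h5]; gcongr
      _ ≤ (K * (2 ^ 30 * (q : ℝ) ^ 30) * W / (q : ℝ) ^ 31) * q := by gcongr
      _ = K * 2 ^ 30 * W := by field_simp
  have hup := bad_upper r0 (J := q) (by omega) (2 * q ^ 4)
  have hupR : ((univ.filter (fun E : Fin n → Fin n → Bool => OTree E ∧ HasSig E)).card : ℝ) ≤
      ((Bad1 r0 q (2 * q ^ 4)).card : ℝ) + ((Bad2 (Fin n) q).card : ℝ) := by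
    exact_mod_cast hup
  calc ((univ.filter (fun E : Fin n → Fin n → Bool => OTree E ∧ HasSig E)).card : ℝ) * q
      ≤ (((Bad1 r0 q (2 * q ^ 4)).card : ℝ) + ((Bad2 (Fin n) q).card : ℝ)) * q := by gcongr
    _ = ((Bad1 r0 q (2 * q ^ 4)).card : ℝ) * q + ((Bad2 (Fin n) q).card : ℝ) * q := by ring
    _ ≤ 8 * W + K * 2 ^ 30 * W := add_le_add hbad1 hbad2
    _ = (8 + K * 2 ^ 30) * W := by ring
    _ ≤ (8 + K * 2 ^ 30) *
        (2 * ((univ.filter (fun E : Fin n → Fin n → Bool => OTree E)).card : ℝ)) := by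
        gcongr
    _ = _ := by ring

end Pool.Agent.W957
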