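import Pool.Agent.W957.Local

set_option autoImplicit false
set_option maxRecDepth 100000

namespace Pool.Agent.W957

/-! A concrete limb with 49 vertices at which no Siggers polymorphism fixes the centre. -/

def hlPar : List ℕ :=
  [0, 1, 2, 3, 4, 5, 6, 7, 0, 9, 10, 11, 12, 13, 14, 15, 16, 17, 18, 19, 20, 21, 22, 23, 14, 25,
    26, 27, 28, 29, 30, 31, 32, 33, 9, 35, 36, 37, 38, 39, 40, 41, 42, 43, 44, 45, 46, 47, 48]

def hlBit : List Bool :=
  [true, true, true, true, true, false, true, true, true, true, false, true, true, true, true,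
    true, false, false, false, true, false, false, false, false, false, true, true, true,
    false, false, false, false, false, false, true, true, false, true, true, true, true, false,
    false, true, false, false, false, false, false]

def hlArcs : List (ℕ × ℕ) :=
  [(1, 0), (2, 1), (3, 2), (4, 3), (5, 4), (5, 6), (7, 6), (8, 7), (9, 0), (10, 9), (10, 11),
    (12, 11), (13, 12), (14, 13), (15, 14), (16, 15), (16, 17), (17, 18), (18, 19), (20, 19),
    (20, 21), (21, 22), (22, 23), (23, 24), (14, 25), (26, 25), (27, 26), (28, 27), (28, 29),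
    (29, 30), (30, 31), (31, 32), (32, 33), (33, 34), (35, 9), (36, 35), (36, 37), (38, 37),
    (39, 38), (40, 39), (41, 40), (41, 42), (42, 43), (44, 43), (44, 45), (45, 46), (46, 47),
    (47, 48), (48, 49)]

def hlP1 : List Bool :=
  [false, false, true]

def hlQ1 : List (ℕ × ℕ × ℕ × ℕ) :=
  [(1, 9, 9, 1), (2, 10, 10, 2), (1, 9, 11, 1)]

def hlP2 : List Bool :=
  [false, false, true, false, false, false, true, false, false, true, true, false, true, true,
    false, true, true, true, true, false, false, true, false, false, false, true, false, false,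
    true, false, false, true, true, true, false, true, true, false, true, true, true, false,
    false, false, false, true, false, false, true, false, false, true, true, false, true, true,
    true, true, false, true, false, false, true, false, false, false, true, false, false, true,
    true, false, true, true, true, true, true, false, false, false, false, false, true, false,
    false, true, true, false, true, true, false, true, true, false, true, true]

def hlQ2 : List (ℕ × ℕ × ℕ × ℕ) :=
  [(2, 35, 12, 2), (3, 36, 13, 3), (2, 37, 12, 2), (3, 38, 13, 3), (4, 39, 14, 4), (5, 40, 15,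
    5), (6, 39, 14, 6), (7, 40, 15, 7), (8, 41, 16, 8), (7, 42, 17, 7), (6, 43, 18, 6), (5, 44,
    17, 5), (4, 45, 18, 4), (3, 46, 19, 3), (4, 45, 20, 4), (3, 46, 21, 3), (2, 47, 22, 2), (1,
    48, 23, 1), (0, 49, 24, 0), (9, 48, 23, 9), (10, 47, 22, 10), (11, 48, 23, 11), (12, 47,
    22, 12), (13, 46, 21, 13), (14, 45, 20, 14), (13, 46, 19, 25), (14, 45, 18, 26), (15, 44,
    17, 27), (14, 43, 18, 26), (15, 42, 17, 27), (16, 41, 16, 28), (17, 40, 17, 29), (18, 39,
    18, 30), (19, 38, 19, 31), (20, 39, 20, 30), (21, 38, 21, 31), (22, 37, 22, 32), (21, 36,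
    21, 31), (22, 35, 22, 32), (23, 9, 23, 33), (24, 0, 24, 34), (23, 1, 23, 33), (22, 2, 22,
    32), (21, 3, 21, 31), (20, 4, 20, 30), (19, 3, 19, 31), (18, 4, 18, 30), (17, 5, 17, 29),
    (18, 6, 18, 30), (17, 7, 17, 29), (16, 8, 16, 28), (15, 7, 15, 29), (14, 6, 14, 30), (15,
    5, 15, 29), (14, 4, 14, 30), (13, 3, 13, 31), (12, 2, 12, 32), (11, 1, 11, 33), (10, 2, 10,
    32), (9, 1, 9, 33), (35, 2, 35, 32), (36, 3, 36, 31), (37, 2, 37, 32), (38, 3, 38, 31),
    (39, 4, 39, 30), (40, 5, 40, 29), (39, 6, 39, 30), (40, 7, 40, 29), (41, 8, 41, 28), (42,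
    7, 42, 29), (43, 6, 43, 30), (44, 5, 44, 29), (45, 4, 45, 30), (46, 3, 46, 31), (47, 2, 47,
    32), (48, 1, 48, 33), (49, 0, 49, 34), (48, 1, 48, 33), (47, 2, 47, 32), (46, 3, 46, 31),
    (45, 4, 45, 30), (44, 5, 44, 29), (43, 6, 43, 30), (42, 7, 42, 29), (41, 8, 41, 28), (40,
    7, 40, 27), (39, 6, 39, 26), (40, 5, 40, 27), (39, 4, 39, 26), (38, 3, 38, 25), (39, 4, 39,
    14), (38, 3, 38, 13), (37, 2, 37, 12), (36, 3, 36, 13), (35, 2, 35, 12), (9, 1, 9, 11)]

def hlS : Limb where
  m := 49
  p a := match hlPar.getD a.1 0 with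
    | 0 => none
    | b + 1 => if h : b < 49 then some ⟨b, h⟩ else none
  bit a := hlBit.getD a.1 true
  hp := by decide +kernel

def hlCert : Cert (outOf hlArcs) (inOf hlArcs) (hlS.m + 1) where
  P1 := hlP1
  Q1 := hlQ1
  P2 := hlP2
  Q2 := hlQ2
  a := 1
  r := 9
  e := 11
  D := [1, 11, 9]
  h1 := by decide +kernel
  h2 := by decide +kernel
  h3 := by decide +kernel
  h4 := by
    intro v hv
    have hall : ∀ v ∈ ([1, 11, 9] : List ℕ), (runSet (outOf hlArcs) (inOf hlArcs) hlP2 [v]).isSome = true ∧
        v ∉ (runSet (outOf hlArcs) (inOf hlArcs) hlP2 [v]).getD [] := by decide +kernel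
    obtain ⟨h1, h2⟩ := hall v hv
    obtain ⟨S, hS⟩ := Option.isSome_iff_exists.1 h1
    refine ⟨S, hS, ?_⟩
    rw [hS] at h2
    exact h2

def hardLimb : HardLimb where
  S := hlS
  arcs := hlArcs
  hA := by decide +kernel
  hB := by decide +kernel
  hC := by decide +kernel
  cert := hlCert

end Pool.Agent.W957
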