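import Pool.Agent.W957.Trees

set_option autoImplicit false

namespace Pool.Agent.W957

open Finset

variable (S : Limb)

lemma NN_le_total (U I X : Type) [Fintype U] [Fintype I] [Fintype X] (k : ℕ) :
    NN S U I X k ≤ (Fintype.card U + (Fintype.card I + Fintype.card X)) ^ Fintype.card U *
      (2 ^ Fintype.card U * 4 ^ Fintype.card I) := by
  classical
  have h1 : NN S U I X k ≤ Fintype.card (Conf U I X) := by
    unfold NN
    exact Finset.card_le_univ _
  refine h1.trans (le_of_eq ?_)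
  rw [Fintype.card_prod, Fintype.card_prod, Fintype.card_fun, Fintype.card_fun, Fintype.card_fun,
    Fintype.card_sum, Fintype.card_sum, Fintype.card_prod, Fintype.card_bool]

lemma NN_iter (U I X : Type) [Fintype U] [Fintype I] [Fintype X] (t : ℕ) :
    Fintype.card I ^ (t + 1) * (Fintype.card U).choose S.m ^ (t + 1) * NN S U I X 0 ≤
      (t + 1).factorial * NN S (Fin (Fintype.card U + (t + 1) * S.m))
        (Fin (Fintype.card I + (t + 1))) X (t + 1) := by
  induction t with
  | zero =>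
    have h := NN_step (S := S) (U := U) (U' := Fin (Fintype.card U + (0 + 1) * S.m)) (I := I)
      (I' := Fin (Fintype.card I + (0 + 1))) (X := X) (by simp) (by simp) 0
    rw [Fintype.card_fin, Fintype.card_fin] at h
    have h2 : (Fintype.card U).choose S.m ≤ (Fintype.card U + (0 + 1) * S.m).choose S.m :=
      Nat.choose_le_choose _ (by omega)
    calc Fintype.card I ^ (0 + 1) * (Fintype.card U).choose S.m ^ (0 + 1) * NN S U I X 0
        ≤ (Fintype.card I + (0 + 1)) * (Fintype.card U + (0 + 1) * S.m).choose S.m *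
          NN S U I X 0 := by
          rw [zero_add, pow_one, pow_one]
          rw [zero_add] at h2
          gcongr
          omega
      _ ≤ _ := h
      _ = _ := by simp
  | succ t ih =>
    have h := NN_step (S := S) (U := Fin (Fintype.card U + (t + 1) * S.m))
      (U' := Fin (Fintype.card U + (t + 1 + 1) * S.m)) (I := Fin (Fintype.card I + (t + 1)))
      (I' := Fin (Fintype.card I + (t + 1 + 1))) (X := X) (by simp; ring) (by simp; ring) (t + 1)
    rw [Fintype.card_fin, Fintype.card_fin] at h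
    have h2 : (Fintype.card U).choose S.m ≤ (Fintype.card U + (t + 1 + 1) * S.m).choose S.m :=
      Nat.choose_le_choose _ (by omega)
    set A := NN S U I X 0
    set B := NN S (Fin (Fintype.card U + (t + 1) * S.m)) (Fin (Fintype.card I + (t + 1))) X (t + 1)
    set C := NN S (Fin (Fintype.card U + (t + 1 + 1) * S.m)) (Fin (Fintype.card I + (t + 1 + 1))) X
      (t + 1 + 1)
    calc Fintype.card I ^ (t + 1 + 1) * (Fintype.card U).choose S.m ^ (t + 1 + 1) * A
        = Fintype.card I * (Fintype.card U).choose S.m *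
          (Fintype.card I ^ (t + 1) * (Fintype.card U).choose S.m ^ (t + 1) * A) := by ring
      _ ≤ Fintype.card I * (Fintype.card U).choose S.m * ((t + 1).factorial * B) := by gcongr
      _ = (t + 1).factorial * (Fintype.card I * (Fintype.card U).choose S.m * B) := by ring
      _ ≤ (t + 1).factorial * ((Fintype.card I + (t + 1 + 1)) *
          (Fintype.card U + (t + 1 + 1) * S.m).choose S.m * B) := by
          gcongr
          omega
      _ ≤ (t + 1).factorial * ((t + 1 + 1) * C) := by gcongr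
      _ = (t + 1 + 1).factorial * C := by rw [Nat.factorial_succ (t + 1)]; ring

/-- the real bound for the number of configurations without good centre -/
theorem NN_bound (t : ℕ) : ∃ K : ℝ, 0 < K ∧ ∀ (U I X : Type) [Fintype U] [Fintype I] [Fintype X]
    (n : ℕ), Fintype.card U + (Fintype.card I + Fintype.card X) = n → n ≤ 2 * Fintype.card U →
    4 * S.m ≤ n → (t + 1) * (S.m + 1) ≤ n → 0 < n → 0 < Fintype.card I →
    (NN S U I X 0 : ℝ) * (Fintype.card I : ℝ) ^ (t + 1) ≤
      K * ((n : ℝ) ^ Fintype.card U * (2 ^ Fintype.card U * 4 ^ Fintype.card I)) := by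
  refine ⟨(t + 1).factorial * (Real.exp ((t + 1) * (S.m + 1)) * 2 ^ ((t + 1) * S.m)) *
      2 ^ ((t + 1) * S.m) * 4 ^ (t + 1) * ((S.m.factorial : ℝ) ^ (t + 1) * 4 ^ ((t + 1) * S.m)),
      by positivity, ?_⟩
  intro U I X _ _ _ n hn hU hm hw hnpos hI
  set u := Fintype.card U
  set j := Fintype.card I
  set A : ℝ := (NN S U I X 0 : ℝ) with hA
  have hnR : (0 : ℝ) < n := by exact_mod_cast hnpos
  have h1 := NN_iter S U I X t
  have h2 := NN_le_total S (Fin (u + (t + 1) * S.m)) (Fin (j + (t + 1))) X (t + 1)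
  rw [Fintype.card_fin, Fintype.card_fin] at h2
  have h3 : u + (t + 1) * S.m + (j + (t + 1) + Fintype.card X) = n + (t + 1) * (S.m + 1) := by
    rw [← hn]; ring
  rw [h3] at h2
  have h4 : (j : ℝ) ^ (t + 1) * ((u.choose S.m : ℕ) : ℝ) ^ (t + 1) * A ≤
      (t + 1).factorial * (((n + (t + 1) * (S.m + 1) : ℕ) : ℝ) ^ (u + (t + 1) * S.m) *
        (2 ^ (u + (t + 1) * S.m) * 4 ^ (j + (t + 1)))) := by
    have := h1.trans (Nat.mul_le_mul_left _ h2)
    rw [hA]
    exact_mod_cast this
  -- lower bound on the binomial coefficient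
  have h5 : ((n : ℝ) / 4) ^ S.m ≤ S.m.factorial * ((u.choose S.m : ℕ) : ℝ) := by
    have h6 := Nat.pow_le_choose (α := ℝ) S.m u
    have h7 : ((n : ℝ) / 4) ≤ ((u + 1 - S.m : ℕ) : ℝ) := by
      have h8 : n ≤ 4 * (u + 1 - S.m) := by omega
      have h9 : (n : ℝ) ≤ 4 * ((u + 1 - S.m : ℕ) : ℝ) := by exact_mod_cast h8
      linarith
    have h8 : ((n : ℝ) / 4) ^ S.m ≤ ((u + 1 - S.m : ℕ) : ℝ) ^ S.m :=
      pow_le_pow_left₀ (by positivity) h7 _
    have h9 : (0 : ℝ) < S.m.factorial := by exact_mod_cast Nat.factorial_pos _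
    calc ((n : ℝ) / 4) ^ S.m ≤ ((u + 1 - S.m : ℕ) : ℝ) ^ S.m := h8
      _ ≤ _ := by
        rw [div_le_iff₀ h9] at h6
        linarith
  have h6 : ((n : ℝ) / 4) ^ ((t + 1) * S.m) ≤
      (S.m.factorial : ℝ) ^ (t + 1) * ((u.choose S.m : ℕ) : ℝ) ^ (t + 1) := by
    have := pow_le_pow_left₀ (by positivity) h5 (t + 1)
    rw [mul_pow, ← pow_mul, mul_comm S.m (t + 1)] at this
    exact this
  -- upper bound on the power
  have hw1 : (((n + (t + 1) * (S.m + 1) : ℕ) : ℝ)) ^ u ≤
      (n : ℝ) ^ u * Real.exp ((t + 1) * (S.m + 1)) := by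
    have hw2 : (((n + (t + 1) * (S.m + 1) : ℕ) : ℝ)) =
        n * (((t + 1) * (S.m + 1) : ℝ) / n + 1) := by
      push_cast
      field_simp
      ring
    rw [hw2, mul_pow]
    apply mul_le_mul_of_nonneg_left _ (by positivity)
    calc (((t + 1) * (S.m + 1) : ℝ) / n + 1) ^ u
        ≤ (Real.exp (((t + 1) * (S.m + 1) : ℝ) / n)) ^ u :=
          pow_le_pow_left₀ (by positivity) (Real.add_one_le_exp _) _
      _ = Real.exp (u * (((t + 1) * (S.m + 1) : ℝ) / n)) := by rw [← Real.exp_nat_mul]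
      _ ≤ Real.exp ((t + 1) * (S.m + 1)) := by
          apply Real.exp_le_exp.2
          have h7 : (u : ℝ) ≤ n := by
            have : u ≤ n := by omega
            exact_mod_cast this
          calc (u : ℝ) * (((t + 1) * (S.m + 1) : ℝ) / n)
              ≤ n * (((t + 1) * (S.m + 1) : ℝ) / n) :=
                mul_le_mul_of_nonneg_right h7 (by positivity)
            _ = _ := by field_simp
  have hw3 : (((n + (t + 1) * (S.m + 1) : ℕ) : ℝ)) ^ ((t + 1) * S.m) ≤
      (2 : ℝ) ^ ((t + 1) * S.m) * (n : ℝ) ^ ((t + 1) * S.m) := by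
    rw [← mul_pow]
    apply pow_le_pow_left₀ (by positivity)
    have : n + (t + 1) * (S.m + 1) ≤ 2 * n := by omega
    exact_mod_cast this
  set C : ℝ := ((u.choose S.m : ℕ) : ℝ) ^ (t + 1) with hC
  set W : ℝ := (((n + (t + 1) * (S.m + 1) : ℕ) : ℝ)) with hW
  set P : ℝ := ((n : ℝ)) ^ ((t + 1) * S.m) with hP
  have hPpos : 0 < P := by positivity
  have hApos : 0 ≤ A := by positivity
  have h7 : P ≤ (S.m.factorial : ℝ) ^ (t + 1) * 4 ^ ((t + 1) * S.m) * C := by
    rw [div_pow, div_le_iff₀ (by positivity)] at h6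
    calc P ≤ _ := h6
      _ = _ := by ring
  have h8 : W ^ (u + (t + 1) * S.m) ≤ ((n : ℝ) ^ u * Real.exp ((t + 1) * (S.m + 1))) *
      ((2 : ℝ) ^ ((t + 1) * S.m) * P) := by
    rw [pow_add]
    exact mul_le_mul hw1 hw3 (by positivity) (by positivity)
  -- combine: multiply by P
  have h9 : P * (A * (j : ℝ) ^ (t + 1)) ≤ P * (((t + 1).factorial * (Real.exp ((t + 1) * (S.m + 1)) *
      2 ^ ((t + 1) * S.m)) * 2 ^ ((t + 1) * S.m) * 4 ^ (t + 1) *
      ((S.m.factorial : ℝ) ^ (t + 1) * 4 ^ ((t + 1) * S.m))) *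
      ((n : ℝ) ^ u * (2 ^ u * 4 ^ j))) := by
    calc P * (A * (j : ℝ) ^ (t + 1))
        ≤ ((S.m.factorial : ℝ) ^ (t + 1) * 4 ^ ((t + 1) * S.m) * C) * (A * (j : ℝ) ^ (t + 1)) :=
          mul_le_mul_of_nonneg_right h7 (by positivity)
      _ = ((S.m.factorial : ℝ) ^ (t + 1) * 4 ^ ((t + 1) * S.m)) * ((j : ℝ) ^ (t + 1) * C * A) := by
          ring
      _ ≤ ((S.m.factorial : ℝ) ^ (t + 1) * 4 ^ ((t + 1) * S.m)) * ((t + 1).factorial *
          (W ^ (u + (t + 1) * S.m) * (2 ^ (u + (t + 1) * S.m) * 4 ^ (j + (t + 1))))) :=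
          mul_le_mul_of_nonneg_left h4 (by positivity)
      _ ≤ ((S.m.factorial : ℝ) ^ (t + 1) * 4 ^ ((t + 1) * S.m)) * ((t + 1).factorial *
          ((((n : ℝ) ^ u * Real.exp ((t + 1) * (S.m + 1))) * ((2 : ℝ) ^ ((t + 1) * S.m) * P)) *
          (2 ^ (u + (t + 1) * S.m) * 4 ^ (j + (t + 1))))) := by
          gcongr
      _ = _ := by
          rw [pow_add 2 u, pow_add 4 j]
          ring
  exact le_of_mul_le_mul_left h9 hPpos

section
variable {V : Type} [Fintype V] [DecidableEq V] {r0 : V}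

/-- the chain of a finite sequence of vertices -/
def chainOf {J : ℕ} (w : Fin (2 * J + 1) → V) : ℕ → V :=
  fun i => if h : i < 2 * J + 1 then w ⟨i, h⟩ else w ⟨0, by omega⟩

/-- the bad event along a fixed chain -/
def BadAt (J : ℕ) (w : Fin (2 * J + 1) → V) (q : (V → V) × (V → Bool)) : Prop :=
  (∀ i < 2 * J, q.1 (chainOf w i) = chainOf w (i + 1)) ∧
  (∀ i < 2 * J, ∀ k < 2 * J, chainOf w i = chainOf w k → i = k) ∧
  ∀ τ : V → FreeV (chainOf w) J ⊕ (Fin J ⊕ Fin J), (∀ y, untgt _ _ (τ y) = y) →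
    (∀ z, τ (untgt _ _ z) = z) → ∀ j, ¬ Good S (confOf (chainOf w) J τ q.1 q.2) j

lemma card_FreeV {v : ℕ → V} {J : ℕ} (hv : ∀ i < 2 * J, ∀ k < 2 * J, v i = v k → i = k)
    [Fintype (FreeV v J)] : Fintype.card (FreeV v J) + 2 * J = Fintype.card V := by
  have h := Fintype.card_of_bijective (untgt_bij hv)
  rw [Fintype.card_sum, Fintype.card_sum, Fintype.card_fin] at h
  omega

open Classical in
theorem card_BadAt {J : ℕ} {B : ℕ} (hB : ∀ (v : ℕ → V) [Fintype (FreeV v J)],
      (∀ i < 2 * J, ∀ k < 2 * J, v i = v k → i = k) →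
      NN S (FreeV v J) (Fin J) (Fin J) 0 ≤ B) (w : Fin (2 * J + 1) → V) :
    (univ.filter (fun q : (V → V) × (V → Bool) => BadAt S J w q)).card ≤ B := by
  by_cases hinj : ∀ i < 2 * J, ∀ k < 2 * J, chainOf w i = chainOf w k → i = k
  swap
  · rw [Finset.filter_eq_empty_iff.2]
    · simp
    · intro q _ hq
      exact hinj hq.2.1
  · refine le_trans ?_ (hB (chainOf w) hinj)
    set Θ := Equiv.ofBijective _ (untgt_bij hinj) with hΘ
    have hΘa : ∀ z, Θ z = untgt (chainOf w) J z := fun z => rfl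
    have h1 : ∀ y, untgt (chainOf w) J (Θ.symm y) = y := fun y => by
      rw [← hΘa, Equiv.apply_symm_apply]
    have h2 : ∀ z, Θ.symm (untgt (chainOf w) J z) = z := fun z => by
      rw [← hΘa, Equiv.symm_apply_apply]
    unfold NN
    refine Finset.card_le_card_of_injOn
      (fun q => confOf (chainOf w) J Θ.symm q.1 q.2) ?_ ?_
    · intro q hq
      have hq := (Finset.mem_filter.1 hq).2
      simp only [coe_filter, mem_univ, true_and, Set.mem_ofPred_eq]
      rw [Finset.card_eq_zero, Finset.filter_eq_empty_iff]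
      intro j _
      exact hq.2.2 _ h1 h2 j
    · rintro ⟨f, o⟩ hq ⟨f', o'⟩ hq' h
      have hq := (Finset.mem_filter.1 hq).2
      have hq' := (Finset.mem_filter.1 hq').2
      unfold confOf at h
      simp only [Prod.mk.injEq] at h
      obtain ⟨h3, h4, h5⟩ := h
      have hff : f = f' := by
        funext y
        obtain ⟨z, rfl⟩ := Θ.surjective y
        by_cases hU : ∀ i < 2 * J, Θ z ≠ chainOf w i
        · have := congrFun h3 ⟨Θ z, hU⟩
          exact Θ.symm.injective this
        · push Not at hU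
          obtain ⟨i, hi, hzi⟩ := hU
          rw [hzi]
          exact (hq.1 i hi).trans (hq'.1 i hi).symm
      have hoo : o = o' := by
        funext y
        obtain ⟨z, rfl⟩ := Θ.surjective y
        rcases z with u | j | j
        · exact congrFun h4 u
        · exact congrArg Prod.snd (congrFun h5 j)
        · exact congrArg Prod.fst (congrFun h5 j)
      rw [hff, hoo]

open Classical in
theorem card_Bad2 {J : ℕ} {B : ℕ} (hB : ∀ (v : ℕ → V) [Fintype (FreeV v J)],
      (∀ i < 2 * J, ∀ k < 2 * J, v i = v k → i = k) →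
      NN S (FreeV v J) (Fin J) (Fin J) 0 ≤ B) :
    (univ.filter (fun q : (V → V) × (V → Bool) => ∃ w, BadAt S J w q)).card ≤
      Fintype.card V ^ (2 * J + 1) * B := by
  have h1 : (univ.filter (fun q : (V → V) × (V → Bool) => ∃ w, BadAt S J w q)) ⊆
      (univ : Finset (Fin (2 * J + 1) → V)).biUnion
        (fun w => univ.filter (fun q : (V → V) × (V → Bool) => BadAt S J w q)) := by
    intro q hq
    obtain ⟨w, hw⟩ := (Finset.mem_filter.1 hq).2
    exact Finset.mem_biUnion.2 ⟨w, Finset.mem_univ _, Finset.mem_filter.2 ⟨Finset.mem_univ _, hw⟩⟩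
  refine (Finset.card_le_card h1).trans ?_
  refine (Finset.card_biUnion_le_card_mul _ _ B (fun w _ => card_BadAt S hB w)).trans ?_
  rw [Finset.card_univ, Fintype.card_fun, Fintype.card_fin]

end

end Pool.Agent.W957
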