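import Pool.Agent.W957.Count

set_option autoImplicit false

namespace Pool.Agent.W957

open Finset

section
variable {V : Type} [Fintype V] [DecidableEq V] {r0 : V}

open Classical in
/-- pairs (vertex, forest function) with the vertex at depth exactly `k` -/
noncomputable def DP (r0 : V) (k : ℕ) : Finset (V × (V → V)) :=
  univ.filter (fun q => IsF {r0} q.2 ∧ q.2^[k] q.1 = r0 ∧ ∀ i < k, q.2^[i] q.1 ≠ r0)

open Classical in
theorem card_DP (r0 : V) (k : ℕ) :
    Fintype.card V * (DP r0 k).card ≤ (k + 1) * Fintype.card V ^ (Fintype.card V - 1) := by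
  set n := Fintype.card V with hn
  -- target
  set T : Finset (Σ _ : Fin k → V, V → V) := (univ : Finset (Fin k → V)).sigma
    (fun w => if (insert r0 (univ.image w)).card = k + 1 then FF (insert r0 (univ.image w)) else ∅)
    with hT
  have h1 : (DP r0 k).card ≤ T.card := by
    refine Finset.card_le_card_of_injOn
      (fun q => ⟨fun i : Fin k => q.2^[i.1] q.1,
        fun y => if y ∈ univ.image (fun i : Fin k => q.2^[i.1] q.1) then y else q.2 y⟩) ?_ ?_
    · rintro ⟨a, f⟩ hq
      obtain ⟨hf, h2, h3⟩ := (Finset.mem_filter.1 hq).2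
      simp only at hf h2 h3
      simp only [hT, coe_sigma, Set.mem_sigma_iff, coe_univ, Set.mem_univ, true_and]
      have hcard : (insert r0 (univ.image (fun i : Fin k => f^[i.1] a))).card = k + 1 := by
        rw [Finset.card_insert_of_notMem, Finset.card_image_of_injective, Finset.card_univ,
          Fintype.card_fin]
        · intro i j hij
          exact Fin.ext (chain_inj hf h3 i.2.le j.2.le hij)
        · intro h4
          obtain ⟨i, _, hi⟩ := Finset.mem_image.1 h4
          exact h3 i.1 i.2 hi
      rw [if_pos hcard]
      refine mem_FF.2 ⟨?_, ?_⟩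
      · intro r hr
        rcases Finset.mem_insert.1 hr with rfl | hr
        · beta_reduce
          split_ifs
          · rfl
          · exact hf.1 _ (Finset.mem_singleton_self _)
        · beta_reduce
          rw [if_pos hr]
      · intro y
        refine tree_induction hf (P := fun y => ∃ k', (fun y =>
          if y ∈ univ.image (fun i : Fin k => f^[i.1] a) then y else f y)^[k'] y ∈
          insert r0 (univ.image (fun i : Fin k => f^[i.1] a)))
          ⟨0, Finset.mem_insert_self _ _⟩ ?_ y
        rintro z hz ⟨k', hk'⟩
        by_cases hz2 : z ∈ univ.image (fun i : Fin k => f^[i.1] a)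
        · exact ⟨0, Finset.mem_insert_of_mem hz2⟩
        · refine ⟨k' + 1, ?_⟩
          rw [Function.iterate_succ_apply]
          simp only [hz2, if_false]
          exact hk'
    · rintro ⟨a, f⟩ hq ⟨a', f'⟩ hq' h
      obtain ⟨hf, h2, h3⟩ := (Finset.mem_filter.1 hq).2
      obtain ⟨hf', h2', h3'⟩ := (Finset.mem_filter.1 hq').2
      simp only at hf h2 h3 hf' h2' h3'
      simp only [Sigma.mk.injEq, heq_eq_eq] at h
      obtain ⟨h4, h5⟩ := h
      have hch : ∀ i ≤ k, f^[i] a = f'^[i] a' := by
        intro i hi
        rcases Nat.lt_or_ge i k with hik | hik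
        · exact congrFun h4 ⟨i, hik⟩
        · have : i = k := by omega
          rw [this, h2, h2']
      have ha : a = a' := hch 0 (Nat.zero_le _)
      have hff : f = f' := by
        funext y
        by_cases hy : y ∈ univ.image (fun i : Fin k => f^[i.1] a)
        · obtain ⟨i, _, rfl⟩ := Finset.mem_image.1 hy
          have h6 := hch (i.1 + 1) i.2
          rw [Function.iterate_succ_apply', Function.iterate_succ_apply'] at h6
          rw [h6, hch i.1 i.2.le]
        · have h7 := congrFun h5 y
          rw [if_neg hy] at h7
          rw [h7, if_neg]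
          rw [← h4]; exact hy
      rw [ha, hff]
  have h2 : n * T.card ≤ (k + 1) * n ^ (n - 1) := by
    rw [hT, Finset.card_sigma, Finset.mul_sum]
    by_cases hk : k + 1 ≤ n
    · have h3 : ∀ w ∈ (univ : Finset (Fin k → V)), n * (if (insert r0 (univ.image w)).card = k + 1
          then FF (insert r0 (univ.image w)) else ∅).card ≤ (k + 1) * n ^ (n - (k + 1)) := by
        intro w _
        split_ifs with h4
        · rw [card_FF, h4]
        · simp
      refine (Finset.sum_le_sum h3).trans (le_of_eq ?_)
      rw [Finset.sum_const, Finset.card_univ, Fintype.card_fun, Fintype.card_fin, smul_eq_mul]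
      have h5 : n - 1 = k + (n - (k + 1)) := by omega
      rw [h5, pow_add]
      ring
    · have h3 : ∀ w ∈ (univ : Finset (Fin k → V)), n * (if (insert r0 (univ.image w)).card = k + 1
          then FF (insert r0 (univ.image w)) else ∅).card = 0 := by
        intro w _
        rw [if_neg]
        · simp
        · intro h4
          have := Finset.card_le_univ (insert r0 (univ.image w))
          omega
      rw [Finset.sum_eq_zero h3]
      exact Nat.zero_le _
  exact (Nat.mul_le_mul_left _ h1).trans h2

open Classical in
/-- pairs with a vertex of depth less than `D` -/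
theorem card_shallow (r0 : V) (D : ℕ) :
    Fintype.card V * (univ.filter (fun q : V × (V → V) => IsF {r0} q.2 ∧
      ∃ i < D, q.2^[i] q.1 = r0)).card ≤ D ^ 2 * Fintype.card V ^ (Fintype.card V - 1) := by
  have h1 : (univ.filter (fun q : V × (V → V) => IsF {r0} q.2 ∧ ∃ i < D, q.2^[i] q.1 = r0)) ⊆
      (range D).biUnion (fun k => DP r0 k) := by
    intro q hq
    obtain ⟨h2, i, hi, hi2⟩ := (Finset.mem_filter.1 hq).2
    have hex : ∃ i, q.2^[i] q.1 = r0 := ⟨i, hi2⟩
    refine Finset.mem_biUnion.2 ⟨Nat.find hex, ?_, ?_⟩
    · rw [Finset.mem_range]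
      exact lt_of_le_of_lt (Nat.find_min' hex hi2) hi
    · exact Finset.mem_filter.2 ⟨Finset.mem_univ _, h2, Nat.find_spec hex,
        fun i hi => Nat.find_min hex hi⟩
  calc Fintype.card V * _ ≤ Fintype.card V * ((range D).biUnion (fun k => DP r0 k)).card :=
        Nat.mul_le_mul_left _ (Finset.card_le_card h1)
    _ ≤ Fintype.card V * ∑ k ∈ range D, (DP r0 k).card :=
        Nat.mul_le_mul_left _ Finset.card_biUnion_le
    _ = ∑ k ∈ range D, Fintype.card V * (DP r0 k).card := by rw [Finset.mul_sum]
    _ ≤ ∑ k ∈ range D, D * Fintype.card V ^ (Fintype.card V - 1) := by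
        refine Finset.sum_le_sum (fun k hk => (card_DP r0 k).trans ?_)
        have := Finset.mem_range.1 hk
        exact Nat.mul_le_mul_right _ this
    _ = _ := by rw [Finset.sum_const, Finset.card_range, smul_eq_mul]; ring

open Classical in
/-- the number of bit vectors with prescribed restriction to an injective family -/
theorem card_restrict {D : ℕ} {v : Fin D → V} (hv : Function.Injective v)
    (P : (Fin D → Bool) → Prop) :
    (univ.filter (fun o : V → Bool => P (fun i => o (v i)))).card * 2 ^ D =
      (univ.filter (fun x : Fin D → Bool => P x)).card * 2 ^ Fintype.card V := by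
  -- V ≃ Fin D ⊕ W
  let W := {y : V // y ∉ Set.range v}
  let e : Fin D ⊕ W ≃ V :=
    (Equiv.sumCongr (Equiv.ofInjective v hv) (Equiv.refl W)).trans
      (Equiv.sumCompl (fun y => y ∈ Set.range v))
  have he : ∀ i, e (Sum.inl i) = v i := fun i => rfl
  have hcard : Fintype.card V = D + Fintype.card W := by
    rw [← Fintype.card_congr e, Fintype.card_sum, Fintype.card_fin]
  have h1 : (univ.filter (fun o : V → Bool => P (fun i => o (v i)))).card =
      ((univ.filter (fun x : Fin D → Bool => P x)) ×ˢ (univ : Finset (W → Bool))).card := by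
    refine Finset.card_bij' (fun o _ => (fun i => o (v i), fun w => o w.1))
      (fun p _ => fun y => Sum.elim p.1 p.2 (e.symm y)) ?_ ?_ ?_ ?_
    · intro o ho
      simp only [mem_filter, mem_univ, true_and] at ho
      simp only [mem_product, mem_filter, mem_univ, true_and, and_true]
      exact ho
    · rintro ⟨x, y⟩ hp
      simp only [mem_product, mem_filter, mem_univ, true_and, and_true] at hp
      simp only [mem_filter, mem_univ, true_and]
      have : (fun i => Sum.elim x y (e.symm (v i))) = x := by
        funext i
        rw [← he, Equiv.symm_apply_apply]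
        rfl
      rw [this]; exact hp
    · intro o _
      funext y
      obtain ⟨z, rfl⟩ := e.surjective y
      rw [Equiv.symm_apply_apply]
      rcases z with i | w
      · rfl
      · rfl
    · rintro ⟨x, y⟩ _
      refine Prod.ext ?_ ?_
      · funext i
        show Sum.elim x y (e.symm (v i)) = x i
        rw [← he, Equiv.symm_apply_apply]
        rfl
      · funext w
        show Sum.elim x y (e.symm w.1) = y w
        have : e (Sum.inr w) = w.1 := rfl
        rw [← this, Equiv.symm_apply_apply]
        rfl
  rw [h1, Finset.card_product, Finset.card_univ, Fintype.card_fun, Fintype.card_bool, hcard,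
    pow_add]
  ring

end

lemma sum_sgn {D : ℕ} (x : Fin D → Bool) :
    ∑ i, sgn (x i) = 2 * ((univ.filter (fun i => x i = true)).card : ℤ) - D := by
  have h1 : ∀ i, sgn (x i) = 2 * (if x i = true then 1 else 0) - 1 := by
    intro i
    rcases x i with _ | _ <;> rfl
  rw [Finset.sum_congr rfl (fun i _ => h1 i), Finset.sum_sub_distrib, ← Finset.mul_sum]
  simp

lemma card_true {D k : ℕ} :
    (univ.filter (fun x : Fin D → Bool => (univ.filter (fun i => x i = true)).card = k)).card =
      D.choose k := by
  classical
  have h : (powersetCard k (univ : Finset (Fin D))).card = D.choose k := by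
    rw [Finset.card_powersetCard, Finset.card_univ, Fintype.card_fin]
  rw [← h]
  refine Finset.card_bij' (fun x _ => univ.filter (fun i => x i = true))
    (fun A _ => fun i => decide (i ∈ A)) ?_ ?_ ?_ ?_
  · intro x hx
    simp only [mem_filter, mem_univ, true_and] at hx
    rw [Finset.mem_powersetCard]
    exact ⟨Finset.subset_univ _, hx⟩
  · intro A hA
    rw [Finset.mem_powersetCard] at hA
    simp only [mem_filter, mem_univ, true_and, decide_eq_true_eq]
    rw [← hA.2]
    congr 1
    ext i; simp
  · intro x _
    funext i
    simp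
  · intro A _
    ext i; simp

lemma central_bound (d : ℕ) : (Nat.centralBinom d) ^ 2 * (2 * d + 1) ≤ 16 ^ d := by
  induction d with
  | zero => simp
  | succ d ih =>
    have h1 := Nat.succ_mul_centralBinom_succ d
    have h2 : (d + 1) ^ 2 * ((Nat.centralBinom (d + 1)) ^ 2 * (2 * (d + 1) + 1)) ≤
        (d + 1) ^ 2 * 16 ^ (d + 1) := by
      calc (d + 1) ^ 2 * ((Nat.centralBinom (d + 1)) ^ 2 * (2 * (d + 1) + 1))
          = ((d + 1) * Nat.centralBinom (d + 1)) ^ 2 * (2 * d + 3) := by ring
        _ = (2 * (2 * d + 1) * Nat.centralBinom d) ^ 2 * (2 * d + 3) := by rw [h1]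
        _ = (4 * (2 * d + 1) * (2 * d + 3)) * ((Nat.centralBinom d) ^ 2 * (2 * d + 1)) := by ring
        _ ≤ (4 * (2 * d + 1) * (2 * d + 3)) * 16 ^ d := Nat.mul_le_mul_left _ ih
        _ ≤ ((d + 1) ^ 2 * 16) * 16 ^ d := by
            apply Nat.mul_le_mul_right
            nlinarith
        _ = _ := by ring
    exact Nat.le_of_mul_le_mul_left h2 (by positivity)

open Classical in
/-- anti-concentration of a sum of `2d` signs -/
theorem anti_conc (d M : ℕ) :
    (univ.filter (fun x : Fin (2 * d) → Bool => |∑ i, sgn (x i)| < 2 * M)).card ≤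
      (2 * M) * Nat.centralBinom d := by
  have h1 : (univ.filter (fun x : Fin (2 * d) → Bool => |∑ i, sgn (x i)| < 2 * M)) ⊆
      (Finset.Ioo ((d : ℤ) - M) (d + M)).biUnion (fun k => univ.filter
        (fun x : Fin (2 * d) → Bool => (univ.filter (fun i => x i = true)).card = k.toNat)) := by
    intro x hx
    have h2 := (Finset.mem_filter.1 hx).2
    rw [sum_sgn, abs_lt] at h2
    push_cast at h2
    refine Finset.mem_biUnion.2 ⟨((univ.filter (fun i => x i = true)).card : ℤ), ?_, ?_⟩
    · rw [Finset.mem_Ioo]; constructor <;> linarith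
    · simp
  refine (Finset.card_le_card h1).trans ?_
  refine (Finset.card_biUnion_le_card_mul _ _ (Nat.centralBinom d) ?_).trans ?_
  · intro k _
    rw [card_true]
    exact Nat.choose_le_centralBinom _ _
  · apply Nat.mul_le_mul_right
    rw [Int.card_Ioo]
    omega

end Pool.Agent.W957
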