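import Pool.Agent.W957.Forest

set_option autoImplicit false

namespace Pool.Agent.W957

open Finset

variable {V : Type*}

/-- arc relation of the oriented tree given by the parent function `f` and the bits `o` -/
def Ed (f : V → V) (o : V → Bool) (a b : V) : Prop :=
  (b = f a ∧ a ≠ b ∧ o a = true) ∨ (a = f b ∧ a ≠ b ∧ o b = false)

def sgn (b : Bool) : ℤ := if b then 1 else -1

/-- `s` is a polymorphism -/
def Pol (R : V → V → Prop) (s : V → V → V → V → V) : Prop :=
  ∀ x₁ x₂ x₃ x₄ y₁ y₂ y₃ y₄, R x₁ y₁ → R x₂ y₂ → R x₃ y₃ → R x₄ y₄ →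
    R (s x₁ x₂ x₃ x₄) (s y₁ y₂ y₃ y₄)

def Sig (s : V → V → V → V → V) : Prop := ∀ a r e, s a r e a = s r a r e

lemma exists_idem [Finite V] (e : V → V) : ∃ p, 0 < p ∧ ∀ x, e^[p] (e^[p] x) = e^[p] x := by
  obtain ⟨i, j, hne, heq⟩ := Finite.exists_ne_map_eq_of_infinite (α := ℕ) (fun n => e^[n])
  wlog hij : i < j generalizing i j
  · exact this j i hne.symm heq.symm (by omega)
  obtain ⟨d, rfl⟩ : ∃ d, j = i + d := ⟨j - i, by omega⟩
  have hd : 0 < d := by omega
  have h1 : ∀ k, i ≤ k → e^[k + d] = e^[k] := by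
    intro k hk
    obtain ⟨l, rfl⟩ : ∃ l, k = l + i := ⟨k - i, by omega⟩
    have : l + i + d = l + (i + d) := by ring
    rw [this, Function.iterate_add e l (i + d), Function.iterate_add e l i]
    rw [← heq]
  have h2 : ∀ l k, i ≤ k → e^[k + d * l] = e^[k] := by
    intro l
    induction l with
    | zero => intro k _; simp
    | succ l ih =>
      intro k hk
      have : k + d * (l + 1) = (k + d * l) + d := by ring
      rw [this, h1 _ (by omega), ih k hk]
  refine ⟨d * (i + 1), by positivity, fun x => ?_⟩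
  rw [← Function.iterate_add_apply]
  have hi : i ≤ d * (i + 1) := by nlinarith
  exact congrFun (h2 (i + 1) _ hi) x

lemma pol_comp {R : V → V → Prop} {s : V → V → V → V → V} (h : Pol R s) {e : V → V}
    (he : ∀ a b, R a b → R (e a) (e b)) : Pol R (fun a b c d => e (s a b c d)) :=
  fun _ _ _ _ _ _ _ _ h1 h2 h3 h4 => he _ _ (h _ _ _ _ _ _ _ _ h1 h2 h3 h4)

lemma hom_iterate {R : V → V → Prop} {e : V → V} (he : ∀ a b, R a b → R (e a) (e b)) (k : ℕ) :
    ∀ a b, R a b → R (e^[k] a) (e^[k] b) := by
  induction k with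
  | zero => intro a b h; exact h
  | succ k ih =>
    intro a b h
    rw [Function.iterate_succ_apply, Function.iterate_succ_apply]
    exact ih _ _ (he _ _ h)

section
variable [DecidableEq V] {r0 : V} {f : V → V} {o : V → Bool}

lemma ne_of_ne_root (hf : IsF {r0} f) {x : V} (hx : x ≠ r0) : x ≠ f x := by
  intro h
  have : x ∈ ({r0} : Finset V) := periodic_mem hf (k := 1) Nat.one_pos h.symm
  exact hx (Finset.mem_singleton.1 this)

lemma ed_cases (hf : IsF {r0} f) {x : V} (hx : x ≠ r0) (o : V → Bool) :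
    Ed f o x (f x) ∨ Ed f o (f x) x := by
  have h := ne_of_ne_root hf hx
  rcases ho : o x with _ | _
  · right; right; exact ⟨rfl, h.symm, ho⟩
  · left; left; exact ⟨rfl, h, ho⟩

lemma ed_adj {a b : V} (h : Ed f o a b) : (b = f a ∨ a = f b) ∧ a ≠ b := by
  rcases h with h | h
  · exact ⟨Or.inl h.1, h.2.1⟩
  · exact ⟨Or.inr h.1, h.2.1⟩

/-- induction along the parent function -/
lemma tree_induction (hf : IsF {r0} f) {P : V → Prop} (h0 : P r0)
    (hs : ∀ x, x ≠ r0 → P (f x) → P x) : ∀ x, P x := by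
  intro x
  obtain ⟨k, hk⟩ := hf.2 x
  induction k generalizing x with
  | zero =>
    have : x = r0 := Finset.mem_singleton.1 hk
    rw [this]; exact h0
  | succ k ih =>
    by_cases hx : x = r0
    · rw [hx]; exact h0
    · exact hs x hx (ih (f x) hk)

/-- level function -/
lemma exists_level (hf : IsF {r0} f) (o : V → Bool) :
    ∃ lv : V → ℤ, ∀ x, x ≠ r0 → lv (f x) = lv x + sgn (o x) := by
  classical
  have hex : ∀ x, ∃ k, f^[k] x = r0 := fun x => by
    obtain ⟨k, hk⟩ := hf.2 x
    exact ⟨k, Finset.mem_singleton.1 hk⟩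
  refine ⟨fun x => - ∑ i ∈ range (Nat.find (hex x)), sgn (o (f^[i] x)), ?_⟩
  intro x hx
  have h1 : Nat.find (hex x) = Nat.find (hex (f x)) + 1 := by
    apply le_antisymm
    · apply Nat.find_min'
      rw [Function.iterate_succ_apply]
      exact Nat.find_spec (hex (f x))
    · have h2 : Nat.find (hex x) ≠ 0 := by
        intro h0
        have := Nat.find_spec (hex x)
        rw [h0] at this
        exact hx this
      obtain ⟨k, hk⟩ := Nat.exists_eq_succ_of_ne_zero h2
      have h3 := Nat.find_spec (hex x)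
      rw [hk, Nat.succ_eq_add_one, Function.iterate_succ_apply] at h3
      have h4 := Nat.find_min' (hex (f x)) h3
      omega
  show - ∑ i ∈ range (Nat.find (hex (f x))), sgn (o (f^[i] (f x))) =
    - ∑ i ∈ range (Nat.find (hex x)), sgn (o (f^[i] x)) + sgn (o x)
  rw [h1, Finset.sum_range_succ']
  simp only [Function.iterate_succ_apply, Function.iterate_zero, id_eq]
  ring

lemma level_ed (hf : IsF {r0} f) {o : V → Bool} {lv : V → ℤ}
    (hlv : ∀ x, x ≠ r0 → lv (f x) = lv x + sgn (o x)) {a b : V} (h : Ed f o a b) :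
    lv b = lv a + 1 := by
  have hfr : f r0 = r0 := hf.1 r0 (Finset.mem_singleton_self _)
  rcases h with ⟨h1, h2, h3⟩ | ⟨h1, h2, h3⟩
  · have ha : a ≠ r0 := by rintro rfl; exact h2 (by rw [h1, hfr])
    have := hlv a ha
    rw [h3, ← h1] at this
    simpa [sgn] using this
  · have hb : b ≠ r0 := by rintro rfl; exact h2 (by rw [h1, hfr])
    have := hlv b hb
    rw [h3, ← h1] at this
    have h4 : sgn false = -1 := rfl
    rw [h4] at this
    omega

lemma level_chain {lv : V → ℤ} (hlv : ∀ x, x ≠ r0 → lv (f x) = lv x + sgn (o x)) {a : V} :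
    ∀ D : ℕ, (∀ i < D, f^[i] a ≠ r0) →
      lv (f^[D] a) = lv a + ∑ i ∈ range D, sgn (o (f^[i] a)) := by
  intro D
  induction D with
  | zero => intro _; simp
  | succ D ih =>
    intro h
    rw [Finset.sum_range_succ, Function.iterate_succ_apply', hlv _ (h D (by omega)),
      ih (fun i hi => h i (by omega))]
    ring

lemma sgn_abs (b : Bool) : |sgn b| = 1 := by cases b <;> rfl

lemma abs_sum_sgn_le {a : V} (D : ℕ) : |∑ i ∈ range D, sgn (o (f^[i] a))| ≤ D := by
  calc |∑ i ∈ range D, sgn (o (f^[i] a))| ≤ ∑ i ∈ range D, |sgn (o (f^[i] a))| :=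
        Finset.abs_sum_le_sum_abs _ _
    _ = D := by simp [sgn_abs]

/-- **Deterministic lemma**: a Siggers polymorphism yields one whose diagonal is the identity on a
long ascending path. -/
theorem det [Finite V] (hf : IsF {r0} f) {s : V → V → V → V → V} (hpol : Pol (Ed f o) s)
    (hsig : Sig s) {J : ℕ}
    (hlev : ∃ a D, (∀ i < D, f^[i] a ≠ r0) ∧
      (4 * J : ℤ) ≤ |∑ i ∈ range D, sgn (o (f^[i] a))|) (hJ : 0 < J) :
    ∃ s', Pol (Ed f o) s' ∧ Sig s' ∧ ∃ x, (∀ i < 2 * J, f^[i] x ≠ r0) ∧
      ∀ i ≤ 2 * J, s' (f^[i] x) (f^[i] x) (f^[i] x) (f^[i] x) = f^[i] x := by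
  set e : V → V := fun x => s x x x x with he
  have hehom : ∀ a b, Ed f o a b → Ed f o (e a) (e b) :=
    fun a b h => hpol _ _ _ _ _ _ _ _ h h h h
  obtain ⟨p, hp0, hp⟩ := exists_idem e
  set r : V → V := e^[p] with hr
  have hrhom : ∀ a b, Ed f o a b → Ed f o (r a) (r b) := hom_iterate hehom p
  refine ⟨fun a b c d => e^[p - 1] (s a b c d), pol_comp hpol (hom_iterate hehom (p - 1)),
    fun a b c => congrArg _ (hsig a b c), ?_⟩
  have hdiag : ∀ x, e^[p - 1] (s x x x x) = r x := by
    intro x
    have : p = (p - 1) + 1 := by omega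
    rw [hr, this, Function.iterate_succ_apply]
    simp [he]
  -- it suffices to find a long ascending path in C = {x | r x = x}
  suffices hsuf : ∃ x, (∀ i < 2 * J, f^[i] x ≠ r0) ∧ ∀ i ≤ 2 * J, r (f^[i] x) = f^[i] x by
    obtain ⟨x, h1, h2⟩ := hsuf
    exact ⟨x, h1, fun i hi => (hdiag _).trans (h2 i hi)⟩
  by_contra hcon
  push Not at hcon
  have hfr : f r0 = r0 := hf.1 r0 (Finset.mem_singleton_self _)
  obtain ⟨lv, hlv⟩ := exists_level hf o
  -- top of C
  have htop : ∃ z, (z = r0 ∨ r (f z) ≠ f z) ∧ ∀ x, ∃ k, f^[k] (r x) = z ∧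
      (∀ i ≤ k, r (f^[i] (r x)) = f^[i] (r x)) ∧ ∀ i < k, f^[i] (r x) ≠ r0 := by
    -- existence of a top above `r r0`
    have hex : ∀ y, r y = y → ∃ k, (f^[k] y = r0 ∨ r (f (f^[k] y)) ≠ f (f^[k] y)) ∧
        (∀ i ≤ k, r (f^[i] y) = f^[i] y) ∧ ∀ i < k, f^[i] y ≠ r0 := by
      intro y
      refine tree_induction hf (P := fun y => r y = y → ∃ k, (f^[k] y = r0 ∨
        r (f (f^[k] y)) ≠ f (f^[k] y)) ∧ (∀ i ≤ k, r (f^[i] y) = f^[i] y) ∧
        ∀ i < k, f^[i] y ≠ r0) ?_ ?_ y
      · intro h
        exact ⟨0, Or.inl rfl, fun i hi => by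
          have : i = 0 := by omega
          subst this; exact h, fun i hi => by omega⟩
      · intro x hx ih hrx
        by_cases h : r (f x) = f x
        · obtain ⟨k, h1, h2, h3⟩ := ih h
          refine ⟨k + 1, ?_, ?_, ?_⟩
          · rw [Function.iterate_succ_apply]; exact h1
          · intro i hi
            rcases i with _ | i
            · exact hrx
            · rw [Function.iterate_succ_apply]; exact h2 i (by omega)
          · intro i hi
            rcases i with _ | i
            · exact hx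
            · rw [Function.iterate_succ_apply]; exact h3 i (by omega)
        · exact ⟨0, Or.inr h, fun i hi => by
            have : i = 0 := by omega
            subst this; exact hrx, fun i hi => by omega⟩
    obtain ⟨k0, hk0, hk1, hk2⟩ := hex (r r0) (hp r0)
    refine ⟨f^[k0] (r r0), hk0, ?_⟩
    refine tree_induction hf ⟨k0, rfl, hk1, hk2⟩ ?_
    rintro x hx ⟨k, h1, h2, h3⟩
    have hadj : (r (f x) = f (r x) ∨ r x = f (r (f x))) ∧ r x ≠ r (f x) := by
      rcases ed_cases hf hx o with h | h
      · exact ed_adj (hrhom _ _ h)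
      · have := ed_adj (hrhom _ _ h)
        exact ⟨this.1.symm, this.2.symm⟩
    have hC : ∀ y, r (r y) = r y := hp
    rcases hadj with ⟨h4 | h4, h5⟩
    · -- f (r x) = r (f x)
      refine ⟨k + 1, ?_, ?_, ?_⟩
      · rw [Function.iterate_succ_apply, ← h4]; exact h1
      · intro i hi
        rcases i with _ | i
        · exact hC x
        · rw [Function.iterate_succ_apply, ← h4]; exact h2 i (by omega)
      · intro i hi
        rcases i with _ | i
        · intro h6
          apply h5
          have h6' : r x = r0 := h6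
          rw [h4, h6', hfr]
        · rw [Function.iterate_succ_apply, ← h4]; exact h3 i (by omega)
    · -- f (r (f x)) = r x
      rcases k with _ | k
      · exfalso
        simp only [Function.iterate_zero, id_eq] at h1
        rcases hk0 with h6 | h6
        · apply h5
          rw [h4, h1, h6, hfr]
        · rw [← h1, ← h4] at h6
          exact h6 (hC x)
      · refine ⟨k, ?_, ?_, ?_⟩
        · rw [Function.iterate_succ_apply, ← h4] at h1; exact h1
        · intro i hi
          have := h2 (i + 1) (by omega)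
          rw [Function.iterate_succ_apply, ← h4] at this; exact this
        · intro i hi
          have := h3 (i + 1) (by omega)
          rw [Function.iterate_succ_apply, ← h4] at this; exact this
  obtain ⟨z, _, hz⟩ := htop
  -- every r x is within 2J - 1 of z
  have hlvz : ∀ x, |lv z - lv (r x)| ≤ 2 * J - 1 := by
    intro x
    obtain ⟨k, h1, h2, h3⟩ := hz x
    have hk : k < 2 * J := by
      by_contra hk
      push Not at hk
      obtain ⟨i, hi, hi2⟩ := hcon (r x) (fun i hi => h3 i (by omega))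
      exact hi2 (h2 i (by omega))
    have h4 := level_chain hlv k h3
    rw [h1] at h4
    rw [h4]
    have h5 := abs_sum_sgn_le (f := f) (o := o) (a := r x) k
    have h6 : lv (r x) + ∑ i ∈ range k, sgn (o (f^[i] (r x))) - lv (r x) =
      ∑ i ∈ range k, sgn (o (f^[i] (r x))) := by ring
    rw [h6]
    have h7 : (k : ℤ) ≤ 2 * J - 1 := by omega
    exact h5.trans h7
  -- levels are shifted by a constant
  have hshift : ∀ x, lv (r x) - lv x = lv (r r0) - lv r0 := by
    refine tree_induction hf rfl ?_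
    intro x hx ih
    rw [← ih]
    rcases ed_cases hf hx o with h | h
    · have h1 := level_ed hf hlv h
      have h2 := level_ed hf hlv (hrhom _ _ h)
      omega
    · have h1 := level_ed hf hlv h
      have h2 := level_ed hf hlv (hrhom _ _ h)
      omega
  obtain ⟨a, D, hD, hlarge⟩ := hlev
  have h1 := level_chain hlv D hD
  have h2 : ∑ i ∈ range D, sgn (o (f^[i] a)) = lv (f^[D] a) - lv a := by omega
  rw [h2] at hlarge
  have h3 := hshift (f^[D] a)
  have h4 := hshift a
  have h5 := abs_le.1 (hlvz (f^[D] a))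
  have h6 := abs_le.1 (hlvz a)
  have h7 : |lv (f^[D] a) - lv a| ≤ 2 * (2 * J - 1) := by
    rw [abs_le]; constructor <;> omega
  omega

end

end Pool.Agent.W957
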