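import Mathlib

set_option autoImplicit false

namespace Pool.Agent.W957.Ext

/-- The self-similar middle sequence: odd places are alternately very low and very high,
the even places repeat the whole sequence on half the scale. -/
def f : ℕ → ℚ
  | 0 => 0
  | (n + 1) =>
    if (n + 1) % 2 = 0 then f ((n + 1) / 2) / 2
    else if (n + 1) % 4 = 1 then -(1 / 2 + 1 / (2 * ((n : ℚ) + 2)))
    else 1 / 2 + 1 / (2 * ((n : ℚ) + 2))
  termination_by n => n
  decreasing_by omega

theorem f_two_mul (j : ℕ) : f (2 * j) = f j / 2 := by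
  rcases Nat.eq_zero_or_pos j with h | h
  · subst h
    simp [f]
  · obtain ⟨n, hn⟩ : ∃ n, 2 * j = n + 1 := ⟨2 * j - 1, by omega⟩
    rw [hn, f, ← hn, if_pos (by omega)]
    congr 2
    omega

theorem f_valley {j : ℕ} (h : j % 4 = 1) : f j = -(1 / 2 + 1 / (2 * ((j : ℚ) + 1))) := by
  obtain ⟨n, rfl⟩ : ∃ n, j = n + 1 := ⟨j - 1, by omega⟩
  rw [f, if_neg (by omega), if_pos h]
  push_cast
  ring

theorem f_peak {j : ℕ} (h : j % 4 = 3) : f j = 1 / 2 + 1 / (2 * ((j : ℚ) + 1)) := by
  obtain ⟨n, rfl⟩ : ∃ n, j = n + 1 := ⟨j - 1, by omega⟩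
  rw [f, if_neg (by omega), if_neg (by omega)]
  push_cast
  ring

theorem aux_pos (j : ℕ) : (0 : ℚ) < 1 / (2 * ((j : ℚ) + 1)) := by positivity

theorem aux_lt {j : ℕ} (h : 1 ≤ j) : (1 : ℚ) / (2 * ((j : ℚ) + 1)) ≤ 1 / 4 := by
  have h1 : (1 : ℚ) ≤ j := by exact_mod_cast h
  apply one_div_le_one_div_of_le (by norm_num)
  linarith

theorem valley_bd {j : ℕ} (h : j % 4 = 1) : -1 < f j ∧ f j < -1 / 2 := by
  rw [f_valley h]
  have h1 := aux_pos j
  have h2 := aux_lt (j := j) (by omega)
  constructor <;> linarith

theorem peak_bd {j : ℕ} (h : j % 4 = 3) : 1 / 2 < f j ∧ f j < 1 := by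
  rw [f_peak h]
  have h1 := aux_pos j
  have h2 := aux_lt (j := j) (by omega)
  constructor <;> linarith

theorem f_bd (j : ℕ) : -1 < f j ∧ f j < 1 := by
  induction j using Nat.strong_induction_on with
  | _ j ih =>
    rcases Nat.even_or_odd' j with ⟨t, ht | ht⟩
    · rcases Nat.eq_zero_or_pos t with h0 | h0
      · subst h0
        subst ht
        simp [f]
      · have := ih t (by omega)
        rw [ht, f_two_mul]
        constructor <;> linarith [this.1, this.2]
    · rcases (by omega : j % 4 = 1 ∨ j % 4 = 3) with h | h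
      · have := valley_bd h
        constructor <;> linarith [this.1, this.2]
      · have := peak_bd h
        constructor <;> linarith [this.1, this.2]

theorem mid_bd {j : ℕ} (h : j % 2 = 0) : -1 / 2 < f j ∧ f j < 1 / 2 := by
  obtain ⟨t, rfl⟩ : ∃ t, j = 2 * t := ⟨j / 2, by omega⟩
  rw [f_two_mul]
  have := f_bd t
  constructor <;> linarith [this.1, this.2]

theorem f_inj : ∀ j j' : ℕ, f j = f j' → j = j' := by
  intro j
  induction j using Nat.strong_induction_on with
  | _ j ih =>
    intro j' h
    rcases (by omega : j % 2 = 0 ∨ j % 4 = 1 ∨ j % 4 = 3) with h1 | h1 | h1 <;>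
    rcases (by omega : j' % 2 = 0 ∨ j' % 4 = 1 ∨ j' % 4 = 3) with h2 | h2 | h2
    · obtain ⟨t, rfl⟩ : ∃ t, j = 2 * t := ⟨j / 2, by omega⟩
      obtain ⟨t', rfl⟩ : ∃ t, j' = 2 * t := ⟨j' / 2, by omega⟩
      rw [f_two_mul, f_two_mul] at h
      have h3 : f t = f t' := by linarith
      rcases Nat.eq_zero_or_pos t with h0 | h0
      · subst h0
        -- need t' = 0
        have key : ∀ s : ℕ, f 0 = f s → s = 0 := by
          intro s
          induction s using Nat.strong_induction_on with
          | _ s ihs =>
            intro hs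
            have h00 : f 0 = 0 := by simp [f]
            rcases (by omega : s % 2 = 0 ∨ s % 4 = 1 ∨ s % 4 = 3) with g | g | g
            · obtain ⟨r, rfl⟩ : ∃ r, s = 2 * r := ⟨s / 2, by omega⟩
              rcases Nat.eq_zero_or_pos r with hr | hr
              · omega
              · rw [f_two_mul] at hs
                have := ihs r (by omega) (by rw [h00] at hs ⊢; linarith)
                omega
            · have := valley_bd g
              rw [h00] at hs
              linarith [this.1, this.2]
            · have := peak_bd g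
              rw [h00] at hs
              linarith [this.1, this.2]
        have := key t' h3
        omega
      · have := ih t (by omega) t' h3
        omega
    · exfalso
      have a1 := mid_bd h1
      have a2 := valley_bd h2
      linarith [a1.1, a1.2, a2.1, a2.2]
    · exfalso
      have a1 := mid_bd h1
      have a2 := peak_bd h2
      linarith [a1.1, a1.2, a2.1, a2.2]
    · exfalso
      have a1 := valley_bd h1
      have a2 := mid_bd h2
      linarith [a1.1, a1.2, a2.1, a2.2]
    · rw [f_valley h1, f_valley h2] at h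
      have h3 : (1 : ℚ) / (2 * ((j : ℚ) + 1)) = 1 / (2 * ((j' : ℚ) + 1)) := by linarith
      rw [div_eq_div_iff (by positivity) (by positivity)] at h3
      have h4 : (j : ℚ) = j' := by linarith
      exact_mod_cast h4
    · exfalso
      have a1 := valley_bd h1
      have a2 := peak_bd h2
      linarith [a1.1, a1.2, a2.1, a2.2]
    · exfalso
      have a1 := peak_bd h1
      have a2 := mid_bd h2
      linarith [a1.1, a1.2, a2.1, a2.2]
    · exfalso
      have a1 := peak_bd h1
      have a2 := valley_bd h2
      linarith [a1.1, a1.2, a2.1, a2.2]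
    · rw [f_peak h1, f_peak h2] at h
      have h3 : (1 : ℚ) / (2 * ((j : ℚ) + 1)) = 1 / (2 * ((j' : ℚ) + 1)) := by linarith
      rw [div_eq_div_iff (by positivity) (by positivity)] at h3
      have h4 : (j : ℚ) = j' := by linarith
      exact_mod_cast h4

/-- The order pattern of two adjacent blocks of length `l` starting at `i` agree. -/
def Sq (g : ℕ → ℚ) (i l : ℕ) : Prop :=
  ∀ a < l, ∀ b < l, (g (i + a) < g (i + b) ↔ g (i + l + a) < g (i + l + b))

theorem f_sign (j : ℕ) : f j < f (j + 1) ↔ (j % 4 = 1 ∨ j % 4 = 2) := by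
  rcases (by omega : j % 4 = 0 ∨ j % 4 = 1 ∨ j % 4 = 2 ∨ j % 4 = 3) with h | h | h | h
  · have a1 := mid_bd (j := j) (by omega)
    have a2 := valley_bd (j := j + 1) (by omega)
    constructor
    · intro h1
      linarith [a1.1, a1.2, a2.1, a2.2]
    · omega
  · have a1 := mid_bd (j := j + 1) (by omega)
    have a2 := valley_bd (j := j) h
    constructor
    · intro _
      exact Or.inl h
    · intro _
      linarith [a1.1, a1.2, a2.1, a2.2]
  · have a1 := mid_bd (j := j) (by omega)
    have a2 := peak_bd (j := j + 1) (by omega)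
    constructor
    · intro _
      exact Or.inr h
    · intro _
      linarith [a1.1, a1.2, a2.1, a2.2]
  · have a1 := mid_bd (j := j + 1) (by omega)
    have a2 := peak_bd (j := j) h
    constructor
    · intro h1
      linarith [a1.1, a1.2, a2.1, a2.2]
    · omega

theorem f_nosq : ∀ l : ℕ, 2 ≤ l → ∀ i, ¬ Sq f i l := by
  intro l
  induction l using Nat.strong_induction_on with
  | _ l ih =>
    intro hl i h
    have h1 := h 0 (by omega) 1 (by omega)
    simp only [add_zero] at h1
    rw [f_sign, f_sign] at h1
    have hl3 : l % 4 = 0 := by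
      rcases (by omega : l = 2 ∨ 3 ≤ l) with h2 | h2
      · omega
      · have h3 := h 1 (by omega) 2 (by omega)
        rw [show i + 2 = i + 1 + 1 by omega, show i + l + 2 = i + l + 1 + 1 by omega,
          f_sign, f_sign] at h3
        omega
    -- pass to the even places
    obtain ⟨t, ht⟩ : ∃ t, l = 2 * t := ⟨l / 2, by omega⟩
    obtain ⟨j, d, hj, hd⟩ : ∃ j d, i + d = 2 * j ∧ d < 2 := by
      rcases (by omega : i % 2 = 0 ∨ i % 2 = 1) with h2 | h2
      · exact ⟨i / 2, 0, by omega, by omega⟩
      · exact ⟨(i + 1) / 2, 1, by omega, by omega⟩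
    apply ih t (by omega) (by omega) j
    intro a ha b hb
    have h4 := h (d + 2 * a) (by omega) (d + 2 * b) (by omega)
    rw [show i + (d + 2 * a) = 2 * (j + a) by omega, show i + (d + 2 * b) = 2 * (j + b) by omega,
      show i + l + (d + 2 * a) = 2 * (j + t + a) by omega,
      show i + l + (d + 2 * b) = 2 * (j + t + b) by omega,
      f_two_mul, f_two_mul, f_two_mul, f_two_mul] at h4
    constructor
    · intro h5
      have := h4.1 (by linarith)
      linarith
    · intro h5
      have := h4.2 (by linarith)
      linarith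

end Pool.Agent.W957.Ext
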