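import Mathlib
import Pool.Agent.W957.Ext

set_option autoImplicit false

namespace Pool.Agent.W957.Ext

/-- The left end. -/
def TL : List ℕ := [9, 11, 10, 1, 2, 8, 5, 3, 6, 7, 4]
/-- The right end. -/
def TR : List ℕ := [8, 5, 6, 9, 7, 4, 10, 11, 2, 1, 3]

/-- The whole sequence, with middle part of length `m`. -/
def F (m i : ℕ) : ℚ :=
  if i < 11 then 100 + ((TL.getD i 0 : ℕ) : ℚ)
  else if i < 11 + m then f (i - 10)
  else -100 + ((TR.getD (i - (11 + m)) 0 : ℕ) : ℚ)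

theorem F_left {m i : ℕ} (h : i < 11) : F m i = 100 + ((TL.getD i 0 : ℕ) : ℚ) := by
  rw [F, if_pos h]

theorem F_mid {m i : ℕ} (h : 11 ≤ i) (h2 : i < 11 + m) : F m i = f (i - 10) := by
  rw [F, if_neg (by omega), if_pos h2]

theorem F_right (m q : ℕ) : F m (11 + m + q) = -100 + ((TR.getD q 0 : ℕ) : ℚ) := by
  rw [F, if_neg (by omega), if_neg (by omega), show 11 + m + q - (11 + m) = q by omega]

theorem TL_pos {q : ℕ} (h : q < 11) : 1 ≤ TL.getD q 0 ∧ TL.getD q 0 ≤ 11 := by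
  have : ∀ q < 11, 1 ≤ TL.getD q 0 ∧ TL.getD q 0 ≤ 11 := by decide
  exact this q h

theorem TR_pos {q : ℕ} (h : q < 11) : 1 ≤ TR.getD q 0 ∧ TR.getD q 0 ≤ 11 := by
  have : ∀ q < 11, 1 ≤ TR.getD q 0 ∧ TR.getD q 0 ≤ 11 := by decide
  exact this q h

theorem F_left_bd {m i : ℕ} (h : i < 11) : 101 ≤ F m i := by
  rw [F_left h]
  have : (1 : ℚ) ≤ ((TL.getD i 0 : ℕ) : ℚ) := by exact_mod_cast (TL_pos h).1
  linarith

theorem F_mid_bd {m i : ℕ} (h : 11 ≤ i) (h2 : i < 11 + m) : -1 < F m i ∧ F m i < 1 := by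
  rw [F_mid h h2]
  exact f_bd _

theorem F_right_bd {m q : ℕ} (h : q < 11) : F m (11 + m + q) ≤ -89 := by
  rw [F_right]
  have : ((TR.getD q 0 : ℕ) : ℚ) ≤ 11 := by exact_mod_cast (TR_pos h).2
  linarith

theorem F_right_bd' {m i : ℕ} (h : 11 + m ≤ i) (h2 : i < m + 22) : F m i ≤ -89 := by
  obtain ⟨q, rfl⟩ : ∃ q, i = 11 + m + q := ⟨i - (11 + m), by omega⟩
  exact F_right_bd (by omega)

theorem F_inj {m i j : ℕ} (hi : i < m + 22) (hj : j < m + 22) (h : F m i = F m j) : i = j := by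
  have tl : ∀ a < 11, ∀ b < 11, TL.getD a 0 = TL.getD b 0 → a = b := by decide
  have tr : ∀ a < 11, ∀ b < 11, TR.getD a 0 = TR.getD b 0 → a = b := by decide
  rcases (by omega : i < 11 ∨ (11 ≤ i ∧ i < 11 + m) ∨ 11 + m ≤ i) with h1 | ⟨h1, h1'⟩ | h1 <;>
  rcases (by omega : j < 11 ∨ (11 ≤ j ∧ j < 11 + m) ∨ 11 + m ≤ j) with h2 | ⟨h2, h2'⟩ | h2
  · rw [F_left h1, F_left h2] at h
    apply tl i h1 j h2
    exact_mod_cast (by linarith : ((TL.getD i 0 : ℕ) : ℚ) = ((TL.getD j 0 : ℕ) : ℚ))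
  · have a1 := F_left_bd (m := m) h1
    have a2 := F_mid_bd h2 h2'
    linarith [a2.1, a2.2]
  · have a1 := F_left_bd (m := m) h1
    have a2 := F_right_bd' h2 hj
    linarith
  · have a1 := F_left_bd (m := m) h2
    have a2 := F_mid_bd h1 h1'
    linarith [a2.1, a2.2]
  · rw [F_mid h1 h1', F_mid h2 h2'] at h
    have := f_inj _ _ h
    omega
  · have a1 := F_mid_bd h1 h1'
    have a2 := F_right_bd' h2 hj
    linarith [a1.1]
  · have a1 := F_left_bd (m := m) h2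
    have a2 := F_right_bd' h1 hi
    linarith
  · have a1 := F_mid_bd h2 h2'
    have a2 := F_right_bd' h1 hi
    linarith [a1.1]
  · obtain ⟨q, rfl⟩ : ∃ q, i = 11 + m + q := ⟨i - (11 + m), by omega⟩
    obtain ⟨r, rfl⟩ : ∃ q, j = 11 + m + q := ⟨j - (11 + m), by omega⟩
    rw [F_right, F_right] at h
    have := tr q (by omega) r (by omega)
      (by exact_mod_cast (by linarith : ((TR.getD q 0 : ℕ) : ℚ) = ((TR.getD r 0 : ℕ) : ℚ)))
    omega

theorem F_sign {m : ℕ} (hm : m % 4 = 3) {i : ℕ} (hi : i + 1 < m + 22) :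
    F m i < F m (i + 1) ↔ (i % 4 = 3 ∨ i % 4 = 0) := by
  rcases (by omega : i < 10 ∨ i = 10 ∨ (11 ≤ i ∧ i + 1 < 11 + m) ∨ i = 10 + m ∨ 11 + m ≤ i)
    with h | h | ⟨h, h'⟩ | h | h
  · rw [F_left (by omega), F_left (by omega)]
    have tl : ∀ a < 10, (TL.getD a 0 < TL.getD (a + 1) 0 ↔ (a % 4 = 3 ∨ a % 4 = 0)) := by decide
    rw [← tl i h]
    constructor
    · intro h1
      exact_mod_cast (by linarith : ((TL.getD i 0 : ℕ) : ℚ) < ((TL.getD (i + 1) 0 : ℕ) : ℚ))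
    · intro h1
      have : ((TL.getD i 0 : ℕ) : ℚ) < ((TL.getD (i + 1) 0 : ℕ) : ℚ) := by exact_mod_cast h1
      linarith
  · subst h
    have a1 := F_left_bd (m := m) (i := 10) (by omega)
    have a2 := F_mid_bd (m := m) (i := 10 + 1) (by omega) (by omega)
    constructor
    · intro h1
      linarith [a2.2]
    · omega
  · rw [F_mid h (by omega), F_mid (by omega) h', show i + 1 - 10 = i - 10 + 1 by omega, f_sign]
    omega
  · subst h
    have a1 := F_mid_bd (m := m) (i := 10 + m) (by omega) (by omega)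
    have a2 := F_right_bd' (m := m) (i := 10 + m + 1) (by omega) (by omega)
    constructor
    · intro h1
      linarith [a1.1]
    · omega
  · obtain ⟨q, rfl⟩ : ∃ q, i = 11 + m + q := ⟨i - (11 + m), by omega⟩
    rw [show 11 + m + q + 1 = 11 + m + (q + 1) by omega, F_right, F_right]
    have tr : ∀ a < 10, (TR.getD a 0 < TR.getD (a + 1) 0 ↔ (a % 4 = 1 ∨ a % 4 = 2)) := by decide
    have h2 := tr q (by omega)
    have h3 : ((11 + m + q) % 4 = 3 ∨ (11 + m + q) % 4 = 0) ↔ (q % 4 = 1 ∨ q % 4 = 2) := by omega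
    rw [h3, ← h2]
    constructor
    · intro h1
      exact_mod_cast (by linarith : ((TR.getD q 0 : ℕ) : ℚ) < ((TR.getD (q + 1) 0 : ℕ) : ℚ))
    · intro h1
      have : ((TR.getD q 0 : ℕ) : ℚ) < ((TR.getD (q + 1) 0 : ℕ) : ℚ) := by exact_mod_cast h1
      linarith

/-- In the middle part, lows are below mids and mids below highs. -/
theorem F_low_mid {m i j : ℕ} (hi : 11 ≤ i) (hi' : i < 11 + m) (hj : 11 ≤ j) (hj' : j < 11 + m)
    (h1 : i % 4 = 3) (h2 : j % 2 = 0) : F m i < F m j := by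
  rw [F_mid hi hi', F_mid hj hj']
  have a1 := valley_bd (j := i - 10) (by omega)
  have a2 := mid_bd (j := j - 10) (by omega)
  linarith [a1.1, a1.2, a2.1, a2.2]

theorem F_mid_high {m i j : ℕ} (hi : 11 ≤ i) (hi' : i < 11 + m) (hj : 11 ≤ j) (hj' : j < 11 + m)
    (h1 : i % 2 = 0) (h2 : j % 4 = 1) : F m i < F m j := by
  rw [F_mid hi hi', F_mid hj hj']
  have a1 := mid_bd (j := i - 10) (by omega)
  have a2 := peak_bd (j := j - 10) (by omega)
  linarith [a1.1, a1.2, a2.1, a2.2]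

theorem f_one : f 1 = -3 / 4 := by
  rw [f_valley (by norm_num)]
  norm_num

theorem f_three : f 3 = 5 / 8 := by
  rw [f_peak (by norm_num)]
  norm_num

theorem f_two : f 2 = -3 / 8 := by
  rw [show 2 = 2 * 1 by norm_num, f_two_mul, f_one]
  norm_num

theorem f_four : f 4 = -3 / 16 := by
  rw [show 4 = 2 * 2 by norm_num, f_two_mul, f_two]
  norm_num

theorem f_six : f 6 = 5 / 16 := by
  rw [show 6 = 2 * 3 by norm_num, f_two_mul, f_three]
  norm_num

/-- The last mids of the middle part increase. -/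
theorem f_end1 (t : ℕ) : f (16 * t + 10) < f (16 * t + 12) := by
  rw [show 16 * t + 10 = 2 * (8 * t + 5) by ring, show 16 * t + 12 = 2 * (2 * (4 * t + 3)) by ring,
    f_two_mul, f_two_mul, f_two_mul]
  have a1 := valley_bd (j := 8 * t + 5) (by omega)
  have a2 := peak_bd (j := 4 * t + 3) (by omega)
  linarith [a1.1, a1.2, a2.1, a2.2]

theorem f_end2 (t : ℕ) : f (16 * t + 12) < f (16 * t + 14) := by
  rw [show 16 * t + 14 = 2 * (8 * t + 7) by ring, show 16 * t + 12 = 2 * (2 * (4 * t + 3)) by ring,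
    f_two_mul, f_two_mul, f_two_mul]
  have a1 := peak_bd (j := 8 * t + 7) (by omega)
  have a2 := peak_bd (j := 4 * t + 3) (by omega)
  linarith [a1.1, a1.2, a2.1, a2.2]

end Pool.Agent.W957.Ext
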