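import Mathlib
import Pool.Agent.W957.Ext2

set_option autoImplicit false

namespace Pool.Agent.W957.Ext

theorem model_lt (S : ℕ → ℚ) (L : ℕ) (hS : ∀ c d, c < d → d < L → S c < S d) (y : ℕ → ℚ)
    (P : ℕ → ℕ) (hP : ∀ a < L, P a < L) (hy : ∀ a < L, y a = S (P a)) :
    ∀ a < L, ∀ b < L, (y a < y b ↔ P a < P b) := by
  intro a ha b hb
  rw [hy a ha, hy b hb]
  constructor
  · intro h
    by_contra h2
    rcases Nat.lt_or_ge (P b) (P a) with h3 | h3
    · have := hS _ _ h3 (hP a ha)
      linarith
    · have : P a = P b := by omega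
      rw [this] at h
      exact lt_irrefl _ h
  · intro h
    exact hS _ _ h (hP b hb)

theorem exists_rank (S : ℕ → ℚ) (L : ℕ) (hS : ∀ c d, c < d → d < L → S c < S d) (x : ℚ) :
    ∃ q ≤ L, ∀ c < L, (S c < x ↔ c < q) := by
  induction L with
  | zero => exact ⟨0, le_refl _, fun c hc => absurd hc (by omega)⟩
  | succ L ih =>
    by_cases h : S L < x
    · refine ⟨L + 1, le_refl _, fun c hc => ?_⟩
      constructor
      · intro _
        exact hc
      · intro _
        rcases Nat.lt_or_ge c L with h2 | h2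
        · exact (hS c L h2 (by omega)).trans h
        · have : c = L := by omega
          rw [this]
          exact h
    · obtain ⟨q, hq, hq2⟩ := ih (fun c d hcd hd => hS c d hcd (by omega))
      refine ⟨q, by omega, fun c hc => ?_⟩
      rcases Nat.lt_or_ge c L with h2 | h2
      · exact hq2 c h2
      · have hc2 : c = L := by omega
        rw [hc2]
        constructor
        · intro h3
          exact absurd h3 h
        · intro h3
          omega

/-- Insertion of `x` at place `p`. -/
def ins (y : ℕ → ℚ) (p : ℕ) (x : ℚ) (a : ℕ) : ℚ :=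
  if a < p then y a else if a = p then x else y (a - 1)

/-- The integer model of insertion. -/
def insN (P : ℕ → ℕ) (p q a : ℕ) : ℕ :=
  if a < p then 2 * P a + 1 else if a = p then 2 * q else 2 * P (a - 1) + 1

theorem ins_lt (y : ℕ → ℚ) (P : ℕ → ℕ) (L : ℕ) (hyP : ∀ a < L, ∀ b < L, (y a < y b ↔ P a < P b))
    (x : ℚ) (q : ℕ) (hq : ∀ a < L, (y a < x ↔ P a < q)) (hne : ∀ a < L, y a ≠ x) (p : ℕ)
    (hp : p ≤ L) :
    ∀ a < L + 1, ∀ b < L + 1, (ins y p x a < ins y p x b ↔ insN P p q a < insN P p q b) := by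
  have hq' : ∀ a < L, (x < y a ↔ q ≤ P a) := by
    intro a ha
    have h1 := hq a ha
    have h2 := hne a ha
    constructor
    · intro h
      by_contra h3
      have := h1.2 (by omega)
      linarith
    · intro h
      rcases lt_trichotomy x (y a) with h3 | h3 | h3
      · exact h3
      · exact absurd h3.symm h2
      · have := h1.1 h3
        omega
  intro a ha b hb
  unfold ins insN
  rcases lt_trichotomy a p with h1 | h1 | h1 <;> rcases lt_trichotomy b p with h2 | h2 | h2
  · rw [if_pos h1, if_pos h1, if_pos h2, if_pos h2, hyP a (by omega) b (by omega)]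
    omega
  · rw [if_pos h1, if_pos h1, if_neg (show ¬ b < p by omega), if_neg (show ¬ b < p by omega),
      if_pos h2, if_pos h2, hq a (by omega)]
    omega
  · rw [if_pos h1, if_pos h1, if_neg (show ¬ b < p by omega), if_neg (show ¬ b < p by omega),
      if_neg (show ¬ b = p by omega), if_neg (show ¬ b = p by omega),
      hyP a (by omega) (b - 1) (by omega)]
    omega
  · rw [if_neg (show ¬ a < p by omega), if_neg (show ¬ a < p by omega), if_pos h1, if_pos h1,
      if_pos h2, if_pos h2, hq' b (by omega)]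
    omega
  · rw [if_neg (show ¬ a < p by omega), if_neg (show ¬ a < p by omega), if_pos h1, if_pos h1,
      if_neg (show ¬ b < p by omega), if_neg (show ¬ b < p by omega), if_pos h2, if_pos h2]
    simp
  · rw [if_neg (show ¬ a < p by omega), if_neg (show ¬ a < p by omega), if_pos h1, if_pos h1,
      if_neg (show ¬ b < p by omega), if_neg (show ¬ b < p by omega),
      if_neg (show ¬ b = p by omega), if_neg (show ¬ b = p by omega), hq' (b - 1) (by omega)]
    omega
  · rw [if_neg (show ¬ a < p by omega), if_neg (show ¬ a < p by omega),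
      if_neg (show ¬ a = p by omega), if_neg (show ¬ a = p by omega), if_pos h2, if_pos h2,
      hyP (a - 1) (by omega) b (by omega)]
    omega
  · rw [if_neg (show ¬ a < p by omega), if_neg (show ¬ a < p by omega),
      if_neg (show ¬ a = p by omega), if_neg (show ¬ a = p by omega),
      if_neg (show ¬ b < p by omega), if_neg (show ¬ b < p by omega), if_pos h2, if_pos h2,
      hq (a - 1) (by omega)]
    omega
  · rw [if_neg (show ¬ a < p by omega), if_neg (show ¬ a < p by omega),
      if_neg (show ¬ a = p by omega), if_neg (show ¬ a = p by omega),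
      if_neg (show ¬ b < p by omega), if_neg (show ¬ b < p by omega),
      if_neg (show ¬ b = p by omega), if_neg (show ¬ b = p by omega),
      hyP (a - 1) (by omega) (b - 1) (by omega)]
    omega

/-- Ranks of the last fifteen entries. -/
def PRl : List ℕ := [12, 11, 13, 14, 7, 4, 5, 8, 6, 3, 9, 10, 1, 0, 2]
/-- Ranks of the first fifteen entries. -/
def PLl : List ℕ := [12, 14, 13, 4, 5, 11, 8, 6, 9, 10, 7, 0, 1, 3, 2]

def PR (a : ℕ) : ℕ := PRl.getD a 0
def PL (a : ℕ) : ℕ := PLl.getD a 0

def sqN (g : ℕ → ℕ) (i l : ℕ) : Prop :=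
  ∀ a < l, ∀ b < l, (g (i + a) < g (i + b) ↔ g (i + l + a) < g (i + l + b))

instance (g : ℕ → ℕ) (i l : ℕ) : Decidable (sqN g i l) := by
  unfold sqN
  infer_instance

theorem chkR : ∀ q < 16, ∀ p < 16, 13 ≤ p →
    ∃ i < 13, ∃ l < 9, 2 ≤ l ∧ i + 2 * l ≤ 16 ∧ sqN (insN PR p q) i l := by
  decide +kernel

theorem chkL : ∀ q < 16, ∀ p < 3,
    ∃ i < 13, ∃ l < 9, 2 ≤ l ∧ i + 2 * l ≤ 16 ∧ sqN (insN PL p q) i l := by
  decide +kernel

theorem chkR4 : ∀ i < 8, ¬ sqN PR i 4 := by decide +kernel
theorem chkL4 : ∀ i < 8, ¬ sqN PL i 4 := by decide +kernel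

theorem sq_transfer (u : ℕ → ℚ) (B L : ℕ) (g : ℕ → ℕ)
    (h : ∀ a < L, ∀ b < L, (u (B + a) < u (B + b) ↔ g a < g b)) (i l : ℕ) (hil : i + 2 * l ≤ L) :
    Sq u (B + i) l ↔ sqN g i l := by
  unfold Sq sqN
  constructor
  · intro H a ha b hb
    rw [← h (i + a) (by omega) (i + b) (by omega), ← h (i + l + a) (by omega) (i + l + b) (by omega)]
    have := H a ha b hb
    simpa only [Nat.add_assoc] using this
  · intro H a ha b hb
    have := H a ha b hb
    rw [← h (i + a) (by omega) (i + b) (by omega),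
      ← h (i + l + a) (by omega) (i + l + b) (by omega)] at this
    simpa only [Nat.add_assoc] using this

/-- Sorted values of the last fifteen entries. -/
def SR (m c : ℕ) : ℚ :=
  if c < 11 then -100 + ((c : ℚ) + 1)
  else if c = 11 then F m (8 + m) else if c = 12 then F m (7 + m)
  else if c = 13 then F m (9 + m) else F m (10 + m)

/-- Sorted values of the first fifteen entries. -/
def SL (m c : ℕ) : ℚ :=
  if c = 0 then F m 11 else if c = 1 then F m 12 else if c = 2 then F m 14
  else if c = 3 then F m 13 else 100 + ((c : ℚ) - 3)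

theorem SR_mono {t m : ℕ} (hm : m = 16 * t + 15) :
    ∀ c d, c < d → d < 15 → SR m c < SR m d := by
  have e1 : F m (8 + m) < F m (7 + m) :=
    F_low_mid (by omega) (by omega) (by omega) (by omega) (by omega) (by omega)
  have e2 : F m (7 + m) < F m (9 + m) := by
    rw [F_mid (by omega) (by omega), F_mid (by omega) (by omega),
      show 7 + m - 10 = 16 * t + 12 by omega, show 9 + m - 10 = 16 * t + 14 by omega]
    exact f_end2 t
  have e3 : F m (9 + m) < F m (10 + m) :=
    F_mid_high (by omega) (by omega) (by omega) (by omega) (by omega) (by omega)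
  have e0 : -1 < F m (8 + m) := (F_mid_bd (by omega) (by omega)).1
  have step : ∀ c, c + 1 < 15 → SR m c < SR m (c + 1) := by
    intro c hc
    have h0 : ∀ d < 11, SR m d = -100 + ((d : ℚ) + 1) := fun d hd => by rw [SR, if_pos hd]
    have h11 : SR m 11 = F m (8 + m) := by simp [SR]
    have h12 : SR m 12 = F m (7 + m) := by simp [SR]
    have h13 : SR m 13 = F m (9 + m) := by simp [SR]
    have h14 : SR m 14 = F m (10 + m) := by simp [SR]
    rcases (by omega : c < 10 ∨ c = 10 ∨ c = 11 ∨ c = 12 ∨ c = 13) with h | h | h | h | h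
    · rw [h0 c (by omega), h0 (c + 1) (by omega)]
      push_cast
      linarith
    · subst h
      rw [h0 10 (by omega), h11]
      push_cast
      linarith
    · subst h
      rw [h11, h12]
      exact e1
    · subst h
      rw [h12, h13]
      exact e2
    · subst h
      rw [h13, h14]
      exact e3
  intro c d hcd hd
  obtain ⟨k, rfl⟩ : ∃ k, d = c + 1 + k := ⟨d - (c + 1), by omega⟩
  clear hcd
  induction k with
  | zero => exact step c (by omega)
  | succ k ih =>
    have h1 := ih (by omega)
    have h2 := step (c + 1 + k) (by omega)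
    exact h1.trans h2

theorem SL_mono {t m : ℕ} (hm : m = 16 * t + 15) :
    ∀ c d, c < d → d < 15 → SL m c < SL m d := by
  have g1 : F m 11 = -3 / 4 := by
    rw [F_mid (by omega) (by omega), show 11 - 10 = 1 by omega, f_one]
  have g2 : F m 12 = -3 / 8 := by
    rw [F_mid (by omega) (by omega), show 12 - 10 = 2 by omega, f_two]
  have g3 : F m 13 = 5 / 8 := by
    rw [F_mid (by omega) (by omega), show 13 - 10 = 3 by omega, f_three]
  have g4 : F m 14 = -3 / 16 := by
    rw [F_mid (by omega) (by omega), show 14 - 10 = 4 by omega, f_four]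
  have step : ∀ c, c + 1 < 15 → SL m c < SL m (c + 1) := by
    intro c hc
    have h0 : ∀ d, 4 ≤ d → SL m d = 100 + ((d : ℚ) - 3) := fun d hd => by
      rw [SL, if_neg (by omega), if_neg (by omega), if_neg (by omega), if_neg (by omega)]
    have h11 : SL m 0 = F m 11 := by simp [SL]
    have h12 : SL m 1 = F m 12 := by simp [SL]
    have h13 : SL m 2 = F m 14 := by simp [SL]
    have h14 : SL m 3 = F m 13 := by simp [SL]
    rcases (by omega : c = 0 ∨ c = 1 ∨ c = 2 ∨ c = 3 ∨ 4 ≤ c) with h | h | h | h | h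
    · subst h
      rw [h11, h12, g1, g2]
      norm_num
    · subst h
      rw [h12, h13, g2, g4]
      norm_num
    · subst h
      rw [h13, h14, g4, g3]
      norm_num
    · subst h
      rw [h14, h0 4 (by omega), g3]
      norm_num
    · rw [h0 c h, h0 (c + 1) (by omega)]
      push_cast
      linarith
  intro c d hcd hd
  obtain ⟨k, rfl⟩ : ∃ k, d = c + 1 + k := ⟨d - (c + 1), by omega⟩
  clear hcd
  induction k with
  | zero => exact step c (by omega)
  | succ k ih =>
    have h1 := ih (by omega)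
    have h2 := step (c + 1 + k) (by omega)
    exact h1.trans h2

theorem PR_lt : ∀ a < 15, PR a < 15 := by decide
theorem PL_lt : ∀ a < 15, PL a < 15 := by decide

theorem yR (m : ℕ) (a : ℕ) (ha : a < 15) : F m (7 + m + a) = SR m (PR a) := by
  rcases (by omega : a = 0 ∨ a = 1 ∨ a = 2 ∨ a = 3 ∨ 4 ≤ a) with h | h | h | h | h
  · subst h
    simp [PR, PRl, SR]
  · subst h
    rw [show 7 + m + 1 = 8 + m by omega]
    simp [PR, PRl, SR]
  · subst h
    rw [show 7 + m + 2 = 9 + m by omega]
    simp [PR, PRl, SR]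
  · subst h
    rw [show 7 + m + 3 = 10 + m by omega]
    simp [PR, PRl, SR]
  · obtain ⟨q, rfl⟩ : ∃ q, a = 4 + q := ⟨a - 4, by omega⟩
    rw [show 7 + m + (4 + q) = 11 + m + q by omega, F_right]
    have h1 : ∀ q < 11, PR (4 + q) < 11 ∧ TR.getD q 0 = PR (4 + q) + 1 := by decide
    have h2 := h1 q (by omega)
    rw [SR, if_pos h2.1, h2.2]
    push_cast
    ring

theorem yL (m : ℕ) (a : ℕ) (ha : a < 15) : F m a = SL m (PL a) := by
  rcases (by omega : a < 11 ∨ a = 11 ∨ a = 12 ∨ a = 13 ∨ a = 14) with h | h | h | h | h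
  · have h1 : ∀ q < 11, 4 ≤ PL q ∧ TL.getD q 0 + 3 = PL q := by decide
    have h2 := h1 a h
    rw [F_left h, SL, if_neg (by omega), if_neg (by omega), if_neg (by omega), if_neg (by omega),
      ← h2.2]
    push_cast
    ring
  · subst h
    simp [PL, PLl, SL]
  · subst h
    simp [PL, PLl, SL]
  · subst h
    simp [PL, PLl, SL]
  · subst h
    simp [PL, PLl, SL]

theorem ltR {t m : ℕ} (hm : m = 16 * t + 15) :
    ∀ a < 15, ∀ b < 15, (F m (7 + m + a) < F m (7 + m + b) ↔ PR a < PR b) :=
  model_lt (SR m) 15 (SR_mono hm) (fun a => F m (7 + m + a)) PR PR_lt (yR m)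

theorem ltL {t m : ℕ} (hm : m = 16 * t + 15) :
    ∀ a < 15, ∀ b < 15, (F m (0 + a) < F m (0 + b) ↔ PL a < PL b) := by
  have := model_lt (SL m) 15 (SL_mono hm) (fun a => F m a) PL PL_lt (yL m)
  intro a ha b hb
  rw [Nat.zero_add, Nat.zero_add]
  exact this a ha b hb

/-- Insertion near the right end always creates a square. -/
theorem blockR {t m : ℕ} (hm : m = 16 * t + 15) (x : ℚ) (hx : ∀ i < m + 22, F m i ≠ x) (p : ℕ)
    (hp : 13 ≤ p) (hp2 : p ≤ 15) :
    ∃ i l, 2 ≤ l ∧ i + 2 * l ≤ 16 ∧ Sq (ins (fun a => F m (7 + m + a)) p x) i l := by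
  obtain ⟨q, hq, hq2⟩ := exists_rank (SR m) 15 (SR_mono hm) x
  have key := ins_lt (fun a => F m (7 + m + a)) PR 15 (ltR hm) x q
    (fun a ha => by
      show F m (7 + m + a) < x ↔ _
      rw [yR m a ha]
      exact hq2 _ (PR_lt a ha))
    (fun a ha => hx _ (by omega)) p hp2
  obtain ⟨i, _, l, _, h1, h2, h3⟩ := chkR q (by omega) p (by omega) hp
  refine ⟨i, l, h1, h2, ?_⟩
  have := (sq_transfer (ins (fun a => F m (7 + m + a)) p x) 0 16 (insN PR p q)
    (fun a ha b hb => by
      rw [Nat.zero_add, Nat.zero_add]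
      exact key a ha b hb) i l h2).2 h3
  rwa [Nat.zero_add] at this

/-- Insertion near the left end always creates a square. -/
theorem blockL {t m : ℕ} (hm : m = 16 * t + 15) (x : ℚ) (hx : ∀ i < m + 22, F m i ≠ x) (p : ℕ)
    (hp : p ≤ 2) :
    ∃ i l, 2 ≤ l ∧ i + 2 * l ≤ 16 ∧ Sq (ins (F m) p x) i l := by
  obtain ⟨q, hq, hq2⟩ := exists_rank (SL m) 15 (SL_mono hm) x
  have key := ins_lt (F m) PL 15
    (fun a ha b hb => by simpa only [Nat.zero_add] using ltL hm a ha b hb) x q
    (fun a ha => by
      rw [yL m a ha]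
      exact hq2 _ (PL_lt a ha))
    (fun a ha => hx _ (by omega)) p (by omega)
  obtain ⟨i, _, l, _, h1, h2, h3⟩ := chkL q (by omega) p (by omega)
  refine ⟨i, l, h1, h2, ?_⟩
  have := (sq_transfer (ins (F m) p x) 0 16 (insN PL p q)
    (fun a ha b hb => by
      rw [Nat.zero_add, Nat.zero_add]
      exact key a ha b hb) i l h2).2 h3
  rwa [Nat.zero_add] at this

end Pool.Agent.W957.Ext
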