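import Mathlib
import Pool.Agent.W957.Ext3

set_option autoImplicit false

namespace Pool.Agent.W957.Ext

theorem end1 {t m : ℕ} (hm : m = 16 * t + 15) : F m (5 + m) < F m (7 + m) := by
  rw [F_mid (by omega) (by omega), F_mid (by omega) (by omega),
    show 5 + m - 10 = 16 * t + 10 by omega, show 7 + m - 10 = 16 * t + 12 by omega]
  exact f_end1 t

theorem end2 {t m : ℕ} (hm : m = 16 * t + 15) : F m (7 + m) < F m (9 + m) := by
  rw [F_mid (by omega) (by omega), F_mid (by omega) (by omega),
    show 7 + m - 10 = 16 * t + 12 by omega, show 9 + m - 10 = 16 * t + 14 by omega]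
  exact f_end2 t

theorem F_nosq {t m : ℕ} (hm : m = 16 * t + 15) (ht : 1 ≤ t) (i l : ℕ) (hl : 2 ≤ l)
    (hil : i + 2 * l ≤ m + 22) : ¬ Sq (F m) i l := by
  intro h
  have hm4 : m % 4 = 3 := by omega
  have h1 := h 0 (by omega) 1 (by omega)
  simp only [add_zero] at h1
  rw [F_sign hm4 (by omega), F_sign hm4 (by omega)] at h1
  have hl4 : l % 4 = 0 := by
    rcases (by omega : l = 2 ∨ 3 ≤ l) with h2 | h2
    · omega
    · have h3 := h 1 (by omega) 2 (by omega)
      rw [show i + 2 = i + 1 + 1 by omega, show i + l + 2 = i + l + 1 + 1 by omega,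
        F_sign hm4 (by omega), F_sign hm4 (by omega)] at h3
      omega
  clear h1
  by_cases hR : 12 + m ≤ i + 2 * l
  · -- the window reaches the right end
    rcases (by omega : i + l ≤ 8 + m ∨ i + l = 9 + m ∨ i + l = 10 + m ∨ 11 + m ≤ i + l)
      with hb | hb | hb | hb
    · have h2 := h (8 + m - (i + l)) (by omega) (11 + m - (i + l)) (by omega)
      rw [show i + l + (8 + m - (i + l)) = 8 + m by omega,
        show i + l + (11 + m - (i + l)) = 11 + m by omega,
        show i + (8 + m - (i + l)) = 8 + m - l by omega,
        show i + (11 + m - (i + l)) = 11 + m - l by omega] at h2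
      have h3 := h2.1 (F_low_mid (by omega) (by omega) (by omega) (by omega) (by omega) (by omega))
      have h4 := (F_mid_bd (m := m) (i := 8 + m) (by omega) (by omega)).1
      have h5 := F_right_bd' (m := m) (i := 11 + m) (by omega) (by omega)
      linarith
    · rcases (by omega : l = 4 ∨ 8 ≤ l) with h6 | h6
      · have h2 := h 0 (by omega) 2 (by omega)
        rw [show i + 0 = 5 + m by omega, show i + 2 = 7 + m by omega,
          show i + l + 0 = 9 + m by omega, show i + l + 2 = 11 + m by omega] at h2
        have h3 := h2.1 (end1 hm)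
        have h4 := (F_mid_bd (m := m) (i := 9 + m) (by omega) (by omega)).1
        have h5 := F_right_bd' (m := m) (i := 11 + m) (by omega) (by omega)
        linarith
      · have h2 := h 0 (by omega) 5 (by omega)
        rw [show i + 0 = i by omega, show i + l + 0 = 9 + m by omega,
          show i + l + 5 = 14 + m by omega] at h2
        have h3 := h2.1
          (F_mid_high (by omega) (by omega) (by omega) (by omega) (by omega) (by omega))
        have h4 := (F_mid_bd (m := m) (i := 9 + m) (by omega) (by omega)).1
        have h5 := F_right_bd' (m := m) (i := 14 + m) (by omega) (by omega)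
        linarith
    · rcases (by omega : l = 4 ∨ 8 ≤ l) with h6 | h6
      · have h2 := h 1 (by omega) 3 (by omega)
        rw [show i + 1 = 7 + m by omega, show i + 3 = 9 + m by omega,
          show i + l + 1 = 11 + m + 0 by omega, show i + l + 3 = 11 + m + 2 by omega] at h2
        have h3 := h2.1 (end2 hm)
        rw [F_right, F_right] at h3
        simp [TR] at h3
        norm_num at h3
      · have h2 := h 4 (by omega) 7 (by omega)
        rw [show i + l + 4 = 11 + m + 3 by omega, show i + l + 7 = 11 + m + 6 by omega] at h2
        have h3 : F m (11 + m + 3) < F m (11 + m + 6) := by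
          rw [F_right, F_right]
          simp [TR]
          norm_num
        have h4 := h2.2 h3
        have h5 : F m (i + 7) < F m (i + 4) :=
          F_mid_high (by omega) (by omega) (by omega) (by omega) (by omega) (by omega)
        linarith
    · rcases (by omega : l = 4 ∨ l = 8) with h6 | h6
      · subst h6
        obtain ⟨i', hi'⟩ : ∃ i', i = 7 + m + i' := ⟨i - (7 + m), by omega⟩
        subst hi'
        exact chkR4 i' (by omega)
          ((sq_transfer (F m) (7 + m) 15 PR (ltR hm) i' 4 (by omega)).1 h)
      · have h2 := h (14 + m - (i + l)) (by omega) (17 + m - (i + l)) (by omega)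
        rw [show i + l + (14 + m - (i + l)) = 11 + m + 3 by omega,
          show i + l + (17 + m - (i + l)) = 11 + m + 6 by omega,
          show i + (14 + m - (i + l)) = 6 + m by omega,
          show i + (17 + m - (i + l)) = 9 + m by omega] at h2
        have h3 : F m (11 + m + 3) < F m (11 + m + 6) := by
          rw [F_right, F_right]
          simp [TR]
          norm_num
        have h4 := h2.2 h3
        have h5 : F m (9 + m) < F m (6 + m) :=
          F_mid_high (by omega) (by omega) (by omega) (by omega) (by omega) (by omega)
        linarith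
  · by_cases hL : 11 ≤ i
    · -- inside the middle part
      apply f_nosq l hl (i - 10)
      intro a ha b hb
      have h2 := h a ha b hb
      rw [F_mid (by omega) (by omega), F_mid (by omega) (by omega), F_mid (by omega) (by omega),
        F_mid (by omega) (by omega)] at h2
      rw [show i - 10 + a = i + a - 10 by omega, show i - 10 + b = i + b - 10 by omega,
        show i - 10 + l + a = i + l + a - 10 by omega,
        show i - 10 + l + b = i + l + b - 10 by omega]
      exact h2
    · -- the window reaches the left end
      have F7 : F m 4 < F m 7 := by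
        rw [F_left (by omega), F_left (by omega)]
        simp [TL]
        norm_num
      rcases (by omega : 14 ≤ i + l ∨ i + l = 13 ∨ i + l = 12 ∨ i + l ≤ 11) with hb | hb | hb | hb
      · have h2 := h (10 - i) (by omega) (13 - i) (by omega)
        rw [show i + (10 - i) = 10 by omega, show i + (13 - i) = 13 by omega,
          show i + l + (10 - i) = 10 + l by omega, show i + l + (13 - i) = 13 + l by omega] at h2
        have h3 := h2.2
          (F_mid_high (by omega) (by omega) (by omega) (by omega) (by omega) (by omega))
        have h4 := (F_mid_bd (m := m) (i := 13) (by omega) (by omega)).2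
        have h5 := F_left_bd (m := m) (i := 10) (by omega)
        linarith
      · rcases (by omega : l = 4 ∨ 8 ≤ l) with h6 | h6
        · have h2 := h 1 (by omega) 3 (by omega)
          rw [show i + 1 = 10 by omega, show i + 3 = 12 by omega,
            show i + l + 1 = 14 by omega, show i + l + 3 = 16 by omega] at h2
          have h3 : F m 14 < F m 16 := by
            rw [F_mid (by omega) (by omega), F_mid (by omega) (by omega),
              show 14 - 10 = 4 by norm_num, show 16 - 10 = 6 by norm_num, f_four, f_six]
            norm_num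
          have h3 := h2.2 h3
          have h4 := (F_mid_bd (m := m) (i := 12) (by omega) (by omega)).2
          have h5 := F_left_bd (m := m) (i := 10) (by omega)
          linarith
        · have h2 := h (7 - i) (by omega) (12 - i) (by omega)
          rw [show i + (7 - i) = 7 by omega, show i + (12 - i) = 12 by omega,
            show i + l + (7 - i) = 7 + l by omega, show i + l + (12 - i) = 12 + l by omega] at h2
          have h3 := h2.2
            (F_low_mid (by omega) (by omega) (by omega) (by omega) (by omega) (by omega))
          have h4 := (F_mid_bd (m := m) (i := 12) (by omega) (by omega)).2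
          have h5 := F_left_bd (m := m) (i := 7) (by omega)
          linarith
      · rcases (by omega : l = 4 ∨ 8 ≤ l) with h6 | h6
        · have h2 := h 0 (by omega) 2 (by omega)
          rw [show i + 0 = 8 by omega, show i + 2 = 10 by omega,
            show i + l + 0 = 12 by omega, show i + l + 2 = 14 by omega] at h2
          have h3 : F m 12 < F m 14 := by
            rw [F_mid (by omega) (by omega), F_mid (by omega) (by omega),
              show 14 - 10 = 4 by norm_num, show 12 - 10 = 2 by norm_num, f_four, f_two]
            norm_num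
          have h3 := h2.2 h3
          rw [F_left (by omega), F_left (by omega)] at h3
          simp [TL] at h3
          norm_num at h3
        · have h2 := h (4 - i) (by omega) (7 - i) (by omega)
          rw [show i + (4 - i) = 4 by omega, show i + (7 - i) = 7 by omega,
            show i + l + (4 - i) = 4 + l by omega, show i + l + (7 - i) = 7 + l by omega] at h2
          have h3 := h2.1 F7
          have h5 : F m (7 + l) < F m (4 + l) :=
            F_low_mid (by omega) (by omega) (by omega) (by omega) (by omega) (by omega)
          linarith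
      · rcases (by omega : l = 4 ∨ l = 8) with h6 | h6
        · subst h6
          have h7 := sq_transfer (F m) 0 15 PL (ltL hm) i 4 (by omega)
          rw [Nat.zero_add] at h7
          exact chkL4 i (by omega) (h7.1 h)
        · have h2 := h (4 - i) (by omega) (7 - i) (by omega)
          rw [show i + (4 - i) = 4 by omega, show i + (7 - i) = 7 by omega,
            show i + l + (4 - i) = 12 by omega, show i + l + (7 - i) = 15 by omega] at h2
          have h3 := h2.1 F7
          have h5 : F m 15 < F m 12 :=
            F_low_mid (by omega) (by omega) (by omega) (by omega) (by omega) (by omega)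
          linarith

/-- Insertion at a slot away from the ends creates a square of block length two. -/
theorem blockM {m : ℕ} (hm4 : m % 4 = 3) (x : ℚ) (hx : ∀ i < m + 22, F m i ≠ x) (p : ℕ)
    (hp : 3 ≤ p) (hp2 : p ≤ m + 19) :
    ∃ i, i + 4 ≤ m + 23 ∧ Sq (ins (F m) p x) i 2 := by
  -- a window of length four is a square as soon as the two steps agree
  have key : ∀ i, i + 4 ≤ m + 23 →
      (ins (F m) p x i < ins (F m) p x (i + 1) ↔ ins (F m) p x (i + 2) < ins (F m) p x (i + 3)) →
      ins (F m) p x i ≠ ins (F m) p x (i + 1) → ins (F m) p x (i + 2) ≠ ins (F m) p x (i + 3) →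
      Sq (ins (F m) p x) i 2 := by
    intro i _ h1 h2 h3 a ha b hb
    have ha' : a = 0 ∨ a = 1 := by omega
    have hb' : b = 0 ∨ b = 1 := by omega
    rcases ha' with rfl | rfl <;> rcases hb' with rfl | rfl
    · simp
    · simpa [Nat.add_assoc] using h1
    · simp only [Nat.add_zero, show i + 2 + 1 = i + 3 by omega]
      constructor
      · intro h4
        rcases lt_or_gt_of_ne h3 with h5 | h5
        · exact absurd (h1.2 h5) (not_lt.2 h4.le)
        · exact h5
      · intro h4
        rcases lt_or_gt_of_ne h2 with h5 | h5
        · exact absurd (h1.1 h5) (not_lt.2 h4.le)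
        · exact h5
    · simp
  have v1 : ∀ i, i < p → ins (F m) p x i = F m i := fun i hi => by rw [ins, if_pos hi]
  have v2 : ins (F m) p x p = x := by rw [ins, if_neg (by omega), if_pos rfl]
  have v3 : ∀ i, p ≤ i → ins (F m) p x (i + 1) = F m i := fun i hi => by
    rw [ins, if_neg (by omega), if_neg (by omega), Nat.add_sub_cancel]
  have Fne : ∀ i, i + 1 < m + 22 → F m i ≠ F m (i + 1) := fun i hi h => by
    have := F_inj (by omega) hi h
    omega
  obtain ⟨c, rfl⟩ : ∃ c, p = c + 3 := ⟨p - 3, by omega⟩
  have w0 : ins (F m) (c + 3) x c = F m c := v1 _ (by omega)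
  have w1 : ins (F m) (c + 3) x (c + 1) = F m (c + 1) := v1 _ (by omega)
  have w2 : ins (F m) (c + 3) x (c + 2) = F m (c + 2) := v1 _ (by omega)
  have w4 : ins (F m) (c + 3) x (c + 4) = F m (c + 3) := v3 _ (by omega)
  have w5 : ins (F m) (c + 3) x (c + 5) = F m (c + 4) := v3 _ (by omega)
  have w6 : ins (F m) (c + 3) x (c + 6) = F m (c + 5) := v3 _ (by omega)
  by_contra hno
  push Not at hno
  have n1 := fun h => hno c (by omega) (key c (by omega) h (by rw [w0, w1]; exact Fne c (by omega))
    (by rw [w2, v2]; exact hx _ (by omega)))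
  have n2 := fun h => hno (c + 1) (by omega) (key (c + 1) (by omega) h
    (by rw [show c + 1 + 1 = c + 2 by omega, w1, w2]; exact Fne (c + 1) (by omega))
    (by rw [show c + 1 + 2 = c + 3 by omega, show c + 1 + 3 = c + 4 by omega, v2, w4];
        exact (hx _ (by omega)).symm))
  have n3 := fun h => hno (c + 2) (by omega) (key (c + 2) (by omega) h
    (by rw [show c + 2 + 1 = c + 3 by omega, v2, w2]; exact hx _ (by omega))
    (by rw [show c + 2 + 2 = c + 4 by omega, show c + 2 + 3 = c + 5 by omega, w4, w5];
        exact Fne (c + 3) (by omega)))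
  have n4 := fun h => hno (c + 3) (by omega) (key (c + 3) (by omega) h
    (by rw [show c + 3 + 1 = c + 4 by omega, v2, w4]; exact (hx _ (by omega)).symm)
    (by rw [show c + 3 + 2 = c + 5 by omega, show c + 3 + 3 = c + 6 by omega, w5, w6];
        exact Fne (c + 4) (by omega)))
  rw [w0, w1, w2, v2, F_sign hm4 (by omega)] at n1
  rw [show c + 1 + 1 = c + 2 by omega, show c + 1 + 2 = c + 3 by omega,
    show c + 1 + 3 = c + 4 by omega, w1, w2, v2, w4, show c + 2 = c + 1 + 1 by omega,
    F_sign hm4 (by omega)] at n2
  rw [show c + 2 + 1 = c + 3 by omega, show c + 2 + 2 = c + 4 by omega,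
    show c + 2 + 3 = c + 5 by omega, w2, v2, w4, w5, show c + 4 = c + 3 + 1 by omega,
    F_sign hm4 (by omega)] at n3
  rw [show c + 3 + 1 = c + 4 by omega, show c + 3 + 2 = c + 5 by omega,
    show c + 3 + 3 = c + 6 by omega, v2, w4, w5, w6, show c + 5 = c + 4 + 1 by omega,
    F_sign hm4 (by omega)] at n4
  by_cases g1 : F m (c + 2) < x <;> by_cases g2 : x < F m (c + 3)
  all_goals simp only [g1, g2, iff_true, iff_false, true_iff, false_iff, imp_false, not_not] at n1 n2 n3 n4
  all_goals omega

theorem getD_map {n i : ℕ} (g : ℕ → ℚ) (h : i < n) :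
    ((List.range n).map g).getD i 0 = g i := by
  simp [List.getD, h]

theorem getD_ins {n i p : ℕ} (g : ℕ → ℚ) (x : ℚ) (hp : p ≤ n) (h : i < n + 1) :
    (((List.range n).map g).take p ++ x :: ((List.range n).map g).drop p).getD i 0 = ins g p x i := by
  unfold ins
  rcases lt_trichotomy i p with h1 | h1 | h1
  · rw [if_pos h1, List.getD_append _ _ _ _ (by simp; omega)]
    simp [List.getD, h1, show i < n by omega]
  · subst h1
    rw [if_neg (lt_irrefl _), if_pos rfl, List.getD_append_right _ _ _ _ (by simp)]
    simp [hp]
  · rw [if_neg (by omega), if_neg (by omega), List.getD_append_right _ _ _ _ (by simp; omega)]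
    simp only [List.length_take, List.length_map, List.length_range, Nat.min_eq_left hp]
    obtain ⟨k, rfl⟩ : ∃ k, i = p + 1 + k := ⟨i - (p + 1), by omega⟩
    rw [show p + 1 + k - p = k + 1 by omega, show p + 1 + k - 1 = p + k by omega]
    simp [List.getD, show p + k < n by omega]

theorem main (N : ℕ) : ∃ w : List ℚ, N ≤ w.length ∧ w.Nodup ∧
      (¬ ∃ i ℓ : ℕ, 2 ≤ ℓ ∧ i + 2 * ℓ ≤ w.length ∧
          ∀ a < ℓ, ∀ b < ℓ,
            (w.getD (i + a) 0 < w.getD (i + b) 0 ↔
              w.getD (i + ℓ + a) 0 < w.getD (i + ℓ + b) 0)) ∧
      ∀ p : ℕ, p ≤ w.length → ∀ x : ℚ, x ∉ w →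
        ∃ i ℓ : ℕ, 2 ≤ ℓ ∧ i + 2 * ℓ ≤ w.length + 1 ∧
          ∀ a < ℓ, ∀ b < ℓ,
            ((w.take p ++ x :: w.drop p).getD (i + a) 0 <
                (w.take p ++ x :: w.drop p).getD (i + b) 0 ↔
              (w.take p ++ x :: w.drop p).getD (i + ℓ + a) 0 <
                (w.take p ++ x :: w.drop p).getD (i + ℓ + b) 0) := by
  obtain ⟨m, hm⟩ : ∃ m, m = 16 * (N + 1) + 15 := ⟨_, rfl⟩
  have hlen : ((List.range (m + 22)).map (F m)).length = m + 22 := by simp
  refine ⟨(List.range (m + 22)).map (F m), by rw [hlen]; omega, ?_, ?_, ?_⟩
  · apply List.Nodup.map_on _ List.nodup_range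
    intro a ha b hb h
    rw [List.mem_range] at ha hb
    exact F_inj ha hb h
  · rintro ⟨i, l, hl, hil, h⟩
    rw [hlen] at hil
    apply F_nosq hm (by omega) i l hl hil
    intro a ha b hb
    have := h a ha b hb
    rwa [getD_map _ (by omega), getD_map _ (by omega), getD_map _ (by omega),
      getD_map _ (by omega)] at this
  · intro p hp x hx
    rw [hlen] at hp ⊢
    have hx2 : ∀ i < m + 22, F m i ≠ x := by
      intro i hi h
      apply hx
      rw [List.mem_map]
      exact ⟨i, List.mem_range.2 hi, h⟩
    -- it is enough to find a square of the inserted function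
    suffices h : ∃ i l, 2 ≤ l ∧ i + 2 * l ≤ m + 23 ∧ Sq (ins (F m) p x) i l by
      obtain ⟨i, l, h1, h2, h3⟩ := h
      refine ⟨i, l, h1, h2, ?_⟩
      intro a ha b hb
      rw [getD_ins _ _ hp (by omega), getD_ins _ _ hp (by omega), getD_ins _ _ hp (by omega),
        getD_ins _ _ hp (by omega)]
      exact h3 a ha b hb
    rcases (by omega : p ≤ 2 ∨ (3 ≤ p ∧ p ≤ m + 19) ∨ m + 20 ≤ p) with hp1 | ⟨hp1, hp2⟩ | hp1
    · obtain ⟨i, l, h1, h2, h3⟩ := blockL hm x hx2 p hp1
      exact ⟨i, l, h1, by omega, h3⟩
    · obtain ⟨i, h1, h2⟩ := blockM (by omega) x hx2 p hp1 hp2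
      exact ⟨i, 2, le_refl _, by omega, h2⟩
    · obtain ⟨i, l, h1, h2, h3⟩ := blockR hm x hx2 (p - (7 + m)) (by omega) (by omega)
      refine ⟨7 + m + i, l, h1, by omega, ?_⟩
      have tr : ∀ a, ins (F m) p x (7 + m + a) =
          ins (fun a => F m (7 + m + a)) (p - (7 + m)) x a := by
        intro a
        unfold ins
        rcases lt_trichotomy (7 + m + a) p with h4 | h4 | h4
        · rw [if_pos h4, if_pos (by omega)]
        · rw [if_neg (by omega), if_pos h4, if_neg (by omega), if_pos (by omega)]
        · rw [if_neg (by omega), if_neg (by omega), if_neg (by omega), if_neg (by omega)]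
          congr 1
          omega
      intro a ha b hb
      have h4 := h3 a ha b hb
      rw [← tr, ← tr, ← tr, ← tr] at h4
      simpa only [Nat.add_assoc] using h4

end Pool.Agent.W957.Ext
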