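import Pool.Agent.W957.Count2
import Pool.Agent.W957.Concrete

set_option autoImplicit false

namespace Pool.Agent.W957

open Finset

section
variable {V : Type} [Fintype V] [DecidableEq V] {r0 : V}

/-- the tree has a Siggers polymorphism -/
def HasSig (E : V → V → Bool) : Prop :=
  ∃ s : V → V → V → V → V, Sig s ∧ Pol (fun a b => E a b = true) s

open Classical in
noncomputable def Bad1 (r0 : V) (J D : ℕ) : Finset ((V → V) × (V → Bool)) :=
  univ.filter (fun q => IsF {r0} q.1 ∧ ∀ a, ¬ ((∀ i < D, q.1^[i] a ≠ r0) ∧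
    (4 * J : ℤ) ≤ |∑ i ∈ range D, sgn (q.2 (q.1^[i] a))|))

open Classical in
noncomputable def Bad2 (V : Type) [Fintype V] [DecidableEq V] (J : ℕ) :
    Finset ((V → V) × (V → Bool)) :=
  univ.filter (fun q : (V → V) × (V → Bool) => ∃ w, BadAt hardLimb.S J w q)

lemma mem_Bad1 {r0 : V} {J D : ℕ} {q : (V → V) × (V → Bool)} : q ∈ Bad1 r0 J D ↔
    IsF {r0} q.1 ∧ ∀ a, ¬ ((∀ i < D, q.1^[i] a ≠ r0) ∧
    (4 * J : ℤ) ≤ |∑ i ∈ range D, sgn (q.2 (q.1^[i] a))|) := by
  classical
  simp only [Bad1, Finset.mem_filter, Finset.mem_univ, true_and]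

lemma mem_Bad2 {J : ℕ} {q : (V → V) × (V → Bool)} : q ∈ Bad2 V J ↔
    ∃ w, BadAt hardLimb.S J w q := by
  classical
  simp only [Bad2, Finset.mem_filter, Finset.mem_univ, true_and]

theorem bad_cases {f : V → V} {o : V → Bool} (hf : IsF {r0} f) (h : HasSig (Eb f o)) {J : ℕ}
    (hJ : 0 < J) (D : ℕ) : (f, o) ∈ Bad1 r0 J D ∨ (f, o) ∈ Bad2 V J := by
  by_cases h1 : (f, o) ∈ Bad1 r0 J D
  · exact Or.inl h1
  · right
    have h2 : ∃ a D, (∀ i < D, f^[i] a ≠ r0) ∧
        (4 * J : ℤ) ≤ |∑ i ∈ range D, sgn (o (f^[i] a))| := by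
      by_contra hcon
      apply h1
      refine mem_Bad1.2 ⟨hf, ?_⟩
      intro a ha
      exact hcon ⟨a, D, ha⟩
    obtain ⟨s, hsig, hpol⟩ := h
    have hpol' : Pol (Ed f o) s := by
      intro x₁ x₂ x₃ x₄ y₁ y₂ y₃ y₄ e1 e2 e3 e4
      exact Eb_iff.1 (hpol _ _ _ _ _ _ _ _ (Eb_iff.2 e1) (Eb_iff.2 e2) (Eb_iff.2 e3)
        (Eb_iff.2 e4))
    obtain ⟨s', hp', hs', x, hx, hfix⟩ := det hf hpol' hsig h2 hJ
    refine mem_Bad2.2 ⟨fun i => f^[i.1] x, ?_⟩
    have hch : ∀ i ≤ 2 * J, chainOf (fun i : Fin (2 * J + 1) => f^[i.1] x) i = f^[i] x := by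
      intro i hi
      unfold chainOf
      rw [dif_pos (by omega)]
    have c1 : ∀ i < 2 * J, f (chainOf (fun i : Fin (2 * J + 1) => f^[i.1] x) i) =
        chainOf (fun i : Fin (2 * J + 1) => f^[i.1] x) (i + 1) := by
      intro i hi
      rw [hch i hi.le, hch (i + 1) hi, Function.iterate_succ_apply']
    refine ⟨c1, ?_, ?_⟩
    · intro i hi k hk hik
      rw [hch i hi.le, hch k hk.le] at hik
      exact chain_inj hf hx hi.le hk.le hik
    · intro τ h3 h4 j
      refine good_contra hardLimb hf hp' hs' (J := J) ?_ c1 ?_ τ h3 h4 j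
      · intro i hi
        rw [hch i hi.le]; exact hx i hi
      · intro i hi
        rw [hch i hi]; exact hfix i hi

open Classical in
theorem card_Bad1 (r0 : V) (J d : ℕ) :
    (Fintype.card V * (Bad1 r0 J (2 * d)).card) * 4 ^ d ≤
      (univ.filter (fun q : V × (V → V) => IsF {r0} q.2 ∧
        ∃ i < 2 * d, q.2^[i] q.1 = r0)).card * 2 ^ Fintype.card V * 4 ^ d +
      Fintype.card V * (FF ({r0} : Finset V)).card *
        ((4 * J) * Nat.centralBinom d * 2 ^ Fintype.card V) := by
  set n := Fintype.card V with hn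
  set Sh := univ.filter (fun q : V × (V → V) => IsF {r0} q.2 ∧
        ∃ i < 2 * d, q.2^[i] q.1 = r0) with hSh
  set Dp := univ.filter (fun q : V × (V → V) => IsF {r0} q.2 ∧
        ∀ i < 2 * d, q.2^[i] q.1 ≠ r0) with hDp
  -- the product set
  have h1 : n * (Bad1 r0 J (2 * d)).card ≤
      (Sh ×ˢ (univ : Finset (V → Bool))).card +
      (Dp.sigma (fun q => univ.filter (fun o : V → Bool =>
        |∑ i : Fin (2 * d), sgn (o (q.2^[i.1] q.1))| < 2 * ((2 * J : ℕ) : ℤ)))).card := by
    rw [hn, ← Finset.card_univ, ← Finset.card_product]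
    have hsub : ((univ : Finset V) ×ˢ (Bad1 r0 J (2 * d))) ⊆
        ((Sh ×ˢ (univ : Finset (V → Bool))).image (fun p => (p.1.1, (p.1.2, p.2)))) ∪
        ((Dp.sigma (fun q => univ.filter (fun o : V → Bool =>
          |∑ i : Fin (2 * d), sgn (o (q.2^[i.1] q.1))| < 2 * ((2 * J : ℕ) : ℤ)))).image
          (fun p => (p.1.1, (p.1.2, p.2)))) := by
      rintro ⟨a, f, o⟩ hp
      have hp2 := (Finset.mem_product.1 hp).2
      obtain ⟨hf, hno⟩ := mem_Bad1.1 hp2
      have hno := hno a
      rw [Finset.mem_union]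
      by_cases hdeep : ∀ i < 2 * d, f^[i] a ≠ r0
      · right
        refine Finset.mem_image.2 ⟨⟨(a, f), o⟩, ?_, rfl⟩
        rw [Finset.mem_sigma]
        refine ⟨Finset.mem_filter.2 ⟨Finset.mem_univ _, hf, hdeep⟩, ?_⟩
        refine Finset.mem_filter.2 ⟨Finset.mem_univ _, ?_⟩
        simp only at hno
        have h2 : ¬ ((4 * J : ℤ) ≤ |∑ i ∈ range (2 * d), sgn (o (f^[i] a))|) :=
          fun h => hno ⟨hdeep, h⟩
        rw [Finset.sum_range] at h2
        push_cast
        push Not at h2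
        linarith
      · left
        push Not at hdeep
        obtain ⟨i, hi, hi2⟩ := hdeep
        refine Finset.mem_image.2 ⟨((a, f), o), ?_, rfl⟩
        rw [Finset.mem_product]
        exact ⟨Finset.mem_filter.2 ⟨Finset.mem_univ _, hf, i, hi, hi2⟩, Finset.mem_univ _⟩
    refine (Finset.card_le_card hsub).trans ((Finset.card_union_le _ _).trans ?_)
    exact Nat.add_le_add Finset.card_image_le Finset.card_image_le
  have h2 : (Sh ×ˢ (univ : Finset (V → Bool))).card = Sh.card * 2 ^ n := by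
    rw [Finset.card_product, Finset.card_univ, Fintype.card_fun, Fintype.card_bool]
  have h3 : (Dp.sigma (fun q => univ.filter (fun o : V → Bool =>
        |∑ i : Fin (2 * d), sgn (o (q.2^[i.1] q.1))| < 2 * ((2 * J : ℕ) : ℤ)))).card * 4 ^ d ≤
      Dp.card * ((4 * J) * Nat.centralBinom d * 2 ^ n) := by
    rw [Finset.card_sigma, Finset.sum_mul, ← smul_eq_mul (a := Dp.card), ← Finset.sum_const]
    refine Finset.sum_le_sum ?_
    rintro ⟨a, f⟩ hq
    obtain ⟨hf, hdeep⟩ := (Finset.mem_filter.1 hq).2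
    simp only at hf hdeep ⊢
    have hinj : Function.Injective (fun i : Fin (2 * d) => f^[i.1] a) := by
      intro i k hik
      exact Fin.ext (chain_inj hf hdeep i.2.le k.2.le hik)
    have h4 := card_restrict hinj (fun x => |∑ i, sgn (x i)| < 2 * ((2 * J : ℕ) : ℤ))
    have h5 : (4 : ℕ) ^ d = 2 ^ (2 * d) := by rw [pow_mul]; norm_num
    beta_reduce at h4
    rw [h5]
    have h6 := anti_conc d (2 * J)
    have h7 : (univ.filter (fun x : Fin (2 * d) → Bool => |∑ i, sgn (x i)| <
        2 * ((2 * J : ℕ) : ℤ))).card * 2 ^ n ≤ (4 * J) * Nat.centralBinom d * 2 ^ n := by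
      apply Nat.mul_le_mul_right
      calc _ ≤ _ := h6
        _ = _ := by ring
    refine le_trans (le_of_eq ?_) h7
    refine Eq.trans ?_ (h4.trans ?_)
    · congr!
    · congr!
  have h4 : Dp.card ≤ n * (FF ({r0} : Finset V)).card := by
    rw [hn, ← Finset.card_univ, ← Finset.card_product]
    apply Finset.card_le_card
    rintro ⟨a, f⟩ hq
    obtain ⟨hf, _⟩ := (Finset.mem_filter.1 hq).2
    exact Finset.mem_product.2 ⟨Finset.mem_univ _, mem_FF.2 hf⟩
  calc n * (Bad1 r0 J (2 * d)).card * 4 ^ d ≤ _ := Nat.mul_le_mul_right _ h1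
    _ = (Sh ×ˢ (univ : Finset (V → Bool))).card * 4 ^ d +
      (Dp.sigma (fun q => univ.filter (fun o : V → Bool =>
        |∑ i : Fin (2 * d), sgn (o (q.2^[i.1] q.1))| < 2 * ((2 * J : ℕ) : ℤ)))).card * 4 ^ d := by
        rw [add_mul]
    _ ≤ Sh.card * 2 ^ n * 4 ^ d + Dp.card * ((4 * J) * Nat.centralBinom d * 2 ^ n) := by
        rw [h2]; exact Nat.add_le_add_left h3 _
    _ ≤ _ := by gcongr

open Classical in
theorem trees_lower (r0 : V) :
    (FF ({r0} : Finset V)).card * 2 ^ Fintype.card V ≤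
      2 * (univ.filter (fun E : V → V → Bool => OTree E)).card := by
  -- bit vectors vanishing at the root
  have h0 : (univ.filter (fun o : V → Bool => o r0 = false)).card * 2 = 2 ^ Fintype.card V := by
    have h := card_restrict (D := 1) (v := fun _ : Fin 1 => r0)
      (fun a b _ => Subsingleton.elim a b) (fun x => x 0 = false)
    have h2 : (univ.filter (fun x : Fin 1 → Bool => x 0 = false)).card = 1 := by decide
    have h' : (univ.filter (fun o : V → Bool => o r0 = false)).card * 2 ^ 1 =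
        1 * 2 ^ Fintype.card V := by
      rw [← h2]
      convert h
    simpa using h'
  have h1 : ((FF ({r0} : Finset V)) ×ˢ (univ.filter (fun o : V → Bool => o r0 = false))).card ≤
      (univ.filter (fun E : V → V → Bool => OTree E)).card := by
    refine Finset.card_le_card_of_injOn (fun q => Eb q.1 q.2) ?_ ?_
    · rintro ⟨f, o⟩ hq
      have hq := Finset.mem_product.1 hq
      exact Finset.mem_filter.2 ⟨Finset.mem_univ _, otree_of_forest (mem_FF.1 hq.1) o⟩
    · rintro ⟨f, o⟩ hq ⟨f', o'⟩ hq' h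
      have hq := Finset.mem_product.1 hq
      have hq' := Finset.mem_product.1 hq'
      obtain ⟨h2, h3⟩ := forest_inj (mem_FF.1 hq.1) (mem_FF.1 hq'.1)
        (Finset.mem_filter.1 hq.2).2 (Finset.mem_filter.1 hq'.2).2 h
      exact Prod.ext h2 h3
  rw [Finset.card_product] at h1
  calc (FF ({r0} : Finset V)).card * 2 ^ Fintype.card V
      = 2 * ((FF ({r0} : Finset V)).card *
        (univ.filter (fun o : V → Bool => o r0 = false)).card) := by rw [← h0]; ring
    _ ≤ _ := Nat.mul_le_mul_left _ h1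

open Classical in
theorem bad_upper (r0 : V) {J : ℕ} (hJ : 0 < J) (D : ℕ) :
    (univ.filter (fun E : V → V → Bool => OTree E ∧ HasSig E)).card ≤
      (Bad1 r0 J D).card + (Bad2 V J).card := by
  have h1 : (univ.filter (fun E : V → V → Bool => OTree E ∧ HasSig E)) ⊆
      (Bad1 r0 J D ∪ Bad2 V J).image (fun q => Eb q.1 q.2) := by
    intro E hE
    obtain ⟨hE1, hE2⟩ := (Finset.mem_filter.1 hE).2
    obtain ⟨f, o, hf, rfl⟩ := exists_forest r0 hE1
    refine Finset.mem_image.2 ⟨(f, o), ?_, rfl⟩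
    rw [Finset.mem_union]
    exact bad_cases hf hE2 hJ D
  exact (Finset.card_le_card h1).trans (Finset.card_image_le.trans (Finset.card_union_le _ _))

end

end Pool.Agent.W957
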