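import Mathlib

set_option autoImplicit false

namespace Pool.Agent.W957

open Finset

variable {V : Type*} [Fintype V] [DecidableEq V]

/-- `f` is a forest function with root set `R`: it fixes the roots and every point reaches a root. -/
def IsF (R : Finset V) (f : V → V) : Prop :=
  (∀ r ∈ R, f r = r) ∧ ∀ x, ∃ k, f^[k] x ∈ R

open Classical in
/-- the set of forest functions with root set `R` -/
noncomputable def FF (R : Finset V) : Finset (V → V) := univ.filter (IsF R)

def Rch (f : V → V) (y x : V) : Prop := ∃ k, f^[k] y = x

lemma mem_FF {R : Finset V} {f : V → V} : f ∈ FF R ↔ IsF R f := by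
  classical
  simp [FF]

omit [Fintype V] in
lemma iter_root {R : Finset V} {f : V → V} (h : ∀ r ∈ R, f r = r) {r : V} (hr : r ∈ R) (k : ℕ) :
    f^[k] r = r := by
  induction k with
  | zero => rfl
  | succ k ih => rw [Function.iterate_succ_apply, h r hr, ih]

omit [Fintype V] in
/-- a periodic point of a forest function is a root -/
lemma periodic_mem {R : Finset V} {f : V → V} (h : IsF R f) {x : V} {k : ℕ} (hk : 0 < k)
    (hx : f^[k] x = x) : x ∈ R := by
  obtain ⟨j, hj⟩ := h.2 x
  -- f^[k*j] x = x, and k*j ≥ j
  have h1 : f^[k * j] x = x := by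
    rw [Function.iterate_mul]
    have : ∀ j, (f^[k])^[j] x = x := by
      intro j
      induction j with
      | zero => rfl
      | succ j ih => rw [Function.iterate_succ_apply, hx, ih]
    exact this j
  have h2 : k * j = (k * j - j) + j := by
    have : j ≤ k * j := Nat.le_mul_of_pos_left j hk
    omega
  rw [h2, Function.iterate_add_apply, iter_root h.1 hj] at h1
  rw [← h1]; exact hj

omit [Fintype V] in
lemma update_down {R : Finset V} {f : V → V} {x : V} (hx : x ∉ R) (h : IsF R f) :
    IsF (insert x R) (Function.update f x x) ∧ ¬ Rch (Function.update f x x) (f x) x := by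
  refine ⟨⟨?_, ?_⟩, ?_⟩
  · intro r hr
    rcases Finset.mem_insert.1 hr with rfl | hr
    · simp
    · have : r ≠ x := fun e => hx (e ▸ hr)
      rw [Function.update_of_ne this]; exact h.1 r hr
  · intro z
    obtain ⟨k, hk⟩ := h.2 z
    induction k generalizing z with
    | zero => exact ⟨0, Finset.mem_insert_of_mem hk⟩
    | succ k ih =>
      by_cases hz : z = x
      · exact ⟨0, by simp [hz]⟩
      · obtain ⟨j, hj⟩ := ih (f z) hk
        refine ⟨j + 1, ?_⟩
        rw [Function.iterate_succ_apply, Function.update_of_ne hz]
        exact hj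
  · rintro ⟨k, hk⟩
    -- then some iterate of f maps f x to x
    have key : ∀ k z, (Function.update f x x)^[k] z = x → ∃ j, f^[j] z = x := by
      intro k
      induction k with
      | zero => intro z hz; exact ⟨0, hz⟩
      | succ k ih =>
        intro z hz
        by_cases hzx : z = x
        · exact ⟨0, hzx⟩
        · rw [Function.iterate_succ_apply, Function.update_of_ne hzx] at hz
          obtain ⟨j, hj⟩ := ih _ hz
          exact ⟨j + 1, hj⟩
    obtain ⟨j, hj⟩ := key k _ hk
    have : f^[j + 1] x = x := hj
    exact hx (periodic_mem h (Nat.succ_pos j) this)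

omit [Fintype V] in
lemma update_up {R : Finset V} {f : V → V} {x y : V} (hx : x ∉ R) (h : IsF (insert x R) f)
    (hy : ¬ Rch f y x) : IsF R (Function.update f x y) := by
  have hR : ∀ z, ¬ Rch f z x → ∃ j, (Function.update f x y)^[j] z ∈ R := by
    intro z hz
    obtain ⟨k, hk⟩ := h.2 z
    induction k generalizing z with
    | zero =>
      rcases Finset.mem_insert.1 hk with h0 | h0
      · exact absurd ⟨0, h0⟩ hz
      · exact ⟨0, h0⟩
    | succ k ih =>
      have hzx : z ≠ x := fun e => hz ⟨0, e⟩
      obtain ⟨j, hj⟩ := ih (f z) (fun ⟨i, hi⟩ => hz ⟨i + 1, hi⟩) hk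
      refine ⟨j + 1, ?_⟩
      rw [Function.iterate_succ_apply, Function.update_of_ne hzx]
      exact hj
  obtain ⟨jy, hjy⟩ := hR y hy
  refine ⟨?_, ?_⟩
  · intro r hr
    have : r ≠ x := fun e => hx (e ▸ hr)
    rw [Function.update_of_ne this]; exact h.1 r (Finset.mem_insert_of_mem hr)
  · intro z
    obtain ⟨k, hk⟩ := h.2 z
    induction k generalizing z with
    | zero =>
      rcases Finset.mem_insert.1 hk with h0 | h0
      · refine ⟨jy + 1, ?_⟩
        have h0' : z = x := h0
        rw [Function.iterate_succ_apply, h0', Function.update_self]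
        exact hjy
      · exact ⟨0, h0⟩
    | succ k ih =>
      by_cases hzx : z = x
      · refine ⟨jy + 1, ?_⟩
        rw [Function.iterate_succ_apply, hzx, Function.update_self]
        exact hjy
      · obtain ⟨j, hj⟩ := ih (f z) hk
        refine ⟨j + 1, ?_⟩
        rw [Function.iterate_succ_apply, Function.update_of_ne hzx]
        exact hj

open Classical in
lemma card_step {R : Finset V} {x : V} (hx : x ∉ R) :
    (FF R).card + ∑ f ∈ FF (insert x R), (univ.filter (fun y => Rch f y x)).card
      = Fintype.card V * (FF (insert x R)).card := by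
  have h1 : (FF R).card = ∑ f ∈ FF (insert x R), (univ.filter (fun y => ¬ Rch f y x)).card := by
    rw [← Finset.card_sigma]
    refine Finset.card_bij' (fun f _ => ⟨Function.update f x x, f x⟩)
      (fun p _ => Function.update p.1 x p.2) ?_ ?_ ?_ ?_
    · intro f hf
      have := update_down hx (mem_FF.1 hf)
      simp only [Finset.mem_sigma, Finset.mem_filter, Finset.mem_univ, true_and]
      exact ⟨mem_FF.2 this.1, this.2⟩
    · rintro ⟨f, y⟩ hp
      simp only [Finset.mem_sigma, Finset.mem_filter, Finset.mem_univ, true_and] at hp
      exact mem_FF.2 (update_up hx (mem_FF.1 hp.1) hp.2)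
    · intro f hf
      simp
    · rintro ⟨f, y⟩ hp
      simp only [Finset.mem_sigma, Finset.mem_filter, Finset.mem_univ, true_and] at hp
      have hfx : f x = x := (mem_FF.1 hp.1).1 x (Finset.mem_insert_self _ _)
      simp only [Function.update_self, Function.update_idem]
      congr 1
      funext z
      by_cases hz : z = x
      · rw [hz, Function.update_self, hfx]
      · rw [Function.update_of_ne hz]
  rw [h1, ← Finset.sum_add_distrib, Finset.sum_congr rfl (g := fun _ => Fintype.card V)]
  · rw [Finset.sum_const, smul_eq_mul, mul_comm]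
  · intro f _
    rw [add_comm, Finset.card_filter_add_card_filter_not]
    simp

omit [Fintype V] in
lemma conj_iterate (e : V ≃ V) (f : V → V) (k : ℕ) (x : V) :
    (fun z => e (f (e.symm z)))^[k] x = e (f^[k] (e.symm x)) := by
  induction k generalizing x with
  | zero => simp
  | succ k ih => rw [Function.iterate_succ_apply, ih, Function.iterate_succ_apply]; simp

lemma card_map (e : V ≃ V) (R : Finset V) : (FF (R.map e.toEmbedding)).card = (FF R).card := by
  classical
  symm
  refine Finset.card_bij' (fun f _ => fun z => e (f (e.symm z)))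
      (fun f _ => fun z => e.symm (f (e z))) ?_ ?_ ?_ ?_
  · intro f hf
    have hf := mem_FF.1 hf
    refine mem_FF.2 ⟨?_, ?_⟩
    · intro r hr
      obtain ⟨r', hr', rfl⟩ := Finset.mem_map.1 hr
      simp [hf.1 r' hr']
    · intro x
      obtain ⟨k, hk⟩ := hf.2 (e.symm x)
      refine ⟨k, ?_⟩
      rw [conj_iterate]
      exact Finset.mem_map_of_mem e.toEmbedding hk
  · intro f hf
    have hf := mem_FF.1 hf
    refine mem_FF.2 ⟨?_, ?_⟩
    · intro r hr
      have := hf.1 (e r) (Finset.mem_map_of_mem e.toEmbedding hr)
      simp [this]
    · intro x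
      obtain ⟨k, hk⟩ := hf.2 (e x)
      refine ⟨k, ?_⟩
      have h2 := conj_iterate e.symm f k x
      simp only [Equiv.symm_symm] at h2
      rw [h2]
      obtain ⟨r, hr, hre⟩ := Finset.mem_map.1 hk
      rw [← hre]; simpa using hr
  · intro f _; funext z; simp
  · intro f _; funext z; simp

open Classical in
lemma card_rec {R : Finset V} {x : V} (hx : x ∉ R) :
    (R.card + 1) * (FF R).card = R.card * (Fintype.card V * (FF (insert x R)).card) := by
  set R' := insert x R with hR'
  have hcard : R'.card = R.card + 1 := Finset.card_insert_of_notMem hx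
  -- for each a ∈ R', FF (R'.erase a) has the same size as FF R
  have h1 : ∀ a ∈ R', (FF (R'.erase a)).card = (FF R).card := by
    intro a ha
    have hmap : (R.map (Equiv.swap x a).toEmbedding) = R'.erase a := by
      ext z
      simp only [Finset.mem_map, Equiv.coe_toEmbedding, Finset.mem_erase]
      constructor
      · rintro ⟨w, hw, rfl⟩
        have hwx : w ≠ x := fun e => hx (e ▸ hw)
        by_cases hwa : w = a
        · subst hwa
          rw [Equiv.swap_apply_right]
          exact ⟨fun e => hwx e.symm, Finset.mem_insert_self _ _⟩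
        · rw [Equiv.swap_apply_of_ne_of_ne hwx hwa]
          exact ⟨hwa, Finset.mem_insert_of_mem hw⟩
      · rintro ⟨hza, hz⟩
        by_cases hzx : z = x
        · subst hzx
          refine ⟨a, ?_, Equiv.swap_apply_right _ _⟩
          rcases Finset.mem_insert.1 ha with h | h
          · exact absurd h.symm hza
          · exact h
        · refine ⟨z, ?_, Equiv.swap_apply_of_ne_of_ne hzx hza⟩
          rcases Finset.mem_insert.1 hz with h | h
          · exact absurd h hzx
          · exact h
    rw [← hmap, card_map]
  -- sum the step identity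
  have h2 : ∑ a ∈ R', ((FF (R'.erase a)).card +
      ∑ f ∈ FF R', (univ.filter (fun y => Rch f y a)).card)
      = R'.card * (Fintype.card V * (FF R').card) := by
    rw [Finset.sum_congr rfl (g := fun _ => Fintype.card V * (FF R').card)]
    · rw [Finset.sum_const, smul_eq_mul]
    · intro a ha
      have := card_step (R := R'.erase a) (x := a) (Finset.notMem_erase a R')
      rw [Finset.insert_erase ha] at this
      exact this
  rw [Finset.sum_add_distrib, Finset.sum_congr rfl h1, Finset.sum_const, smul_eq_mul,
    Finset.sum_comm] at h2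
  have h3 : ∀ f ∈ FF R', ∑ a ∈ R', (univ.filter (fun y => Rch f y a)).card = Fintype.card V := by
    intro f hf
    have hf := mem_FF.1 hf
    rw [← Finset.card_biUnion]
    · rw [← Finset.card_univ]
      congr 1
      ext y
      simp only [Finset.mem_biUnion, Finset.mem_filter, Finset.mem_univ, true_and, iff_true]
      obtain ⟨k, hk⟩ := hf.2 y
      exact ⟨_, hk, k, rfl⟩
    · intro a ha b hb hab
      rw [Function.onFun, Finset.disjoint_left]
      intro y hy hy'
      simp only [Finset.mem_filter, Finset.mem_univ, true_and] at hy hy'
      obtain ⟨k, hk⟩ := hy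
      obtain ⟨l, hl⟩ := hy'
      apply hab
      have h4 : f^[l + k] y = a := by
        rw [Function.iterate_add_apply, hk, iter_root hf.1 ha]
      have h5 : f^[k + l] y = b := by
        rw [Function.iterate_add_apply, hl, iter_root hf.1 hb]
      rw [← h4, ← h5, add_comm]
  rw [Finset.sum_congr rfl h3, Finset.sum_const, smul_eq_mul, hcard] at h2
  have h4 : (FF R').card * Fintype.card V = Fintype.card V * (FF R').card := mul_comm _ _
  rw [h4] at h2
  have h5 : (R.card + 1) * (Fintype.card V * (FF R').card) =
    R.card * (Fintype.card V * (FF R').card) + Fintype.card V * (FF R').card := by ring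
  omega

/-- **Generalised Cayley formula** -/
theorem card_FF (R : Finset V) :
    Fintype.card V * (FF R).card = R.card * Fintype.card V ^ (Fintype.card V - R.card) := by
  classical
  obtain ⟨d, hd⟩ : ∃ d, Fintype.card V - R.card = d := ⟨_, rfl⟩
  induction d generalizing R with
  | zero =>
    have h1 : R.card = Fintype.card V := le_antisymm (Finset.card_le_univ R) (by omega)
    have h2 : R = univ := (Finset.card_eq_iff_eq_univ R).1 h1
    subst h2
    have h3 : FF (univ : Finset V) = {id} := by
      ext f
      rw [mem_FF, Finset.mem_singleton]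
      constructor
      · intro h; funext x; exact h.1 x (Finset.mem_univ x)
      · rintro rfl; exact ⟨fun _ _ => rfl, fun x => ⟨0, Finset.mem_univ _⟩⟩
    rw [h3]; simp
  | succ d ih =>
    have h1 : R.card < Fintype.card V := by omega
    obtain ⟨x, hx⟩ : ∃ x, x ∉ R := by
      by_contra h
      push Not at h
      have : R = univ := Finset.eq_univ_iff_forall.2 h
      rw [this, Finset.card_univ] at h1
      exact lt_irrefl _ h1
    have h2 := ih (insert x R) (by rw [Finset.card_insert_of_notMem hx]; omega)
    have h3 := card_rec hx
    rw [Finset.card_insert_of_notMem hx] at h2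
    have h4 : Fintype.card V - (R.card + 1) = d := by omega
    rw [h4] at h2
    rw [hd]
    have h5 : (R.card + 1) * (Fintype.card V * (FF R).card) =
        (R.card + 1) * (R.card * Fintype.card V ^ (d + 1)) := by
      calc (R.card + 1) * (Fintype.card V * (FF R).card)
          = Fintype.card V * ((R.card + 1) * (FF R).card) := by ring
        _ = Fintype.card V * (R.card * (Fintype.card V * (FF (insert x R)).card)) := by rw [h3]
        _ = Fintype.card V * (R.card * ((R.card + 1) * Fintype.card V ^ d)) := by rw [h2]
        _ = _ := by ring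
    exact Nat.eq_of_mul_eq_mul_left (Nat.succ_pos _) h5

end Pool.Agent.W957
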