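import Mathlib

set_option autoImplicit false

namespace Pool.Agent.W957

open Finset

/-- shape of a limb: parent pointers (`none` = the centre) and orientation bits. -/
structure Limb where
  m : ℕ
  p : Fin m → Option (Fin m)
  bit : Fin m → Bool
  hp : ∀ a b, p a = some b → b < a

/-- configurations: free vertices `U`, centres `I`, other targets `X` -/
abbrev Conf (U I X : Type) := (U → U ⊕ (I ⊕ X)) × (U → Bool) × (I → Bool × Bool)

variable (S : Limb)

/-- target of the limb vertex `a` under the embedding `σ`, with centre `i` -/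
def tgt {U I X : Type} (σ : Fin S.m → U) (i : I) (a : Fin S.m) : U ⊕ (I ⊕ X) :=
  match S.p a with
  | none => Sum.inr (Sum.inl i)
  | some b => Sum.inl (σ b)

/-- the centre `i` is good via the embedding `σ` -/
def GoodVia {U I X : Type} (c : Conf U I X) (i : I) (σ : Fin S.m → U) : Prop :=
  c.2.2 i = (false, true) ∧ Function.Injective σ ∧ (∀ a, c.1 (σ a) = tgt S σ i a) ∧
    (∀ a, c.2.1 (σ a) = S.bit a) ∧
    (∀ x, x ∉ Set.range σ → c.1 x ≠ Sum.inr (Sum.inl i) ∧ ∀ a, c.1 x ≠ Sum.inl (σ a))

def Good {U I X : Type} (c : Conf U I X) (i : I) : Prop := ∃ σ, GoodVia S c i σ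

open Classical in
/-- number of configurations with exactly `k` good centres -/
noncomputable def NN (U I X : Type) [Fintype U] [Fintype I] [Fintype X] (k : ℕ) : ℕ :=
  (univ.filter (fun c : Conf U I X => (univ.filter (fun i => Good S c i)).card = k)).card

variable {S}

lemma range_sub {U I X : Type} {c : Conf U I X} {i : I} {σ τ : Fin S.m → U}
    (h1 : GoodVia S c i σ) (h2 : GoodVia S c i τ) : Set.range σ ⊆ Set.range τ := by
  rintro _ ⟨a, rfl⟩
  induction a using WellFoundedLT.induction with
  | _ a ih =>
    by_contra hcon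
    have h3 := h2.2.2.2.2 _ hcon
    have h4 := h1.2.2.1 a
    unfold tgt at h4
    rcases hpa : S.p a with _ | b
    · rw [hpa] at h4
      exact h3.1 h4
    · rw [hpa] at h4
      obtain ⟨d, hd⟩ := ih b (S.hp a b hpa)
      apply h3.2 d
      rw [h4, hd]

lemma range_eq {U I X : Type} {c : Conf U I X} {i : I} {σ τ : Fin S.m → U}
    (h1 : GoodVia S c i σ) (h2 : GoodVia S c i τ) : Set.range σ = Set.range τ :=
  Set.Subset.antisymm (range_sub h1 h2) (range_sub h2 h1)

/-- plant a good centre -/
def glue {U U' I I' X : Type} (Φ : U ⊕ Fin S.m ≃ U') (Ψ : Option I ≃ I') (c : Conf U I X) :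
    Conf U' I' X :=
  (fun x => match Φ.symm x with
    | Sum.inl u => Sum.map (fun u => Φ (Sum.inl u)) (Sum.map (fun j => Ψ (some j)) id) (c.1 u)
    | Sum.inr a => tgt S (fun b => Φ (Sum.inr b)) (Ψ none) a,
   fun x => match Φ.symm x with
    | Sum.inl u => c.2.1 u
    | Sum.inr a => S.bit a,
   fun j => match Ψ.symm j with
    | none => (false, true)
    | some j => c.2.2 j)

section
variable {U U' I I' X : Type} (Φ : U ⊕ Fin S.m ≃ U') (Ψ : Option I ≃ I') (c : Conf U I X)

lemma glue_1_inl (u : U) : (glue Φ Ψ c).1 (Φ (Sum.inl u)) =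
    Sum.map (fun u => Φ (Sum.inl u)) (Sum.map (fun j => Ψ (some j)) id) (c.1 u) := by
  simp [glue]

lemma glue_1_inr (a : Fin S.m) : (glue Φ Ψ c).1 (Φ (Sum.inr a)) =
    tgt S (fun b => Φ (Sum.inr b)) (Ψ none) a := by
  simp [glue]

lemma glue_2_inl (u : U) : (glue Φ Ψ c).2.1 (Φ (Sum.inl u)) = c.2.1 u := by
  simp [glue]

lemma glue_2_inr (a : Fin S.m) : (glue Φ Ψ c).2.1 (Φ (Sum.inr a)) = S.bit a := by
  simp [glue]

lemma glue_3_none : (glue Φ Ψ c).2.2 (Ψ none) = (false, true) := by
  simp [glue]

lemma glue_3_some (j : I) : (glue Φ Ψ c).2.2 (Ψ (some j)) = c.2.2 j := by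
  simp [glue]

lemma smap_inl {A B A' B' : Type} (f : A → A') (g : B → B') (x : A ⊕ B) (y : A') :
    Sum.map f g x = Sum.inl y ↔ ∃ a, x = Sum.inl a ∧ f a = y := by
  rcases x with a | b <;> simp

lemma smap_inr {A B A' B' : Type} (f : A → A') (g : B → B') (x : A ⊕ B) (y : B') :
    Sum.map f g x = Sum.inr y ↔ ∃ b, x = Sum.inr b ∧ g b = y := by
  rcases x with a | b <;> simp

lemma glue_goodVia_none : GoodVia S (glue Φ Ψ c) (Ψ none) (fun b => Φ (Sum.inr b)) := by
  refine ⟨glue_3_none Φ Ψ c, ?_, fun a => glue_1_inr Φ Ψ c a, fun a => glue_2_inr Φ Ψ c a, ?_⟩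
  · intro a b h
    exact Sum.inr_injective (Φ.injective h)
  · intro x hx
    obtain ⟨y, rfl⟩ := Φ.surjective x
    rcases y with u | a
    · rw [glue_1_inl]
      constructor
      · intro h
        obtain ⟨b, hb, hb2⟩ := (smap_inr _ _ _ _).1 h
        obtain ⟨j, hj, hj2⟩ := (smap_inl _ _ _ _).1 hb2
        have := Ψ.injective hj2
        simp at this
      · intro a h
        obtain ⟨b, hb, hb2⟩ := (smap_inl _ _ _ _).1 h
        have := Φ.injective hb2
        simp at this
    · exact absurd ⟨a, rfl⟩ hx

lemma glue_good_some (j : I) : Good S (glue Φ Ψ c) (Ψ (some j)) ↔ Good S c j := by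
  constructor
  · rintro ⟨σ, h1, h2, h3, h4, h5⟩
    -- σ avoids the planted vertices
    have hav : ∀ a, ∃ u, σ a = Φ (Sum.inl u) := by
      intro a
      induction a using WellFoundedLT.induction with
      | _ a ih =>
        obtain ⟨y, hy⟩ := Φ.surjective (σ a)
        rcases y with u | a'
        · exact ⟨u, hy.symm⟩
        · exfalso
          have h6 := h3 a
          rw [← hy, glue_1_inr] at h6
          unfold tgt at h6
          rcases hpa : S.p a with _ | b
          · rw [hpa] at h6
            rcases hpa' : S.p a' with _ | b'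
            · rw [hpa'] at h6
              simp at h6
            · rw [hpa'] at h6
              simp at h6
          · rw [hpa] at h6
            obtain ⟨u, hu⟩ := ih b (S.hp a b hpa)
            rcases hpa' : S.p a' with _ | b'
            · rw [hpa'] at h6
              simp at h6
            · rw [hpa'] at h6
              simp only [hu, Sum.inl.injEq, EmbeddingLike.apply_eq_iff_eq] at h6
              exact absurd h6 (by simp)
    choose τ hτ using hav
    refine ⟨τ, ?_, ?_, ?_, ?_, ?_⟩
    · rw [← h1, glue_3_some]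
    · intro a b hab
      apply h2
      rw [hτ, hτ, hab]
    · intro a
      have h6 := h3 a
      rw [hτ a, glue_1_inl] at h6
      unfold tgt at h6 ⊢
      rcases hpa : S.p a with _ | b
      · rw [hpa] at h6
        obtain ⟨y, hy, hy2⟩ := (smap_inr _ _ _ _).1 h6
        obtain ⟨z, hz, hz2⟩ := (smap_inl _ _ _ _).1 hy2
        have := Ψ.injective hz2
        simp only [Option.some.injEq] at this
        rw [hy, hz, this]
      · rw [hpa] at h6
        obtain ⟨y, hy, hy2⟩ := (smap_inl _ _ _ _).1 h6
        rw [hτ b] at hy2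
        have := Φ.injective hy2
        simp only [Sum.inl.injEq] at this
        rw [hy, this]
    · intro a
      have h6 := h4 a
      rw [hτ a, glue_2_inl] at h6
      exact h6
    · intro u hu
      have h6 : Φ (Sum.inl u) ∉ Set.range σ := by
        rintro ⟨a, ha⟩
        rw [hτ a] at ha
        have := Φ.injective ha
        simp only [Sum.inl.injEq] at this
        exact hu ⟨a, this⟩
      have h7 := h5 _ h6
      rw [glue_1_inl] at h7
      constructor
      · intro h8
        apply h7.1
        rw [h8]; simp
      · intro a h8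
        apply h7.2 a
        rw [h8, hτ a]; simp
  · rintro ⟨τ, h1, h2, h3, h4, h5⟩
    refine ⟨fun a => Φ (Sum.inl (τ a)), ?_, ?_, ?_, ?_, ?_⟩
    · rw [glue_3_some, h1]
    · intro a b hab
      have := Φ.injective hab
      simp only [Sum.inl.injEq] at this
      exact h2 this
    · intro a
      rw [glue_1_inl, h3 a]
      unfold tgt
      rcases hpa : S.p a with _ | b <;> simp
    · intro a
      rw [glue_2_inl, h4 a]
    · intro x hx
      obtain ⟨y, rfl⟩ := Φ.surjective x
      rcases y with u | a
      · have hu : u ∉ Set.range τ := by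
          rintro ⟨a, ha⟩
          exact hx ⟨a, by simp [ha]⟩
        have h7 := h5 _ hu
        rw [glue_1_inl]
        constructor
        · intro h
          obtain ⟨b, hb, hb2⟩ := (smap_inr _ _ _ _).1 h
          obtain ⟨j', hj, hj2⟩ := (smap_inl _ _ _ _).1 hb2
          have := Ψ.injective hj2
          simp only [Option.some.injEq] at this
          apply h7.1
          rw [hb, hj, this]
        · intro a h
          obtain ⟨b, hb, hb2⟩ := (smap_inl _ _ _ _).1 h
          have := Φ.injective hb2
          simp only [Sum.inl.injEq] at this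
          exact h7.2 a (by rw [hb, this])
      · rw [glue_1_inr]
        unfold tgt
        rcases hpa : S.p a with _ | b
        · constructor
          · intro h
            simp at h
          · intro a h
            simp at h
        · constructor
          · intro h
            simp at h
          · intro a h
            simp at h

lemma glue_inj {c₁ c₂ : Conf U I X} (h : glue Φ Ψ c₁ = glue Φ Ψ c₂) : c₁ = c₂ := by
  have hinj : Function.Injective
      (Sum.map (fun u => Φ (Sum.inl u)) (Sum.map (fun j => Ψ (some j)) id) :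
        U ⊕ (I ⊕ X) → U' ⊕ (I' ⊕ X)) := by
    apply Function.Injective.sumMap
    · intro a b hab; exact Sum.inl_injective (Φ.injective hab)
    · apply Function.Injective.sumMap
      · intro a b hab; exact Option.some_injective _ (Ψ.injective hab)
      · exact Function.injective_id
  refine Prod.ext ?_ (Prod.ext ?_ ?_)
  · funext u
    apply hinj
    rw [← glue_1_inl, ← glue_1_inl, h]
  · funext u
    rw [← glue_2_inl Φ Ψ c₁, ← glue_2_inl Φ Ψ c₂, h]
  · funext j
    rw [← glue_3_some Φ Ψ c₁, ← glue_3_some Φ Ψ c₂, h]

open Classical in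
lemma glue_card [Fintype I] [Fintype I'] :
    (univ.filter (fun i => Good S (glue Φ Ψ c) i)).card
      = (univ.filter (fun i => Good S c i)).card + 1 := by
  have hinj : Function.Injective (fun j => Ψ (some j)) :=
    fun a b h => Option.some_injective _ (Ψ.injective h)
  have h1 : (univ.filter (fun i => Good S (glue Φ Ψ c) i)) =
      insert (Ψ none) ((univ.filter (fun i => Good S c i)).image (fun j => Ψ (some j))) := by
    ext i
    obtain ⟨y, rfl⟩ := Ψ.surjective i
    rcases y with _ | j
    · simp only [mem_filter, mem_univ, true_and, mem_insert, true_or, iff_true]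
      exact ⟨_, glue_goodVia_none Φ Ψ c⟩
    · simp only [mem_filter, mem_univ, true_and, mem_insert, mem_image]
      constructor
      · intro h
        exact Or.inr ⟨j, (glue_good_some Φ Ψ c j).1 h, rfl⟩
      · rintro (h | ⟨j', hj', h⟩)
        · exact absurd (Ψ.injective h) (by simp)
        · have := Option.some_injective _ (Ψ.injective h)
          subst this
          exact (glue_good_some Φ Ψ c _).2 hj'
  rw [h1, Finset.card_insert_of_notMem, Finset.card_image_of_injective _ hinj]
  intro h
  obtain ⟨j, _, hj⟩ := Finset.mem_image.1 h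
  exact absurd (Ψ.injective hj) (by simp)

end

open Classical in
theorem NN_step {U U' I I' X : Type} [Fintype U] [Fintype U'] [Fintype I] [Fintype I']
    [Fintype X] (hU : Fintype.card U' = Fintype.card U + S.m)
    (hI : Fintype.card I' = Fintype.card I + 1) (k : ℕ) :
    Fintype.card I' * (Fintype.card U').choose S.m * NN S U I X k ≤
      (k + 1) * NN S U' I' X (k + 1) := by
  -- choose the equivalences
  have hΨ : ∀ i : I', ∃ Ψ : Option I ≃ I', Ψ none = i := by
    intro i
    have h1 : Fintype.card (Option I) = Fintype.card I' := by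
      rw [Fintype.card_option, hI]
    let e := Fintype.equivOfCardEq h1
    exact ⟨e.trans (Equiv.swap (e none) i), by simp⟩
  choose Ψ hΨ using hΨ
  have hΦ : ∀ A : Finset U', A.card = S.m →
      ∃ Φ : U ⊕ Fin S.m ≃ U', Set.range (fun b => Φ (Sum.inr b)) = (A : Set U') := by
    intro A hA
    have h1 : Fintype.card (Fin S.m) = Fintype.card {x // x ∈ A} := by
      simp [hA]
    have h2 : Fintype.card U = Fintype.card {x // x ∉ A} := by
      rw [Fintype.card_subtype_compl, Fintype.card_coe, hA, hU]; simp
    let e1 := Fintype.equivOfCardEq h1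
    let e2 := Fintype.equivOfCardEq h2
    refine ⟨(Equiv.sumCongr e2 e1).trans ((Equiv.sumComm _ _).trans
      (Equiv.sumCompl (fun x => x ∈ A))), ?_⟩
    ext x
    simp only [Equiv.trans_apply, Equiv.sumCongr_apply, Sum.map_inr, Equiv.sumComm_apply,
      Sum.swap_inr, Equiv.sumCompl_apply_inl, Set.mem_range, Finset.mem_coe]
    constructor
    · rintro ⟨b, rfl⟩; exact (e1 b).2
    · intro hx; exact ⟨e1.symm ⟨x, hx⟩, by simp⟩
  have hne : Nonempty (U ⊕ Fin S.m ≃ U') :=
    Fintype.card_eq.1 (by rw [Fintype.card_sum, Fintype.card_fin, hU])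
  choose! Φ hΦ using hΦ
  -- right side as number of pairs
  have hR : (k + 1) * NN S U' I' X (k + 1) =
      ((univ.filter (fun c : Conf U' I' X =>
        (univ.filter (fun i => Good S c i)).card = k + 1)).sigma
        (fun c => univ.filter (fun i => Good S c i))).card := by
    rw [Finset.card_sigma, Finset.sum_congr rfl (g := fun _ => k + 1)]
    · rw [Finset.sum_const, smul_eq_mul, NN, mul_comm]
    · intro c hc
      exact (Finset.mem_filter.1 hc).2
  have hL : Fintype.card I' * (Fintype.card U').choose S.m * NN S U I X k =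
      ((univ : Finset I') ×ˢ ((univ : Finset U').powersetCard S.m) ×ˢ
        (univ.filter (fun c : Conf U I X => (univ.filter (fun i => Good S c i)).card = k))).card := by
    rw [Finset.card_product, Finset.card_product, Finset.card_powersetCard, Finset.card_univ,
      Finset.card_univ, NN, mul_assoc]
  rw [hR, hL]
  refine Finset.card_le_card_of_injOn
    (fun q => ⟨glue (Φ q.2.1) (Ψ q.1) q.2.2, q.1⟩) ?_ ?_
  · rintro ⟨i, A, c⟩ hq
    simp only [coe_product, coe_univ, Set.mem_prod, Set.mem_univ, mem_coe, true_and] at hq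
    simp only [coe_sigma, Set.mem_sigma_iff, mem_coe, mem_filter, mem_univ, true_and]
    have h2 := (Finset.mem_filter.1 hq.2).2
    refine ⟨?_, ?_⟩
    · rw [glue_card, h2]
    · refine ⟨fun b => Φ A (Sum.inr b), ?_⟩
      have := glue_goodVia_none (Φ A) (Ψ i) c
      rwa [hΨ i] at this
  · rintro ⟨i, A, c⟩ hq ⟨i', A', c'⟩ hq' heq
    simp only [coe_product, coe_univ, Set.mem_prod, Set.mem_univ, mem_coe, true_and] at hq hq'
    have hA := (Finset.mem_powersetCard.1 hq.1).2
    have hA' := (Finset.mem_powersetCard.1 hq'.1).2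
    simp only [Sigma.mk.injEq] at heq
    obtain ⟨h1, h2⟩ := heq
    have h2 : i = i' := eq_of_heq h2
    subst h2
    have h3 := glue_goodVia_none (Φ A) (Ψ i) c
    have h4 := glue_goodVia_none (Φ A') (Ψ i) c'
    rw [← h1] at h4
    have h5 := range_eq h3 h4
    rw [hΦ A hA, hΦ A' hA'] at h5
    have h6 : A = A' := Finset.coe_injective h5
    subst h6
    have h7 := glue_inj _ _ h1
    rw [h7]

end Pool.Agent.W957
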