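import Pool.Agent.W957.Det
import Pool.Agent.W957.Plant

set_option autoImplicit false

namespace Pool.Agent.W957

/-- one step of the set propagation; `none` when the centre `0` would have to be left upwards -/
def stepSet (outN inN : ℕ → List ℕ) (up : Bool) (S : List ℕ) : Option (List ℕ) :=
  if up then (if S.contains 0 then none else some ((S.flatMap outN).dedup))
  else some ((S.flatMap inN).dedup)

def runSet (outN inN : ℕ → List ℕ) : List Bool → List ℕ → Option (List ℕ)
  | [], S => some S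
  | b :: P, S => match stepSet outN inN b S with
    | none => none
    | some S' => runSet outN inN P S'

/-- arc of the fourth power -/
def okStep (outN : ℕ → List ℕ) (q q' : ℕ × ℕ × ℕ × ℕ) : Bool :=
  (outN q.1).contains q'.1 && (outN q.2.1).contains q'.2.1 &&
    (outN q.2.2.1).contains q'.2.2.1 && (outN q.2.2.2).contains q'.2.2.2

/-- a walk in the fourth power with the given pattern, starting in `q`; returns its last point -/
def okWalk (outN : ℕ → List ℕ) : List Bool → ℕ × ℕ × ℕ × ℕ → List (ℕ × ℕ × ℕ × ℕ) →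
    Option (ℕ × ℕ × ℕ × ℕ)
  | [], q, [] => some q
  | b :: P, q, q' :: Q =>
    bif (bif b then okStep outN q q' else okStep outN q' q) then
      okWalk outN P q' Q else none
  | _, _, _ => none

section
variable {V : Type*} {E : V → V → Prop} {β : ℕ → V} {outN inN : ℕ → List ℕ} {N : ℕ}
  {s : V → V → V → V → V}

/-- value of the polymorphism at a point of the fourth power -/
def val4 (β : ℕ → V) (s : V → V → V → V → V) (q : ℕ × ℕ × ℕ × ℕ) : V :=
  s (β q.1) (β q.2.1) (β q.2.2.1) (β q.2.2.2)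

lemma step_sound (hB : ∀ i, ∀ j ∈ outN i, j < N) (hB' : ∀ i, ∀ j ∈ inN i, j < N)
    (H2 : ∀ i < N, i ≠ 0 → ∀ u, E (β i) u → ∃ j ∈ outN i, u = β j)
    (H3 : ∀ i < N, ∀ u, E u (β i) → ∃ j ∈ inN i, u = β j)
    {up : Bool} {S S' : List ℕ} (hS : ∀ i ∈ S, i < N) (hstep : stepSet outN inN up S = some S')
    {g g' : V} (hg : ∃ i ∈ S, g = β i) (hE : if up then E g g' else E g' g) :
    (∀ i ∈ S', i < N) ∧ ∃ i ∈ S', g' = β i := by
  obtain ⟨i, hi, rfl⟩ := hg
  unfold stepSet at hstep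
  cases up with
  | true =>
    simp only [if_true] at hstep hE
    split_ifs at hstep with h0
    simp only [Option.some.injEq] at hstep
    subst hstep
    have hi0 : i ≠ 0 := by
      rintro rfl
      exact h0 (by simpa using hi)
    refine ⟨?_, ?_⟩
    · intro j hj
      rw [List.mem_dedup, List.mem_flatMap] at hj
      obtain ⟨a, _, ha⟩ := hj
      exact hB a j ha
    · obtain ⟨j, hj, hj2⟩ := H2 i (hS i hi) hi0 g' hE
      exact ⟨j, by rw [List.mem_dedup, List.mem_flatMap]; exact ⟨i, hi, hj⟩, hj2⟩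
  | false =>
    simp only [Bool.false_eq_true, if_false] at hstep hE
    simp only [Option.some.injEq] at hstep
    subst hstep
    refine ⟨?_, ?_⟩
    · intro j hj
      rw [List.mem_dedup, List.mem_flatMap] at hj
      obtain ⟨a, _, ha⟩ := hj
      exact hB' a j ha
    · obtain ⟨j, hj, hj2⟩ := H3 i (hS i hi) g' hE
      exact ⟨j, by rw [List.mem_dedup, List.mem_flatMap]; exact ⟨i, hi, hj⟩, hj2⟩

lemma run_sound (hs : Pol E s)
    (H1 : ∀ i, ∀ j ∈ outN i, E (β i) (β j))
    (hB : ∀ i, ∀ j ∈ outN i, j < N) (hB' : ∀ i, ∀ j ∈ inN i, j < N)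
    (H2 : ∀ i < N, i ≠ 0 → ∀ u, E (β i) u → ∃ j ∈ outN i, u = β j)
    (H3 : ∀ i < N, ∀ u, E u (β i) → ∃ j ∈ inN i, u = β j)
    (P : List Bool) : ∀ (q : ℕ × ℕ × ℕ × ℕ) (Q : List (ℕ × ℕ × ℕ × ℕ)) (q' : ℕ × ℕ × ℕ × ℕ)
      (S S' : List ℕ), (∀ i ∈ S, i < N) → okWalk outN P q Q = some q' →
      runSet outN inN P S = some S' → (∃ i ∈ S, val4 β s q = β i) →
      (∀ i ∈ S', i < N) ∧ ∃ i ∈ S', val4 β s q' = β i := by
  induction P with
  | nil =>
    intro q Q q' S S' hS hw hr hg
    rcases Q with _ | ⟨_, _⟩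
    · simp only [okWalk, Option.some.injEq] at hw
      simp only [runSet, Option.some.injEq] at hr
      subst hw; subst hr
      exact ⟨hS, hg⟩
    · simp [okWalk] at hw
  | cons b P ih =>
    intro q Q q' S S' hS hw hr hg
    rcases Q with _ | ⟨q1, Q⟩
    · simp [okWalk] at hw
    · rw [okWalk] at hw
      have hstepE : ∀ q q' : ℕ × ℕ × ℕ × ℕ, okStep outN q q' = true →
          E (val4 β s q) (val4 β s q') := by
        intro q q' h
        unfold okStep at h
        simp only [Bool.and_eq_true, List.contains_iff_mem] at h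
        exact hs _ _ _ _ _ _ _ _ (H1 _ _ h.1.1.1) (H1 _ _ h.1.1.2) (H1 _ _ h.1.2) (H1 _ _ h.2)
      rcases hb : (bif b then okStep outN q q1 else okStep outN q1 q) with _ | _
      · rw [hb] at hw; simp at hw
      rw [hb, cond_true] at hw
      rw [runSet] at hr
      rcases hst : stepSet outN inN b S with _ | S1
      · rw [hst] at hr; simp at hr
      · rw [hst] at hr
        simp only at hr
        have hE : if b then E (val4 β s q) (val4 β s q1) else E (val4 β s q1) (val4 β s q) := by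
          cases b with
          | true =>
            simp only [cond_true, if_true] at hb ⊢
            exact hstepE _ _ hb
          | false =>
            simp only [cond_false, Bool.false_eq_true, if_false] at hb ⊢
            exact hstepE _ _ hb
        obtain ⟨h1, h2⟩ := step_sound hB hB' H2 H3 hS hst hg hE
        exact ih q1 Q q' S1 S' h1 hw hr h2

/-- the finite certificate -/
structure Cert (outN inN : ℕ → List ℕ) (N : ℕ) where
  P1 : List Bool
  Q1 : List (ℕ × ℕ × ℕ × ℕ)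
  P2 : List Bool
  Q2 : List (ℕ × ℕ × ℕ × ℕ)
  a : ℕ
  r : ℕ
  e : ℕ
  D : List ℕ
  h1 : okWalk outN P1 (0, 0, 0, 0) Q1 = some (a, r, e, a)
  h2 : okWalk outN P2 (a, r, e, a) Q2 = some (r, a, r, e)
  h3 : runSet outN inN P1 [0] = some D
  h4 : ∀ v ∈ D, ∃ S, runSet outN inN P2 [v] = some S ∧ v ∉ S

theorem cert_contra (C : Cert outN inN N) (hN : 0 < N) (hs : Pol E s) (hsig : Sig s)
    (hc : s (β 0) (β 0) (β 0) (β 0) = β 0)
    (hinj : ∀ i < N, ∀ j < N, β i = β j → i = j)
    (H1 : ∀ i, ∀ j ∈ outN i, E (β i) (β j))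
    (hB : ∀ i, ∀ j ∈ outN i, j < N) (hB' : ∀ i, ∀ j ∈ inN i, j < N)
    (H2 : ∀ i < N, i ≠ 0 → ∀ u, E (β i) u → ∃ j ∈ outN i, u = β j)
    (H3 : ∀ i < N, ∀ u, E u (β i) → ∃ j ∈ inN i, u = β j) : False := by
  obtain ⟨h5, v, hv, hv2⟩ := run_sound hs H1 hB hB' H2 H3 C.P1 (0, 0, 0, 0) C.Q1 _ [0] C.D
    (by simpa using hN) C.h1 C.h3 ⟨0, by simp, hc⟩
  obtain ⟨S, hS, hvS⟩ := C.h4 v hv
  obtain ⟨h6, w, hw, hw2⟩ := run_sound hs H1 hB hB' H2 H3 C.P2 _ C.Q2 _ [v] S
    (by simpa using h5 v hv) C.h2 hS ⟨v, by simp, hv2⟩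
  have h7 : val4 β s (C.a, C.r, C.e, C.a) = val4 β s (C.r, C.a, C.r, C.e) := hsig _ _ _
  rw [hv2, hw2] at h7
  have h8 := hinj v (h5 v hv) w (h6 w hw) h7
  rw [h8] at hvS
  exact hvS hw

end

end Pool.Agent.W957
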