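import Pool.Agent.W957.Gadget

set_option autoImplicit false

namespace Pool.Agent.W957

open Finset

/-- index of the parent, the centre being `0` and the limb vertex `a` being `a + 1` -/
def Limb.par (S : Limb) (a : Fin S.m) : ℕ :=
  match S.p a with
  | none => 0
  | some b => b.1 + 1

def Limb.arc (S : Limb) (a : Fin S.m) : ℕ × ℕ :=
  if S.bit a then (a.1 + 1, S.par a) else (S.par a, a.1 + 1)

def outOf (arcs : List (ℕ × ℕ)) (i : ℕ) : List ℕ := (arcs.filter (fun q => q.1 == i)).map Prod.snd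
def inOf (arcs : List (ℕ × ℕ)) (i : ℕ) : List ℕ := (arcs.filter (fun q => q.2 == i)).map Prod.fst

lemma mem_outOf {arcs : List (ℕ × ℕ)} {i j : ℕ} : j ∈ outOf arcs i ↔ (i, j) ∈ arcs := by
  unfold outOf
  simp only [List.mem_map, List.mem_filter, beq_iff_eq, Prod.exists, exists_eq_right]

lemma mem_inOf {arcs : List (ℕ × ℕ)} {i j : ℕ} : j ∈ inOf arcs i ↔ (j, i) ∈ arcs := by
  unfold inOf
  simp only [List.mem_map, List.mem_filter, beq_iff_eq, Prod.exists]
  constructor
  · rintro ⟨a, b, ⟨h1, h2⟩, h3⟩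
    simpa [← h2, ← h3] using h1
  · intro h; exact ⟨j, i, ⟨h, rfl⟩, rfl⟩

/-- a limb at which no Siggers polymorphism can fix the centre -/
structure HardLimb where
  S : Limb
  arcs : List (ℕ × ℕ)
  hA : ∀ a, S.arc a ∈ arcs
  hB : ∀ q ∈ arcs, ∃ a, S.arc a = q
  hC : ∀ a, S.p a = none → S.bit a = true
  cert : Cert (outOf arcs) (inOf arcs) (S.m + 1)

section
variable {V : Type} [DecidableEq V] {r0 : V} {f : V → V} {o : V → Bool}

lemma chain_inj (hf : IsF {r0} f) {x : V} {L : ℕ} (hx : ∀ i < L, f^[i] x ≠ r0) {i j : ℕ}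
    (hi : i ≤ L) (hj : j ≤ L) (h : f^[i] x = f^[j] x) : i = j := by
  wlog hij : i < j generalizing i j
  · rcases Nat.lt_or_ge j i with h1 | h1
    · exact (this hj hi h.symm h1).symm
    · omega
  exfalso
  have h1 : f^[j - i] (f^[i] x) = f^[i] x := by
    rw [← Function.iterate_add_apply, h]
    congr 1
    omega
  have h2 := periodic_mem hf (k := j - i) (by omega) h1
  exact hx i (by omega) (Finset.mem_singleton.1 h2)

/-- the free vertices with respect to the chain `v 0, …, v (2J - 1)` -/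
abbrev FreeV (v : ℕ → V) (J : ℕ) : Type := {y : V // ∀ i < 2 * J, y ≠ v i}

/-- the vertex encoded by a target -/
def untgt (v : ℕ → V) (J : ℕ) : FreeV v J ⊕ (Fin J ⊕ Fin J) → V
  | Sum.inl u => u.1
  | Sum.inr (Sum.inl j) => v (2 * j.1 + 1)
  | Sum.inr (Sum.inr j) => v (2 * j.1)

omit [DecidableEq V] in
lemma untgt_bij {v : ℕ → V} {J : ℕ} (hv : ∀ i < 2 * J, ∀ j < 2 * J, v i = v j → i = j) :
    Function.Bijective (untgt v J) := by
  constructor
  · rintro (u | j | j) (u' | j' | j') h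
    · simp only [untgt] at h; rw [Subtype.ext h]
    · exact absurd h (u.2 _ (by have := j'.2; omega))
    · exact absurd h (u.2 _ (by have := j'.2; omega))
    · exact absurd h.symm (u'.2 _ (by have := j.2; omega))
    · have := hv _ (by have := j.2; omega) _ (by have := j'.2; omega) h
      have : j = j' := Fin.ext (by omega)
      rw [this]
    · have := hv _ (by have := j.2; omega) _ (by have := j'.2; omega) h
      omega
    · exact absurd h.symm (u'.2 _ (by have := j.2; omega))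
    · have := hv _ (by have := j.2; omega) _ (by have := j'.2; omega) h
      omega
    · have := hv _ (by have := j.2; omega) _ (by have := j'.2; omega) h
      have : j = j' := Fin.ext (by omega)
      rw [this]
  · intro y
    by_cases h : ∀ i < 2 * J, y ≠ v i
    · exact ⟨Sum.inl ⟨y, h⟩, rfl⟩
    · push Not at h
      obtain ⟨i, hi, rfl⟩ := h
      rcases Nat.even_or_odd' i with ⟨j, rfl | rfl⟩
      · exact ⟨Sum.inr (Sum.inr ⟨j, by omega⟩), rfl⟩
      · exact ⟨Sum.inr (Sum.inl ⟨j, by omega⟩), rfl⟩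

/-- the configuration of `(f, o)` along the chain `v`; `τ` is the inverse of `untgt` -/
def confOf (v : ℕ → V) (J : ℕ) (τ : V → FreeV v J ⊕ (Fin J ⊕ Fin J)) (f : V → V) (o : V → Bool) :
    Conf (FreeV v J) (Fin J) (Fin J) :=
  (fun u => τ (f u.1), fun u => o u.1, fun j => (o (v (2 * j.1)), o (v (2 * j.1 + 1))))

theorem good_contra (H : HardLimb) (hf : IsF {r0} f) {s : V → V → V → V → V}
    (hs : Pol (Ed f o) s) (hsig : Sig s) {v : ℕ → V} {J : ℕ} (hx : ∀ i < 2 * J, v i ≠ r0)
    (hv : ∀ i < 2 * J, f (v i) = v (i + 1))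
    (hfix : ∀ i ≤ 2 * J, s (v i) (v i) (v i) (v i) = v i)
    (τ : V → FreeV v J ⊕ (Fin J ⊕ Fin J))
    (hτ1 : ∀ y, untgt _ _ (τ y) = y) (hτ2 : ∀ z, τ (untgt _ _ z) = z) (j : Fin J) :
    ¬ Good H.S (confOf v J τ f o) j := by
  have hit : ∀ i ≤ 2 * J, v i = f^[i] (v 0) := by
    intro i
    induction i with
    | zero => intro _; rfl
    | succ i ih =>
      intro hi
      rw [Function.iterate_succ_apply', ← ih (by omega), hv i (by omega)]
  have hx' : ∀ i < 2 * J, f^[i] (v 0) ≠ r0 := fun i hi => by rw [← hit i hi.le]; exact hx i hi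
  have hvinj : ∀ i ≤ 2 * J, ∀ k ≤ 2 * J, v i = v k → i = k := by
    intro i hi k hk h
    rw [hit i hi, hit k hk] at h
    exact chain_inj hf hx' hi hk h
  rintro ⟨σ, g1, g2, g3, g4, g5⟩
  have hJ := j.2
  set c0 : V := v (2 * j.1 + 1) with hc0
  have hc0r : c0 ≠ r0 := hx _ (by omega)
  have ho1 : o (v (2 * j.1)) = false := congrArg Prod.fst g1
  have ho2 : o c0 = true := congrArg Prod.snd g1
  -- the embedding as vertices of V
  set β : ℕ → V := fun i => if h : i - 1 < H.S.m ∧ i ≠ 0 then (σ ⟨i - 1, h.1⟩).1 else c0 with hβ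
  have hβ0 : β 0 = c0 := by simp [hβ]
  have hβs : ∀ a : Fin H.S.m, β (a.1 + 1) = (σ a).1 := by
    intro a
    have : a.1 + 1 - 1 < H.S.m ∧ a.1 + 1 ≠ 0 := ⟨by have := a.2; omega, by omega⟩
    simp only [hβ, this]
    simp
  have hσc : ∀ a, (σ a).1 ≠ c0 := fun a => (σ a).2 _ (by omega)
  have hfσ : ∀ a, f (σ a).1 = β (H.S.par a) := by
    intro a
    have h1 : τ (f (σ a).1) = tgt H.S σ j a := g3 a
    have h2 : f (σ a).1 = untgt _ _ (tgt H.S σ j a) := by rw [← h1, hτ1]
    rw [h2]
    unfold tgt Limb.par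
    rcases H.S.p a with _ | b
    · rw [hβ0]; rfl
    · rw [hβs]; rfl
  have hinj : ∀ i < H.S.m + 1, ∀ k < H.S.m + 1, β i = β k → i = k := by
    intro i hi k hk h
    rcases i with _ | i <;> rcases k with _ | k
    · rfl
    · have := hβs ⟨k, by omega⟩
      simp only at this
      rw [hβ0, this] at h
      exact absurd h.symm (hσc _)
    · have := hβs ⟨i, by omega⟩
      simp only at this
      rw [hβ0, this] at h
      exact absurd h (hσc _)
    · have h1 := hβs ⟨i, by omega⟩
      have h2 := hβs ⟨k, by omega⟩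
      simp only at h1 h2
      rw [h1, h2] at h
      have := g2 (Subtype.ext h)
      simp only [Fin.mk.injEq] at this
      omega
  have hparlt : ∀ a : Fin H.S.m, H.S.par a < a.1 + 1 := by
    intro a
    unfold Limb.par
    rcases hp : H.S.p a with _ | b
    · simp
    · have := H.S.hp a b hp
      simp only
      have : b.1 < a.1 := this
      omega
  have hne : ∀ a, (σ a).1 ≠ f (σ a).1 := by
    intro a h
    rw [hfσ, ← hβs] at h
    have := hinj _ (by have := a.2; omega) _ (by have := hparlt a; have := a.2; omega) h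
    have := hparlt a
    omega
  -- every limb vertex reaches the centre
  have hreach : ∀ a, ∃ k, 0 < k ∧ f^[k] (σ a).1 = c0 := by
    intro a
    induction a using WellFoundedLT.induction with
    | _ a ih =>
      have h1 := hfσ a
      unfold Limb.par at h1
      rcases hp : H.S.p a with _ | b
      · rw [hp] at h1
        exact ⟨1, Nat.one_pos, by rw [Function.iterate_one, h1]; exact hβ0⟩
      · rw [hp] at h1
        simp only at h1
        rw [hβs] at h1
        obtain ⟨k, hk, hk2⟩ := ih b (H.S.hp a b hp)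
        exact ⟨k + 1, by omega, by rw [Function.iterate_succ_apply, h1]; exact hk2⟩
  -- preimages of limb vertices are limb vertices
  have hpre : ∀ a u, f u = (σ a).1 → ∃ b, u = (σ b).1 := by
    intro a u hu
    by_cases hU : ∀ i < 2 * J, u ≠ v i
    · by_contra hcon
      have h1 : (⟨u, hU⟩ : FreeV v J) ∉ Set.range σ := by
        rintro ⟨b, hb⟩
        exact hcon ⟨b, by rw [hb]⟩
      apply (g5 _ h1).2 a
      show τ (f u) = _
      rw [hu]
      exact hτ2 (Sum.inl (σ a))
    · exfalso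
      push Not at hU
      obtain ⟨i, hi, rfl⟩ := hU
      rw [hv i hi] at hu
      rcases Nat.lt_or_ge (i + 1) (2 * J) with h1 | h1
      · exact (σ a).2 _ h1 hu.symm
      · have h2 : i + 1 = 2 * J := by omega
        obtain ⟨k, hk, hk2⟩ := hreach a
        have h3 : f^[2 * J - (2 * j.1 + 1)] c0 = (σ a).1 := by
          rw [hc0, hit (2 * j.1 + 1) (by omega), ← Function.iterate_add_apply, ← hu,
            hit (i + 1) (by omega)]
          congr 1
          omega
        have h4 : f^[(2 * J - (2 * j.1 + 1)) + k] (σ a).1 = (σ a).1 := by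
          rw [Function.iterate_add_apply, hk2, h3]
        have h5 := Finset.mem_singleton.1 (periodic_mem hf (by omega) h4)
        rw [h5, iter_root hf.1 (Finset.mem_singleton_self _)] at hk2
        exact hc0r hk2.symm
  -- preimages of the centre
  have hprec : ∀ u, f u = c0 → u = v (2 * j.1) ∨ ∃ b, u = (σ b).1 := by
    intro u hu
    by_cases hU : ∀ i < 2 * J, u ≠ v i
    · right
      by_contra hcon
      have h1 : (⟨u, hU⟩ : FreeV v J) ∉ Set.range σ := by
        rintro ⟨b, hb⟩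
        exact hcon ⟨b, by rw [hb]⟩
      apply (g5 _ h1).1
      show τ (f u) = _
      rw [hu]
      exact hτ2 (Sum.inr (Sum.inl j))
    · left
      push Not at hU
      obtain ⟨i, hi, rfl⟩ := hU
      rw [hv i hi, hc0] at hu
      have := hvinj _ (by omega) _ (by omega) hu
      have h2 : i = 2 * j.1 := by omega
      rw [h2]
  have hob : ∀ a, o (σ a).1 = H.S.bit a := g4
  -- arcs
  have harc : ∀ i k, (i, k) ∈ H.arcs ↔ ∃ a, (H.S.bit a = true ∧ i = a.1 + 1 ∧ k = H.S.par a) ∨
      (H.S.bit a = false ∧ i = H.S.par a ∧ k = a.1 + 1) := by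
    intro i k
    constructor
    · intro h
      obtain ⟨a, ha⟩ := H.hB _ h
      refine ⟨a, ?_⟩
      unfold Limb.arc at ha
      rcases hb : H.S.bit a with _ | _
      · rw [hb] at ha
        simp only [Bool.false_eq_true, if_false, Prod.mk.injEq] at ha
        exact Or.inr ⟨rfl, ha.1.symm, ha.2.symm⟩
      · rw [hb] at ha
        simp only [if_true, Prod.mk.injEq] at ha
        exact Or.inl ⟨rfl, ha.1.symm, ha.2.symm⟩
    · rintro ⟨a, ⟨h1, h2, h3⟩ | ⟨h1, h2, h3⟩⟩
      · have := H.hA a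
        unfold Limb.arc at this
        rw [h1] at this
        simpa [h2, h3] using this
      · have := H.hA a
        unfold Limb.arc at this
        rw [h1] at this
        simpa [h2, h3] using this
  refine cert_contra (V := V) (E := Ed f o) (β := β) (s := s) H.cert (Nat.succ_pos _) hs hsig ?_
    hinj ?_ ?_ ?_ ?_ ?_
  · rw [hβ0]; exact hfix _ (by omega)
  · -- H1
    intro i k hk
    obtain ⟨a, ⟨h1, h2, h3⟩ | ⟨h1, h2, h3⟩⟩ := (harc i k).1 (mem_outOf.1 hk)
    · rw [h2, h3, hβs, ← hfσ]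
      exact Or.inl ⟨rfl, hne a, by rw [hob, h1]⟩
    · rw [h2, h3, hβs, ← hfσ]
      exact Or.inr ⟨rfl, (hne a).symm, by rw [hob, h1]⟩
  · intro i k hk
    obtain ⟨a, ⟨h1, h2, h3⟩ | ⟨h1, h2, h3⟩⟩ := (harc i k).1 (mem_outOf.1 hk)
    · have := hparlt a; have := a.2; omega
    · have := a.2; omega
  · intro i k hk
    obtain ⟨a, ⟨h1, h2, h3⟩ | ⟨h1, h2, h3⟩⟩ := (harc k i).1 (mem_inOf.1 hk)
    · have := a.2; omega
    · have := hparlt a; have := a.2; omega
  · -- H2
    intro i hi hi0 u hu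
    obtain ⟨a, rfl⟩ : ∃ a : Fin H.S.m, i = a.1 + 1 := ⟨⟨i - 1, by omega⟩, by simp only; omega⟩
    rw [hβs] at hu
    rcases hu with ⟨h1, h2, h3⟩ | ⟨h1, h2, h3⟩
    · refine ⟨H.S.par a, mem_outOf.2 ((harc _ _).2 ⟨a, Or.inl ⟨by rw [← hob, h3], rfl, rfl⟩⟩), ?_⟩
      rw [h1, hfσ]
    · obtain ⟨b, hb⟩ := hpre a u h1.symm
      subst hb
      refine ⟨b.1 + 1, mem_outOf.2 ((harc _ _).2 ⟨b, Or.inr ⟨by rw [← hob, h3], ?_, rfl⟩⟩), ?_⟩
      · rw [hfσ, ← hβs] at h1
        exact hinj _ (by have := a.2; omega) _ (by have := hparlt b; have := b.2; omega) h1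
      · rw [hβs]
  · -- H3
    intro i hi u hu
    rcases i with _ | i
    · rw [hβ0] at hu
      rcases hu with ⟨h1, h2, h3⟩ | ⟨h1, h2, h3⟩
      · rcases hprec u h1.symm with h4 | ⟨b, hb⟩
        · rw [h4, ho1] at h3; simp at h3
        · subst hb
          refine ⟨b.1 + 1, mem_inOf.2 ((harc _ _).2 ⟨b, Or.inl ⟨by rw [← hob, h3], rfl, ?_⟩⟩), ?_⟩
          · rw [hfσ, ← hβ0] at h1
            exact hinj _ (by omega) _ (by have := hparlt b; have := b.2; omega) h1
          · rw [hβs]
      · rw [ho2] at h3; simp at h3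
    · obtain ⟨a, ha⟩ : ∃ a : Fin H.S.m, i = a.1 := ⟨⟨i, by omega⟩, rfl⟩
      subst ha
      rw [hβs] at hu
      rcases hu with ⟨h1, h2, h3⟩ | ⟨h1, h2, h3⟩
      · obtain ⟨b, hb⟩ := hpre a u h1.symm
        subst hb
        refine ⟨b.1 + 1, mem_inOf.2 ((harc _ _).2 ⟨b, Or.inl ⟨by rw [← hob, h3], rfl, ?_⟩⟩), ?_⟩
        · rw [hfσ, ← hβs] at h1
          exact hinj _ (by have := a.2; omega) _ (by have := hparlt b; have := b.2; omega) h1
        · rw [hβs]
      · refine ⟨H.S.par a, mem_inOf.2 ((harc _ _).2 ⟨a, Or.inr ⟨by rw [← hob, h3], rfl, rfl⟩⟩), ?_⟩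
        rw [h1, hfσ]

end

end Pool.Agent.W957
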