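import Pool.Agent.W957.Local

set_option autoImplicit false

namespace Pool.Agent.W957

open Finset

section
variable {V : Type} [Fintype V] [DecidableEq V] {r0 : V}

/-- the two clauses defining oriented trees -/
def OTree (E : V → V → Bool) : Prop :=
  (∀ a b, ¬ (E a b = true ∧ E b a = true)) ∧
    (SimpleGraph.fromRel (fun a b => E a b = true)).IsTree

open Classical in
/-- Boolean arc relation of the tree given by a parent function and orientation bits -/
noncomputable def Eb (f : V → V) (o : V → Bool) : V → V → Bool := fun a b => decide (Ed f o a b)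

lemma Eb_iff {f : V → V} {o : V → Bool} {a b : V} : Eb f o a b = true ↔ Ed f o a b := by
  classical
  simp [Eb]

lemma no_two_cycle {f : V → V} (hf : IsF {r0} f) {a b : V} (hab : a ≠ b) (h1 : f a = b)
    (h2 : f b = a) : False := by
  have h3 : f^[2] a = a := by
    rw [Function.iterate_succ_apply, Function.iterate_one, h1, h2]
  have h4 := Finset.mem_singleton.1 (periodic_mem hf (by norm_num) h3)
  have h5 : f r0 = r0 := hf.1 r0 (Finset.mem_singleton_self _)
  rw [h4, h5] at h1
  rw [h4] at hab
  exact hab h1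

lemma Eb_adj {f : V → V} (hf : IsF {r0} f) (o : V → Bool) {a b : V} :
    (SimpleGraph.fromRel (fun a b => Eb f o a b = true)).Adj a b ↔ a ≠ b ∧ (b = f a ∨ a = f b) := by
  rw [SimpleGraph.fromRel_adj]
  simp only [Eb_iff]
  constructor
  · rintro ⟨h, h1 | h1⟩
    · exact ⟨h, (ed_adj h1).1⟩
    · exact ⟨h, (ed_adj h1).1.symm⟩
  · rintro ⟨h, h1 | h1⟩
    · refine ⟨h, ?_⟩
      rcases ho : o a with _ | _
      · exact Or.inr (Or.inr ⟨h1, h.symm, ho⟩)
      · exact Or.inl (Or.inl ⟨h1, h, ho⟩)
    · refine ⟨h, ?_⟩
      rcases ho : o b with _ | _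
      · exact Or.inl (Or.inr ⟨h1, h, ho⟩)
      · exact Or.inr (Or.inl ⟨h1, h.symm, ho⟩)

lemma edges_inj {f : V → V} (hf : IsF {r0} f) {x y : V}
    (h : s(x, f x) = s(y, f y)) (hx : x ≠ r0) : x = y := by
  rw [Sym2.eq_iff] at h
  rcases h with ⟨h, _⟩ | ⟨h1, h2⟩
  · exact h
  · by_contra hxy
    exact no_two_cycle hf hxy h2 h1.symm

theorem otree_of_forest {f : V → V} (hf : IsF {r0} f) (o : V → Bool) : OTree (Eb f o) := by
  classical
  refine ⟨?_, ?_⟩
  · rintro a b ⟨h1, h2⟩
    rw [Eb_iff] at h1 h2
    rcases h1 with ⟨h3, h4, h5⟩ | ⟨h3, h4, h5⟩ <;> rcases h2 with ⟨h6, h7, h8⟩ | ⟨h6, h7, h8⟩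
    · exact no_two_cycle hf h4 h3.symm h6.symm
    · rw [h5] at h8; simp at h8
    · rw [h5] at h8; simp at h8
    · exact no_two_cycle hf h4 h6.symm h3.symm
  · rw [SimpleGraph.isTree_iff_connected_and_card]
    refine ⟨?_, ?_⟩
    · have : Nonempty V := ⟨r0⟩
      have hreach : ∀ x, (SimpleGraph.fromRel (fun a b => Eb f o a b = true)).Reachable x r0 := by
        refine tree_induction hf (SimpleGraph.Reachable.refl _) ?_
        intro x hx ih
        refine SimpleGraph.Reachable.trans ?_ ih
        apply SimpleGraph.Adj.reachable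
        rw [Eb_adj hf]
        exact ⟨ne_of_ne_root hf hx, Or.inl rfl⟩
      exact ⟨fun x y => (hreach x).trans (hreach y).symm⟩
    · have h1 : (SimpleGraph.fromRel (fun a b => Eb f o a b = true)).edgeSet =
          ((univ.erase r0).image (fun x => s(x, f x)) : Finset (Sym2 V)) := by
        ext e
        induction e using Sym2.ind with
        | _ a b =>
          rw [SimpleGraph.mem_edgeSet, Eb_adj hf]
          simp only [coe_image, coe_erase, coe_univ, Set.mem_image, Set.mem_sdiff, Set.mem_univ,
            Set.mem_singleton_iff, true_and]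
          have hfr : f r0 = r0 := hf.1 r0 (Finset.mem_singleton_self _)
          constructor
          · rintro ⟨h, h1 | h1⟩
            · refine ⟨a, ?_, by rw [← h1]⟩
              rintro rfl
              exact h (by rw [h1, hfr])
            · refine ⟨b, ?_, by rw [← h1, Sym2.eq_swap]⟩
              rintro rfl
              exact h (by rw [h1, hfr])
          · rintro ⟨x, hx, h⟩
            rw [Sym2.eq_iff] at h
            rcases h with ⟨h1, h2⟩ | ⟨h1, h2⟩
            · rw [← h1, ← h2]
              exact ⟨ne_of_ne_root hf hx, Or.inl rfl⟩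
            · rw [← h1, ← h2]
              exact ⟨(ne_of_ne_root hf hx).symm, Or.inr rfl⟩
      rw [h1, Nat.card_eq_fintype_card, Nat.card_eq_fintype_card]
      simp only [Finset.coe_sort_coe, Fintype.card_coe]
      rw [Finset.card_image_of_injOn]
      · rw [Finset.card_erase_of_mem (Finset.mem_univ _), Finset.card_univ]
        have : 0 < Fintype.card V := Fintype.card_pos_iff.2 ⟨r0⟩
        omega
      · intro x hx y hy h
        simp only [coe_erase, coe_univ, Set.mem_sdiff, Set.mem_univ, Set.mem_singleton_iff,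
          true_and] at hx hy
        exact edges_inj hf h hx

theorem forest_inj {f f' : V → V} (hf : IsF {r0} f) (hf' : IsF {r0} f') {o o' : V → Bool}
    (ho : o r0 = false) (ho' : o' r0 = false) (h : Eb f o = Eb f' o') : f = f' ∧ o = o' := by
  have hE : ∀ a b, Ed f o a b ↔ Ed f' o' a b := fun a b => by
    rw [← Eb_iff, ← Eb_iff, h]
  have hfr : f r0 = r0 := hf.1 r0 (Finset.mem_singleton_self _)
  have hfr' : f' r0 = r0 := hf'.1 r0 (Finset.mem_singleton_self _)
  have hff : ∀ x, f' x = f x := by
    refine tree_induction hf (by rw [hfr, hfr']) ?_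
    intro x hx ih
    -- the edge {x, f x} is an edge of the second tree
    have h1 : (f x = f' x ∨ x = f' (f x)) := by
      rcases ed_cases hf hx o with h2 | h2
      · exact (ed_adj ((hE _ _).1 h2)).1
      · exact (ed_adj ((hE _ _).1 h2)).1.symm
    rcases h1 with h1 | h1
    · exact h1.symm
    · exfalso
      rw [ih] at h1
      exact no_two_cycle hf (ne_of_ne_root hf hx) rfl h1.symm
  have hf_eq : f = f' := funext fun x => (hff x).symm
  subst hf_eq
  refine ⟨rfl, ?_⟩
  funext x
  by_cases hx : x = r0
  · rw [hx, ho, ho']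
  · have hne := ne_of_ne_root hf hx
    rcases h1 : o x with _ | _ <;> rcases h2 : o' x with _ | _
    · rfl
    · exfalso
      have h3 : Ed f o' x (f x) := Or.inl ⟨rfl, hne, h2⟩
      rcases (hE _ _).2 h3 with ⟨_, _, h4⟩ | ⟨h4, h5, h6⟩
      · rw [h1] at h4; simp at h4
      · exact no_two_cycle hf hne rfl h4.symm
    · exfalso
      have h3 : Ed f o x (f x) := Or.inl ⟨rfl, hne, h1⟩
      rcases (hE _ _).1 h3 with ⟨_, _, h4⟩ | ⟨h4, h5, h6⟩
      · rw [h2] at h4; simp at h4
      · exact no_two_cycle hf hne rfl h4.symm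
    · rfl

theorem exists_forest (r0 : V) {E : V → V → Bool} (hE : OTree E) :
    ∃ f o, IsF {r0} f ∧ Eb f o = E := by
  classical
  obtain ⟨hanti, htree⟩ := hE
  set G := SimpleGraph.fromRel (fun a b => E a b = true) with hG
  have hconn := htree.1
  -- the parent function
  have hpar : ∀ x, x ≠ r0 → ∃ y, G.Adj x y ∧ G.dist x r0 = G.dist y r0 + 1 := by
    intro x hx
    obtain ⟨w, hw⟩ := (hconn.preconnected x r0).exists_walk_length_eq_dist
    cases w with
    | nil => exact absurd rfl hx
    | cons hadj w' =>
      rename_i y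
      refine ⟨y, hadj, ?_⟩
      rw [SimpleGraph.Walk.length_cons] at hw
      have h1 := SimpleGraph.dist_le w'
      have h2 : G.dist x r0 ≤ G.dist y r0 + 1 := by
        obtain ⟨w2, hw2⟩ := (hconn.preconnected y r0).exists_walk_length_eq_dist
        have := SimpleGraph.dist_le (SimpleGraph.Walk.cons hadj w2)
        rw [SimpleGraph.Walk.length_cons, hw2] at this
        exact this
      omega
  choose! g hg using hpar
  set f : V → V := fun x => if x = r0 then r0 else g x with hf
  have hfr : f r0 = r0 := by simp [hf]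
  have hfx : ∀ x, x ≠ r0 → G.Adj x (f x) ∧ G.dist x r0 = G.dist (f x) r0 + 1 := by
    intro x hx
    simp only [hf, hx, if_false]
    exact hg x hx
  have hF : IsF {r0} f := by
    refine ⟨fun r hr => by rw [Finset.mem_singleton.1 hr, hfr], ?_⟩
    intro x
    obtain ⟨d, hd⟩ : ∃ d, G.dist x r0 = d := ⟨_, rfl⟩
    induction d generalizing x with
    | zero =>
      have : x = r0 := (hconn.dist_eq_zero_iff).1 hd
      exact ⟨0, by simp [this]⟩
    | succ d ih =>
      have hx : x ≠ r0 := by
        rintro rfl
        rw [SimpleGraph.dist_self] at hd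
        omega
      obtain ⟨k, hk⟩ := ih (f x) (by have := (hfx x hx).2; omega)
      exact ⟨k + 1, by rw [Function.iterate_succ_apply]; exact hk⟩
  refine ⟨f, fun x => E x (f x), hF, ?_⟩
  -- all edges are of the form {x, f x}
  have hcard := (SimpleGraph.isTree_iff_connected_and_card.1 htree).2
  have hsub : ((univ.erase r0).image (fun x => s(x, f x)) : Finset (Sym2 V)) ⊆ G.edgeFinset := by
    intro e he
    obtain ⟨x, hx, rfl⟩ := Finset.mem_image.1 he
    rw [SimpleGraph.mem_edgeFinset, SimpleGraph.mem_edgeSet]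
    exact (hfx x (Finset.ne_of_mem_erase hx)).1
  have heq : ((univ.erase r0).image (fun x => s(x, f x)) : Finset (Sym2 V)) = G.edgeFinset := by
    apply Finset.eq_of_subset_of_card_le hsub
    rw [Finset.card_image_of_injOn]
    · rw [Finset.card_erase_of_mem (Finset.mem_univ _), Finset.card_univ]
      rw [Nat.card_eq_fintype_card, Nat.card_eq_fintype_card, ← SimpleGraph.edgeFinset_card] at hcard
      omega
    · intro x hx y hy h
      simp only [coe_erase, coe_univ, Set.mem_sdiff, Set.mem_univ, Set.mem_singleton_iff,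
        true_and] at hx hy
      exact edges_inj hF h hx
  have hedge : ∀ a b, G.Adj a b → b = f a ∨ a = f b := by
    intro a b hab
    have h1 : s(a, b) ∈ G.edgeFinset := by
      rw [SimpleGraph.mem_edgeFinset, SimpleGraph.mem_edgeSet]; exact hab
    rw [← heq] at h1
    obtain ⟨x, hx, h2⟩ := Finset.mem_image.1 h1
    rw [Sym2.eq_iff] at h2
    rcases h2 with ⟨h3, h4⟩ | ⟨h3, h4⟩
    · left; rw [← h3, h4]
    · right; rw [← h3, h4]
  have hloop : ∀ a, E a a = false := by
    intro a
    have := hanti a a
    rcases h : E a a with _ | _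
    · rfl
    · exact absurd ⟨h, h⟩ this
  funext a b
  rw [Bool.eq_iff_iff, Eb_iff]
  constructor
  · rintro (⟨h1, h2, h3⟩ | ⟨h1, h2, h3⟩)
    · rw [h1]; exact h3
    · have hb : b ≠ r0 := by rintro rfl; exact h2 (by rw [h1, hfr])
      have h4 := (hfx b hb).1
      rw [hG, SimpleGraph.fromRel_adj] at h4
      have h3 : E b (f b) = false := h3
      rcases h4.2 with h5 | h5
      · rw [h5] at h3; simp at h3
      · rw [h1]; exact h5
  · intro h
    have hab : a ≠ b := by
      rintro rfl
      rw [hloop] at h; simp at h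
    have hadj : G.Adj a b := by
      rw [hG, SimpleGraph.fromRel_adj]; exact ⟨hab, Or.inl h⟩
    rcases hedge a b hadj with h1 | h1
    · left
      refine ⟨h1, hab, ?_⟩
      show E a (f a) = true
      rw [← h1]; exact h
    · right
      refine ⟨h1, hab, ?_⟩
      show E b (f b) = false
      rw [← h1]
      rcases h2 : E b a with _ | _
      · rfl
      · exact absurd ⟨h, h2⟩ (hanti a b)

end

end Pool.Agent.W957
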